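import Mathlib

set_option autoImplicit false

namespace Pool.Agent.Helper85.Don

/-- The translate `T - y`. -/
def sh {n : ℕ} [NeZero n] (T : Finset (ZMod n)) (y : ZMod n) : Finset (ZMod n) :=
  Finset.univ.filter (fun x => x + y ∈ T)

/-- The preimage of `T` under the permutation. -/
def ke {n : ℕ} [NeZero n] (π : Equiv.Perm (ZMod n)) (T : Finset (ZMod n)) : Finset (ZMod n) :=
  Finset.univ.filter (fun x => π x ∈ T)

/-- The preimage of `T` under the permutation, without the point `0`. -/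
def re {n : ℕ} [NeZero n] (π : Equiv.Perm (ZMod n)) (T : Finset (ZMod n)) : Finset (ZMod n) :=
  Finset.univ.filter (fun x => x ≠ 0 ∧ π x ∈ T)

/-- The properties of the relation `B T c`: the set with holes `T` is reached by a word of length
at most `c`. -/
structure Cost {n : ℕ} [NeZero n] (π : Equiv.Perm (ZMod n)) (d : ZMod n)
    (B : Finset (ZMod n) → ℕ → Prop) : Prop where
  mono : ∀ T c c', B T c → c ≤ c' → B T c'
  empty : B ∅ 0
  rot : ∀ T (y : ZMod n) c, B (sh T y) c → B T (c + y.val)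
  keep : ∀ T c, (0 : ZMod n) ∈ T → B (ke π T) c → B T (c + 1)
  rem : ∀ T c, (0 : ZMod n) ∈ T → d ∉ T → B (re π T) c → B T (c + 1)

/-- The orbit subgroup. -/
def orb {n : ℕ} [NeZero n] (π : Equiv.Perm (ZMod n)) (d : ZMod n) : AddSubgroup (ZMod n) :=
  AddSubgroup.closure (Set.range (fun i : ℕ => (π ^ i) d))

/-- `T` is a union of cosets of `K`. -/
def Per {n : ℕ} [NeZero n] (K : AddSubgroup (ZMod n)) (T : Finset (ZMod n)) : Prop :=
  ∀ x ∈ T, ∀ κ ∈ K, x + κ ∈ T

/-- The reachability bound by words. -/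
def Bd {n : ℕ} [NeZero n] (f : ZMod n → ZMod n) (T : Finset (ZMod n)) (c : ℕ) : Prop :=
  ∃ w : List Bool, w.length ≤ c ∧
    Finset.univ.image (fun q : ZMod n =>
      w.foldl (fun (p : ZMod n) (b : Bool) => if b then f p else p + 1) q) = Tᶜ

/-- The situation where the permutation fixes `d`, the subgroup generated by `d` is the set of
multiples of `g`, and it has `M` elements. -/
structure W {n : ℕ} [NeZero n] (π : Equiv.Perm (ZMod n)) (d : ZMod n)
    (B : Finset (ZMod n) → ℕ → Prop) (g M : ℕ) : Prop where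
  cost : Cost π d B
  zero : π 0 = 0
  dne : d ≠ 0
  fix : π d = d
  hn : n = g * M
  hM : 3 ≤ M
  hg : 3 ≤ g
  mem : ∀ x : ZMod n, x ∈ AddSubgroup.zmultiples d ↔ g ∣ x.val

/-- The chain of subgroups starting from `K`. -/
def ch {n : ℕ} [NeZero n] (π : Equiv.Perm (ZMod n)) (K : AddSubgroup (ZMod n)) :
    ℕ → AddSubgroup (ZMod n)
  | 0 => K
  | i + 1 => AddSubgroup.closure
      ((ch π K i : Set (ZMod n)) ∪ π '' (ch π K i : Set (ZMod n)))

end Pool.Agent.Helper85.Don
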