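import Pool.Agent.Helper85.Don.Defs

set_option autoImplicit false

namespace Pool.Agent.Helper85.Don



theorem card_per {n : ℕ} [NeZero n] (K : AddSubgroup (ZMod n)) (T : Finset (ZMod n))
    (hT : Per K T) : Nat.card K ∣ T.card := by
  classical
  have hfib : ∀ q ∈ T.image (fun x : ZMod n => (x : ZMod n ⧸ K)),
      (T.filter (fun x : ZMod n => (x : ZMod n ⧸ K) = q)).card = Nat.card K := by
    intro q hq
    obtain ⟨x, hx, rfl⟩ := Finset.mem_image.1 hq
    have h1 : T.filter (fun y : ZMod n => (y : ZMod n ⧸ K) = (x : ZMod n ⧸ K)) =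
        (Finset.univ : Finset K).image (fun κ : K => x + (κ : ZMod n)) := by
      ext y
      rw [Finset.mem_filter, Finset.mem_image]
      constructor
      · rintro ⟨_, hyx⟩
        have h2 : -x + y ∈ K := QuotientAddGroup.eq.1 hyx.symm
        exact ⟨⟨-x + y, h2⟩, Finset.mem_univ _, by simp⟩
      · rintro ⟨κ, _, rfl⟩
        refine ⟨hT x hx κ κ.2, ?_⟩
        rw [eq_comm, QuotientAddGroup.eq]
        simp
    rw [h1, Finset.card_image_of_injective, Finset.card_univ, Nat.card_eq_fintype_card]
    intro a b hab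
    exact Subtype.ext (add_left_cancel hab)
  rw [Finset.card_eq_sum_card_image (fun x : ZMod n => (x : ZMod n ⧸ K)) T,
    Finset.sum_congr rfl hfib, Finset.sum_const, smul_eq_mul]
  exact Dvd.intro_left _ rfl

end Pool.Agent.Helper85.Don
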