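import Pool.Agent.Helper85.Don.Defs
import Pool.Agent.Helper85.Don.P_red_step

set_option autoImplicit false

namespace Pool.Agent.Helper85.Don



theorem only_m1 {n : ℕ} [NeZero n] {π : Equiv.Perm (ZMod n)} {d : ZMod n}
    {B : Finset (ZMod n) → ℕ → Prop} {g M : ℕ} (w : W π d B g M) (U : Finset (ZMod n)) (C : ℕ)
    (IH : ∀ V : Finset (ZMod n), V.card + 1 = U.card → B V C) (hU : ¬ B U (C + (n - 1))) :
    ∀ y ∈ U, y + d ∉ U → y = -1 := by
  intro y hy hyd
  obtain ⟨h1, h2⟩ := red_step π d B w.cost w.zero U y hy hyd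
  have h3 := h2 C (IH _ h1)
  have hn0 : 0 < n := Nat.pos_of_ne_zero (NeZero.ne n)
  have hlt : y.val < n := ZMod.val_lt y
  have hval : y.val = n - 1 := by
    by_contra hne
    apply hU
    exact w.cost.mono U _ _ h3 (by omega)
  have h4 : y = ((n - 1 : ℕ) : ZMod n) := by
    rw [← hval, ZMod.natCast_zmod_val]
  rw [h4, Nat.cast_sub hn0, ZMod.natCast_self]
  simp

end Pool.Agent.Helper85.Don
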