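import Pool.Agent.Helper85.Don.Defs
import Pool.Agent.Helper85.Don.P_walk

set_option autoImplicit false

namespace Pool.Agent.Helper85.Don



theorem red_in_K {n : ℕ} [NeZero n] {π : Equiv.Perm (ZMod n)} {d : ZMod n}
    {B : Finset (ZMod n) → ℕ → Prop} {g M : ℕ} (w : W π d B g M) (U : Finset (ZMod n))
    (x y : ZMod n) (hx : x ∈ U) (hxK : x ∈ AddSubgroup.zmultiples d) (hy : y ∉ U)
    (hyK : y ∈ AddSubgroup.zmultiples d) :
    ∃ h ∈ U, h ∈ AddSubgroup.zmultiples d ∧ h + d ∉ U ∧ h.val + g ≤ n := by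
  have h1 : y - x ∈ AddSubgroup.zmultiples d := AddSubgroup.sub_mem _ hyK hxK
  rw [← mem_multiples_iff_mem_zmultiples] at h1
  obtain ⟨j, hj⟩ := h1
  have hj' : j • d = y - x := hj
  obtain ⟨i, -, hi1, hi2⟩ := walk d U x j hx (by rw [hj', add_sub_cancel]; exact hy)
  have hmem : x + i • d ∈ AddSubgroup.zmultiples d :=
    AddSubgroup.add_mem _ hxK (AddSubgroup.nsmul_mem _ (AddSubgroup.mem_zmultiples d) i)
  refine ⟨x + i • d, hi1, hmem, ?_, ?_⟩
  · rw [add_assoc, ← succ_nsmul]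
    exact hi2
  · obtain ⟨a, ha⟩ := (w.mem _).1 hmem
    have hlt := ZMod.val_lt (x + i • d)
    have hn := w.hn
    rw [ha] at hlt ⊢
    have hg := w.hg
    have hlt2 : g * a < g * M := by rw [← hn]; exact hlt
    have ha2 : a < M := Nat.lt_of_mul_lt_mul_left hlt2
    calc g * a + g = g * (a + 1) := by ring
      _ ≤ g * M := Nat.mul_le_mul_left _ ha2
      _ = n := hn.symm

end Pool.Agent.Helper85.Don
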