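import Pool.Agent.Helper85.Don.Defs

set_option autoImplicit false

namespace Pool.Agent.Helper85.Don



theorem shift_inv {n : ℕ} [NeZero n] (π : Equiv.Perm (ZMod n)) (E : Finset (ZMod n)) (x : ZMod n)
    (l s : ℕ) (hl : 1 ≤ l) (hx : (π ^ l) x = x)
    (h : ∀ m : ℕ, 1 ≤ m → m ≤ l → (π ^ m) x ∈ E → (π ^ (m + s)) x ∈ E) (i : ℕ) :
    (π ^ i) x ∈ E ↔ (π ^ (i + s)) x ∈ E := by
  classical
  have hp : ∀ m : ℕ, ((π ^ (m + l)) x ∈ E) = ((π ^ m) x ∈ E) := by
    intro m
    rw [pow_add, Equiv.Perm.mul_apply, hx]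
  have hP : Function.Periodic (fun m : ℕ => (π ^ m) x ∈ E) l := fun m => hp m
  have hQ : Function.Periodic (fun m : ℕ => (π ^ (m + s)) x ∈ E) l := by
    intro m
    have e : m + l + s = (m + s) + l := by ring
    simp only [e]
    exact hp (m + s)
  have h1 := Nat.filter_Ico_card_eq_of_periodic 1 l (fun m : ℕ => (π ^ m) x ∈ E) hP
  have h1' := Nat.filter_Ico_card_eq_of_periodic (1 + s) l (fun m : ℕ => (π ^ m) x ∈ E) hP
  have h2 : (Finset.filter (fun m : ℕ => (π ^ (m + s)) x ∈ E) (Finset.Ico 1 (1 + l))).card =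
      (Finset.filter (fun m : ℕ => (π ^ m) x ∈ E) (Finset.Ico (1 + s) (1 + s + l))).card := by
    apply Finset.card_bij (fun m _ => m + s)
    · intro a ha
      simp only [Finset.mem_filter, Finset.mem_Ico] at ha ⊢
      exact ⟨by omega, ha.2⟩
    · intro a _ b _ hab
      exact Nat.add_right_cancel hab
    · intro b hb
      simp only [Finset.mem_filter, Finset.mem_Ico] at hb
      refine ⟨b - s, ?_, by omega⟩
      simp only [Finset.mem_filter, Finset.mem_Ico]
      have e : b - s + s = b := by omega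
      rw [e]
      exact ⟨by omega, hb.2⟩
  have hsub : Finset.filter (fun m : ℕ => (π ^ m) x ∈ E) (Finset.Ico 1 (1 + l)) ⊆
      Finset.filter (fun m : ℕ => (π ^ (m + s)) x ∈ E) (Finset.Ico 1 (1 + l)) := by
    intro m hm
    simp only [Finset.mem_filter, Finset.mem_Ico] at hm ⊢
    exact ⟨hm.1, h m hm.1.1 (by omega) hm.2⟩
  have heq := Finset.eq_of_subset_of_card_le hsub (by rw [h2, h1', h1])
  have key : ∀ m : ℕ, 1 ≤ m → m ≤ l → ((π ^ m) x ∈ E ↔ (π ^ (m + s)) x ∈ E) := by
    intro m hm1 hm2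
    refine ⟨h m hm1 hm2, fun hm => ?_⟩
    have h3 : m ∈ Finset.filter (fun m : ℕ => (π ^ (m + s)) x ∈ E) (Finset.Ico 1 (1 + l)) := by
      simp only [Finset.mem_filter, Finset.mem_Ico]
      exact ⟨by omega, hm⟩
    rw [← heq] at h3
    exact (Finset.mem_filter.mp h3).2
  have hlt : (i + (l - 1)) % l < l := Nat.mod_lt _ (by omega)
  have hP1 : Function.Periodic (fun m : ℕ => (π ^ (m + 1)) x ∈ E) l := by
    intro m
    have e : m + l + 1 = (m + 1) + l := by ring
    simp only [e]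
    exact hp (m + 1)
  have hQ1 : Function.Periodic (fun m : ℕ => (π ^ (m + 1 + s)) x ∈ E) l := by
    intro m
    have e : m + l + 1 + s = (m + 1 + s) + l := by ring
    simp only [e]
    exact hp (m + 1 + s)
  have e1 := hP1.map_mod_nat (i + (l - 1))
  have e2 := hQ1.map_mod_nat (i + (l - 1))
  have k := key ((i + (l - 1)) % l + 1) (by omega) (by omega)
  beta_reduce at e1 e2
  rw [e1, e2] at k
  have f1 : i + (l - 1) + 1 = i + l := by omega
  have f2 : i + l + s = (i + s) + l := by omega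
  rw [f1, f2, hp, hp] at k
  exact k

end Pool.Agent.Helper85.Don
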