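import Pool.Agent.Helper85.Don.Defs
import Pool.Agent.Helper85.Don.P_shift_inv
import Pool.Agent.Helper85.Don.P_shift_gap

set_option autoImplicit false

namespace Pool.Agent.Helper85.Don



theorem cfd_cyc {n : ℕ} [NeZero n] (π : Equiv.Perm (ZMod n)) (κ : ZMod n) :
    ∃ l : ℕ, 1 ≤ l ∧ ∃ C : Finset (ZMod n), C.card = l ∧ κ ∈ C ∧ (π ^ l) κ = κ ∧
      (∀ x ∈ C, ∃ i : ℕ, (π ^ i) κ = x) ∧ (∀ x ∈ C, (π ^ l) x = x) ∧
      (∀ x ∈ C, ∀ y ∈ C, ∃ s, s < l ∧ (π ^ s) x = y) := by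
  classical
  have hex : ∃ l : ℕ, 1 ≤ l ∧ (π ^ l) κ = κ := by
    refine ⟨orderOf π, orderOf_pos π, ?_⟩
    rw [pow_orderOf_eq_one]; rfl
  set l := Nat.find hex with hl
  obtain ⟨hl1, hlκ⟩ : 1 ≤ l ∧ (π ^ l) κ = κ := Nat.find_spec hex
  have hmin : ∀ j, 1 ≤ j → j < l → (π ^ j) κ ≠ κ := by
    intro j hj1 hj2 hj3
    exact Nat.find_min hex hj2 ⟨hj1, hj3⟩
  have hmod : ∀ i : ℕ, (π ^ i) κ = (π ^ (i % l)) κ := by
    intro i
    have hq : ∀ q : ℕ, (π ^ (l * q)) κ = κ := by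
      intro q
      induction q with
      | zero => simp
      | succ q ih => rw [Nat.mul_succ, pow_add, Equiv.Perm.mul_apply, hlκ, ih]
    conv_lhs => rw [← Nat.mod_add_div i l]
    rw [pow_add, Equiv.Perm.mul_apply, hq]
  have hinj : ∀ i j : ℕ, i < j → j < l → (π ^ i) κ ≠ (π ^ j) κ := by
    intro i j hij hj h
    have h1 : (π ^ j) κ = (π ^ i) ((π ^ (j - i)) κ) := by
      rw [← Equiv.Perm.mul_apply, ← pow_add]
      congr 2
      omega
    rw [h1] at h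
    have h2 := (π ^ i).injective h
    exact hmin (j - i) (by omega) (by omega) h2.symm
  refine ⟨l, hl1, (Finset.range l).image (fun i => (π ^ i) κ), ?_, ?_, hlκ, ?_, ?_, ?_⟩
  · rw [Finset.card_image_of_injOn, Finset.card_range]
    intro i hi j hj hij
    have hi' : i < l := by simpa using hi
    have hj' : j < l := by simpa using hj
    rcases lt_trichotomy i j with h | h | h
    · exact absurd hij (hinj i j h hj')
    · exact h
    · exact absurd hij.symm (hinj j i h hi')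
  · rw [Finset.mem_image]
    exact ⟨0, Finset.mem_range.mpr hl1, by simp⟩
  · intro x hx
    obtain ⟨i, _, hi⟩ := Finset.mem_image.mp hx
    exact ⟨i, hi⟩
  · intro x hx
    obtain ⟨i, _, hi⟩ := Finset.mem_image.mp hx
    rw [← hi, ← Equiv.Perm.mul_apply, ← pow_add, Nat.add_comm, pow_add, Equiv.Perm.mul_apply, hlκ]
  · intro x hx y hy
    obtain ⟨i, hi', hi⟩ := Finset.mem_image.mp hx
    obtain ⟨j, hj', hj⟩ := Finset.mem_image.mp hy
    rw [Finset.mem_range] at hi' hj'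
    refine ⟨(j + l - i) % l, Nat.mod_lt _ hl1, ?_⟩
    rw [← hi, ← hj, ← Equiv.Perm.mul_apply, ← pow_add, hmod ((j + l - i) % l + i), hmod j]
    congr 2
    rw [Nat.mod_add_mod]
    have : j + l - i + i = j + l := by omega
    rw [this, Nat.add_mod_right]

theorem cfd_same {n : ℕ} [NeZero n] (π : Equiv.Perm (ZMod n)) (E : Finset (ZMod n))
    (κ : ZMod n) (l g : ℕ) (C : Finset (ZMod n)) (hl1 : 1 ≤ l) (hl : l < 4 * g) (hκC : κ ∈ C)
    (hκE : κ ∈ E) (hgap : ∀ m : ℕ, 1 ≤ m → m < 2 * g → (π ^ m) κ ∉ E)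
    (hCp : ∀ x ∈ C, (π ^ l) x = x)
    (hCs : ∀ x ∈ C, ∀ y ∈ C, ∃ s, s < l ∧ (π ^ s) x = y)
    (x x' : ZMod n) (hx : x ∈ C) (hx' : x' ∈ C) (hne : x ≠ x')
    (htr : ∀ m : ℕ, 1 ≤ m → m ≤ l → (π ^ m) x ∈ E → (π ^ m) x' ∈ E) : False := by
  obtain ⟨s, hs, hsx⟩ := hCs x hx x' hx'
  obtain ⟨a, _, ha⟩ := hCs x hx κ hκC
  have hs1 : 1 ≤ s := by
    rcases Nat.eq_zero_or_pos s with h | h
    · subst h
      exact absurd (by simpa using hsx) hne
    · exact h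
  have hinv := shift_inv π E x l s hl1 (hCp x hx) (by
    intro m hm1 hm2 hm
    rw [pow_add, Equiv.Perm.mul_apply, hsx]
    exact htr m hm1 hm2 hm)
  have hfin := shift_gap π E x κ l s (2 * g) a (hCp x hx) ha.symm hκE hgap hinv hs1 hs
  omega

theorem cfive_diff {n : ℕ} [NeZero n] (π : Equiv.Perm (ZMod n)) (g : ℕ) (hg : 1 ≤ g)
    (hn : n = g * 5) (h0 : π 0 = 0) (h2 : π ((2 * g : ℕ) : ZMod n) = ((2 * g : ℕ) : ZMod n))
    (h4 : π ((4 * g : ℕ) : ZMod n) = ((4 * g : ℕ) : ZMod n)) (E : Finset (ZMod n))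
    (hE1 : ((g : ℕ) : ZMod n) ∈ E) (hE3 : ((3 * g : ℕ) : ZMod n) ∈ E)
    (R1 : ∀ m : ℕ, 1 ≤ m → m < 2 * g → (π ^ m) ((g : ℕ) : ZMod n) ∉ E)
    (R3 : ∀ m : ℕ, 1 ≤ m → m < 2 * g → (π ^ m) ((3 * g : ℕ) : ZMod n) ∉ E)
    (Q1 : ∀ a m : ℕ, 1 ≤ a → a < g → 1 ≤ m → m < 4 * g + a →
      (π ^ m) ((g - a : ℕ) : ZMod n) ∈ E → (π ^ m) ((3 * g - a : ℕ) : ZMod n) ∈ E)
    (Q2 : ∀ a m : ℕ, 1 ≤ a → a < g → 1 ≤ m → m < 2 * g + a →
      (π ^ m) ((3 * g - a : ℕ) : ZMod n) ∈ E → (π ^ m) ((5 * g - a : ℕ) : ZMod n) ∈ E)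
    (hs : ∀ s : ℕ, (π ^ s) ((g : ℕ) : ZMod n) ≠ ((3 * g : ℕ) : ZMod n)) : False := by
  classical
  have hval : ∀ k : ℕ, k < n → ((k : ℕ) : ZMod n).val = k := fun k hk =>
    ZMod.val_natCast_of_lt hk
  have hcne : ∀ k k' : ℕ, k < n → k' < n → k ≠ k' → ((k : ℕ) : ZMod n) ≠ ((k' : ℕ) : ZMod n) := by
    intro k k' hk hk' hkk h
    apply hkk
    rw [← hval k hk, ← hval k' hk', h]
  obtain ⟨l1, hl1, C1, hC1c, hC1κ, hC1l, hC1m, hC1p, hC1s⟩ := cfd_cyc π ((g : ℕ) : ZMod n)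
  obtain ⟨l3, hl3, C3, hC3c, hC3κ, hC3l, hC3m, hC3p, hC3s⟩ := cfd_cyc π ((3 * g : ℕ) : ZMod n)
  have hl1g : 2 * g ≤ l1 := by
    by_contra hlt
    exact R1 l1 hl1 (not_le.mp hlt) (by rw [hC1l]; exact hE1)
  have hl3g : 2 * g ≤ l3 := by
    by_contra hlt
    exact R3 l3 hl3 (not_le.mp hlt) (by rw [hC3l]; exact hE3)
  have hdisj : Disjoint C1 C3 := by
    rw [Finset.disjoint_left]
    intro x hx1 hx3
    obtain ⟨i, hi⟩ := hC1m x hx1
    obtain ⟨s, _, hs'⟩ := hC3s x hx3 _ hC3κ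
    apply hs (s + i)
    rw [pow_add, Equiv.Perm.mul_apply, hi, hs']
  have hfixpow : ∀ z : ZMod n, π z = z → ∀ s : ℕ, (π ^ s) z = z := by
    intro z hz s
    induction s with
    | zero => simp
    | succ s ih => rw [pow_succ, Equiv.Perm.mul_apply, hz, ih]
  have hfix1 : ∀ z : ZMod n, π z = z → z ≠ ((g : ℕ) : ZMod n) → z ∉ C1 := by
    intro z hz hne hmem
    obtain ⟨s, _, hs'⟩ := hC1s z hmem _ hC1κ
    rw [hfixpow z hz s] at hs'
    exact hne hs'
  have hfix3 : ∀ z : ZMod n, π z = z → z ≠ ((3 * g : ℕ) : ZMod n) → z ∉ C3 := by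
    intro z hz hne hmem
    obtain ⟨s, _, hs'⟩ := hC3s z hmem _ hC3κ
    rw [hfixpow z hz s] at hs'
    exact hne hs'
  have hc0 : (0 : ZMod n) = ((0 : ℕ) : ZMod n) := by simp
  set Z : Finset (ZMod n) := {((0 : ℕ) : ZMod n), ((2 * g : ℕ) : ZMod n), ((4 * g : ℕ) : ZMod n)}
    with hZ
  have hZc : Z.card = 3 := by
    rw [hZ, Finset.card_eq_three]
    exact ⟨_, _, _, hcne 0 (2 * g) (by omega) (by omega) (by omega),
      hcne 0 (4 * g) (by omega) (by omega) (by omega),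
      hcne (2 * g) (4 * g) (by omega) (by omega) (by omega), rfl⟩
  have hZfix : ∀ z ∈ Z, π z = z ∧ z ≠ ((g : ℕ) : ZMod n) ∧ z ≠ ((3 * g : ℕ) : ZMod n) ∧
      z.val % g = 0 := by
    intro z hz
    rw [hZ, Finset.mem_insert, Finset.mem_insert, Finset.mem_singleton] at hz
    rcases hz with h | h | h
    · subst h
      refine ⟨by rw [← hc0]; exact h0, hcne _ _ (by omega) (by omega) (by omega),
        hcne _ _ (by omega) (by omega) (by omega), ?_⟩
      rw [hval 0 (by omega)]; simp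
    · subst h
      refine ⟨h2, hcne _ _ (by omega) (by omega) (by omega),
        hcne _ _ (by omega) (by omega) (by omega), ?_⟩
      rw [hval (2 * g) (by omega)]; simp
    · subst h
      refine ⟨h4, hcne _ _ (by omega) (by omega) (by omega),
        hcne _ _ (by omega) (by omega) (by omega), ?_⟩
      rw [hval (4 * g) (by omega)]; simp
  have hZ1 : Disjoint (C1 ∪ C3) Z := by
    rw [Finset.disjoint_right]
    intro z hz hmem
    obtain ⟨a1, a2, a3, _⟩ := hZfix z hz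
    rcases Finset.mem_union.mp hmem with h | h
    · exact hfix1 z a1 a2 h
    · exact hfix3 z a1 a3 h
  have hcard1 : (C1 ∪ C3 ∪ Z).card = l1 + l3 + 3 := by
    rw [Finset.card_union_of_disjoint hZ1, Finset.card_union_of_disjoint hdisj, hC1c, hC3c, hZc]
  have hle1 : l1 + l3 + 3 ≤ n := by
    rw [← hcard1]
    have := Finset.card_le_univ (C1 ∪ C3 ∪ Z)
    rwa [ZMod.card] at this
  set b : ℕ := max l1 l3 - 2 * g with hb
  have hb1 : l1 ≤ 2 * g + b := by omega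
  have hb3 : l3 ≤ 2 * g + b := by omega
  have hclaim : ∀ a : ℕ, b + 1 ≤ a → a ≤ g - 1 → ∃ y : ZMod n,
      (y = ((g - a : ℕ) : ZMod n) ∨ y = ((3 * g - a : ℕ) : ZMod n) ∨
        y = ((5 * g - a : ℕ) : ZMod n)) ∧ y ∉ C1 ∪ C3 := by
    intro a ha1 ha2
    by_contra hcon
    push Not at hcon
    have m0 := hcon _ (Or.inl rfl)
    have m1 := hcon _ (Or.inr (Or.inl rfl))
    have m2 := hcon _ (Or.inr (Or.inr rfl))
    have n01 : ((g - a : ℕ) : ZMod n) ≠ ((3 * g - a : ℕ) : ZMod n) :=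
      hcne _ _ (by omega) (by omega) (by omega)
    have n02 : ((g - a : ℕ) : ZMod n) ≠ ((5 * g - a : ℕ) : ZMod n) :=
      hcne _ _ (by omega) (by omega) (by omega)
    have n12 : ((3 * g - a : ℕ) : ZMod n) ≠ ((5 * g - a : ℕ) : ZMod n) :=
      hcne _ _ (by omega) (by omega) (by omega)
    have t01 : ∀ m : ℕ, 1 ≤ m → m ≤ 2 * g + b →
        (π ^ m) ((g - a : ℕ) : ZMod n) ∈ E → (π ^ m) ((3 * g - a : ℕ) : ZMod n) ∈ E :=
      fun m h1 h2 => Q1 a m (by omega) (by omega) h1 (by omega)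
    have t12 : ∀ m : ℕ, 1 ≤ m → m ≤ 2 * g + b →
        (π ^ m) ((3 * g - a : ℕ) : ZMod n) ∈ E → (π ^ m) ((5 * g - a : ℕ) : ZMod n) ∈ E :=
      fun m h1 h2 => Q2 a m (by omega) (by omega) h1 (by omega)
    have same1 := cfd_same π E _ l1 g C1 hl1 (by omega) hC1κ hE1 R1 hC1p hC1s
    have same3 := cfd_same π E _ l3 g C3 hl3 (by omega) hC3κ hE3 R3 hC3p hC3s
    rcases Finset.mem_union.mp m0 with p0 | p0 <;> rcases Finset.mem_union.mp m1 with p1 | p1 <;>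
      rcases Finset.mem_union.mp m2 with p2 | p2
    · exact same1 _ _ p0 p1 n01 (fun m h1 h2 => t01 m h1 (by omega))
    · exact same1 _ _ p0 p1 n01 (fun m h1 h2 => t01 m h1 (by omega))
    · exact same1 _ _ p0 p2 n02 (fun m h1 h2 h => t12 m h1 (by omega) (t01 m h1 (by omega) h))
    · exact same3 _ _ p1 p2 n12 (fun m h1 h2 => t12 m h1 (by omega))
    · exact same1 _ _ p1 p2 n12 (fun m h1 h2 => t12 m h1 (by omega))
    · exact same3 _ _ p0 p2 n02 (fun m h1 h2 h => t12 m h1 (by omega) (t01 m h1 (by omega) h))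
    · exact same3 _ _ p0 p1 n01 (fun m h1 h2 => t01 m h1 (by omega))
    · exact same3 _ _ p0 p1 n01 (fun m h1 h2 => t01 m h1 (by omega))
  choose! y hy hyC using hclaim
  have hyval : ∀ a : ℕ, b + 1 ≤ a → a ≤ g - 1 → (y a).val % g = g - a := by
    intro a ha1 ha2
    rcases hy a ha1 ha2 with h | h | h
    · rw [h, hval _ (by omega)]
      exact Nat.mod_eq_of_lt (by omega)
    · rw [h, hval _ (by omega)]
      have : 3 * g - a = (g - a) + g * 2 := by omega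
      rw [this, Nat.add_mul_mod_self_left]
      exact Nat.mod_eq_of_lt (by omega)
    · rw [h, hval _ (by omega)]
      have : 5 * g - a = (g - a) + g * 4 := by omega
      rw [this, Nat.add_mul_mod_self_left]
      exact Nat.mod_eq_of_lt (by omega)
  set I : Finset ℕ := Finset.Icc (b + 1) (g - 1) with hI
  have hIc : (I.image y).card = g - 1 + 1 - (b + 1) := by
    rw [Finset.card_image_of_injOn, hI, Nat.card_Icc]
    intro a ha a' ha' haa
    have ha2 : b + 1 ≤ a ∧ a ≤ g - 1 := by simpa [hI] using ha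
    have ha3 : b + 1 ≤ a' ∧ a' ≤ g - 1 := by simpa [hI] using ha'
    have e1 := hyval a ha2.1 ha2.2
    have e2 := hyval a' ha3.1 ha3.2
    have haa' : y a = y a' := haa
    rw [haa', e2] at e1
    omega
  have hdis2 : Disjoint (C1 ∪ C3 ∪ Z) (I.image y) := by
    rw [Finset.disjoint_right]
    intro z hz hmem
    obtain ⟨a, ha, rfl⟩ := Finset.mem_image.mp hz
    have ha2 : b + 1 ≤ a ∧ a ≤ g - 1 := by simpa [hI] using ha
    rcases Finset.mem_union.mp hmem with h | h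
    · exact hyC a ha2.1 ha2.2 h
    · have e1 := hyval a ha2.1 ha2.2
      have e2 := (hZfix _ h).2.2.2
      omega
  have hcard2 : (C1 ∪ C3 ∪ Z ∪ I.image y).card = l1 + l3 + 3 + (g - 1 + 1 - (b + 1)) := by
    rw [Finset.card_union_of_disjoint hdis2, hcard1, hIc]
  have hle2 : l1 + l3 + 3 + (g - 1 + 1 - (b + 1)) ≤ n := by
    rw [← hcard2]
    have := Finset.card_le_univ (C1 ∪ C3 ∪ Z ∪ I.image y)
    rwa [ZMod.card] at this
  omega

end Pool.Agent.Helper85.Don
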