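import Pool.Agent.Helper85.Don.Defs

set_option autoImplicit false

namespace Pool.Agent.Helper85.Don



theorem return_sum {n : ℕ} [NeZero n] (π : Equiv.Perm (ZMod n)) (S : Finset ℕ) (x : ℕ → ZMod n)
    (t : ℕ → ℕ) (Z : Finset (ZMod n)) (hZ : ∀ z ∈ Z, π z = z) (hxZ : ∀ j ∈ S, x j ∉ Z)
    (ht : ∀ i ∈ S, ∀ j ∈ S, ∀ m, 1 ≤ m → m < t i → (π ^ m) (x i) ≠ x j)
    (hinj : ∀ i ∈ S, ∀ j ∈ S, x i = x j → i = j) :
    (∑ j ∈ S, t j) + Z.card ≤ n := by
  classical
  have key : ∀ j ∈ S, ∀ j' ∈ S, ∀ i i' : ℕ, i ≤ i' → i' < t j' →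
      (π ^ i) (x j) = (π ^ i') (x j') → i = i' ∧ j = j' := by
    intro j hj j' hj' i i' hii hi' he
    have h1 : x j = (π ^ (i' - i)) (x j') := by
      apply (π ^ i).injective
      rw [he, ← Equiv.Perm.mul_apply, ← pow_add, Nat.add_sub_cancel' hii]
    rcases Nat.eq_zero_or_pos (i' - i) with h0 | h0
    · rw [h0, pow_zero, Equiv.Perm.one_apply] at h1
      exact ⟨by omega, hinj j hj j' hj' h1⟩
    · exact absurd h1.symm (ht j' hj' j hj (i' - i) h0 (by omega))
  have hinj2 : Set.InjOn (fun p : (_ : ℕ) × ℕ => (π ^ p.2) (x p.1))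
      (S.sigma (fun j => Finset.range (t j)) : Finset ((_ : ℕ) × ℕ)) := by
    rintro ⟨j, i⟩ h1 ⟨j', i'⟩ h2 he
    rw [Finset.mem_coe, Finset.mem_sigma, Finset.mem_range] at h1 h2
    simp only at h1 h2 he
    rcases le_total i i' with h | h
    · obtain ⟨rfl, rfl⟩ := key j h1.1 j' h2.1 i i' h h2.2 he
      rfl
    · obtain ⟨rfl, rfl⟩ := key j' h2.1 j h1.1 i' i h h1.2 he.symm
      rfl
  have hcard : ((S.sigma (fun j => Finset.range (t j))).image
      (fun p : (_ : ℕ) × ℕ => (π ^ p.2) (x p.1))).card = ∑ j ∈ S, t j := by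
    rw [Finset.card_image_of_injOn hinj2, Finset.card_sigma]
    simp
  have hfix : ∀ (i : ℕ), ∀ z ∈ Z, (π ^ i) z = z := by
    intro i z hz
    induction i with
    | zero => rfl
    | succ i ih => rw [pow_succ, Equiv.Perm.mul_apply, hZ z hz, ih]
  have hdisj : Disjoint ((S.sigma (fun j => Finset.range (t j))).image
      (fun p : (_ : ℕ) × ℕ => (π ^ p.2) (x p.1))) Z := by
    rw [Finset.disjoint_left]
    intro z hz hzZ
    rw [Finset.mem_image] at hz
    obtain ⟨⟨j, i⟩, hji, he⟩ := hz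
    rw [Finset.mem_sigma] at hji
    simp only at hji he
    apply hxZ j hji.1
    have : x j = z := by
      apply (π ^ i).injective
      rw [he, hfix i z hzZ]
    rw [this]
    exact hzZ
  rw [← hcard, ← Finset.card_union_of_disjoint hdisj]
  refine (Finset.card_le_univ _).trans ?_
  rw [ZMod.card]

end Pool.Agent.Helper85.Don
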