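import Pool.Agent.Helper85.Don.Defs
import Pool.Agent.Helper85.Don.P_return_sum

set_option autoImplicit false

namespace Pool.Agent.Helper85.Don



theorem gtwo7 {n : ℕ} [NeZero n] {π : Equiv.Perm (ZMod n)} {d : ZMod n}
    {B : Finset (ZMod n) → ℕ → Prop} {g M : ℕ} (w : W π d B g M) (hM : 6 ≤ M)
    (hfix : π (d + d) = d + d) (h2 : d + d = -(g : ZMod n)) (E : Finset (ZMod n))
    (hE : ∀ j : ℕ, j + 2 < M → -(j • d) ∈ E) (hdE : d ∉ E) (hddE : d + d ∉ E) :
    ∃ (m : ℕ) (y : ZMod n), 1 ≤ m ∧ y ≠ 0 ∧ (π ^ m) y ∈ E ∧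
      (y + d = 0 ∨ (π ^ m) (y + d) ∉ E) ∧ m + y.val ≤ n - 1 := by
  have hg := w.hg
  have hn := w.hn
  have hgn : g < n := by rw [hn]; nlinarith
  have hn0 : n ≠ 0 := NeZero.ne n
  have hgmem : (g : ZMod n) ∈ AddSubgroup.zmultiples d := by
    rw [w.mem, ZMod.val_natCast, Nat.mod_eq_of_lt hgn]
  have hz : AddSubgroup.zmultiples d = AddSubgroup.zmultiples (g : ZMod n) := by
    apply le_antisymm
    · intro x hx
      rw [w.mem] at hx
      obtain ⟨k, hk⟩ := hx
      rw [AddSubgroup.mem_zmultiples_iff]
      refine ⟨k, ?_⟩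
      have h1 : x = ((x.val : ℕ) : ZMod n) := (ZMod.natCast_zmod_val x).symm
      rw [h1, hk]
      push_cast
      simp [mul_comm]
    · rw [AddSubgroup.zmultiples_le_of_mem hgmem |> fun h => (show _ ≤ _ ↔ True from ⟨fun _ => trivial, fun _ => h⟩)]
      trivial
  have hord : addOrderOf d = M := by
    rw [← Nat.card_zmultiples, hz, Nat.card_zmultiples, ZMod.addOrderOf_coe g hn0, hn,
      Nat.gcd_eq_right (Dvd.intro M rfl)]
    exact Nat.mul_div_cancel_left M (by omega)
  have hinj : ∀ i j : ℕ, i < M → j < M → -(i • d) = -(j • d) → i = j := by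
    intro i j hi hj hij
    have h1 := neg_inj.1 hij
    exact nsmul_injOn_Iio_addOrderOf (by rw [hord]; exact hi) (by rw [hord]; exact hj) h1
  have hMd : M • d = 0 := by rw [← hord]; exact addOrderOf_nsmul_eq_zero d
  have hneg2 : d + d = -((M - 2) • d) := by
    have h1 : (M - 2) • d + (d + d) = 0 := by
      have h3 : (M - 2) • d + (d + d) = ((M - 2) + 2) • d := by
        rw [add_nsmul, two_nsmul]
      rw [h3, Nat.sub_add_cancel (by omega), hMd]
    exact (neg_eq_of_add_eq_zero_right h1).symm
  by_contra hcon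
  have H : ∀ (m : ℕ) (y : ZMod n), 1 ≤ m → y ≠ 0 → (π ^ m) y ∈ E →
      (y + d = 0 ∨ (π ^ m) (y + d) ∉ E) → n ≤ m + y.val := by
    intro m y h1 h2 h3 h4
    by_contra h5
    exact hcon ⟨m, y, h1, h2, h3, h4, by omega⟩
  have hne0 : ∀ j : ℕ, 1 ≤ j → j < M → -(j • d) ≠ 0 := by
    intro j h1 h2 h3
    have h4 : j = 0 := hinj j 0 h2 (by omega) (by rw [h3]; simp)
    omega
  have key : ∀ j : ℕ, 1 ≤ j → j ≤ M - 3 → ∀ m : ℕ, 1 ≤ m → (π ^ m) (-(j • d)) ∈ E → 2 * g ≤ m := by
    intro j
    induction j with
    | zero => intro h1; omega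
    | succ j ih =>
      intro _ hj m hm hE'
      have hy0 : -((j + 1) • d) ≠ 0 := hne0 (j + 1) (by omega) (by omega)
      have hyd : -((j + 1) • d) + d = -(j • d) := by
        rw [add_nsmul, one_nsmul]; abel
      -- the bound from H
      have hbound : n ≤ m + (-((j + 1) • d)).val → 2 * g ≤ m := by
        intro hle
        have hK : -((j + 1) • d) ∈ AddSubgroup.zmultiples d :=
          AddSubgroup.neg_mem _ (AddSubgroup.nsmul_mem _ (AddSubgroup.mem_zmultiples d) _)
        rw [w.mem] at hK
        obtain ⟨q, hq⟩ := hK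
        have hlt : (-((j + 1) • d)).val < n := ZMod.val_lt _
        have hqM : q < M := by
          rw [hq, hn] at hlt
          exact Nat.lt_of_mul_lt_mul_left hlt
        have hqM1 : q ≠ M - 1 := by
          intro hqe
          have h5 : -((j + 1) • d) = -(g : ZMod n) := by
            have h6 : -((j + 1) • d) = (((-((j + 1) • d)).val : ℕ) : ZMod n) :=
              (ZMod.natCast_zmod_val _).symm
            rw [h6, hq, hqe]
            have h7 : g * (M - 1) = n - g := by
              rw [Nat.mul_sub, mul_one, hn]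
            rw [h7, Nat.cast_sub hgn.le, ZMod.natCast_self, zero_sub]
          rw [← h2, hneg2] at h5
          have h8 := hinj (j + 1) (M - 2) (by omega) (by omega) h5
          omega
        have hq2 : q ≤ M - 2 := by omega
        have h9 : g * q ≤ g * (M - 2) := Nat.mul_le_mul_left g hq2
        have h10 : g * (M - 2) + 2 * g = n := by
          rw [Nat.mul_sub, hn]
          have : g * 2 ≤ g * M := Nat.mul_le_mul_left g (by omega)
          omega
        rw [hq] at hle
        omega
      rcases Nat.eq_zero_or_pos j with hj0 | hj0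
      · subst hj0
        apply hbound
        apply H m _ hm hy0 hE'
        left
        rw [hyd, zero_nsmul, neg_zero]
      · by_cases hmem : (π ^ m) (-(j • d)) ∈ E
        · exact ih hj0 (by omega) m hm hmem
        · apply hbound
          apply H m _ hm hy0 hE'
          right
          rw [hyd]
          exact hmem
  have hsum := return_sum π (Finset.Icc 1 (M - 3)) (fun j => -(j • d)) (fun _ => 2 * g) {0}
    (by
      intro z hz'
      rw [Finset.mem_singleton] at hz'
      rw [hz']
      exact w.zero)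
    (by
      intro j hj
      rw [Finset.mem_Icc] at hj
      rw [Finset.mem_singleton]
      exact hne0 j hj.1 (by omega))
    (by
      intro i hi j hj m hm1 hm2 heq
      rw [Finset.mem_Icc] at hi hj
      have h5 := key i hi.1 hi.2 m hm1 (by
        have h6 : (π ^ m) (-(i • d)) = -(j • d) := heq
        rw [h6]
        exact hE j (by omega))
      omega)
    (by
      intro i hi j hj hij
      rw [Finset.mem_Icc] at hi hj
      exact hinj i j (by omega) (by omega) hij)
  rw [Finset.sum_const, Nat.card_Icc, Finset.card_singleton, smul_eq_mul, hn] at hsum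
  have h11 : M - 3 + 1 - 1 = M - 3 := by omega
  rw [h11] at hsum
  have h12 : (M - 3) * (2 * g) = g * (2 * (M - 3)) := by ring
  have h13 : g * M ≤ g * (2 * (M - 3)) := Nat.mul_le_mul_left g (by omega)
  omega

end Pool.Agent.Helper85.Don
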