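import Pool.Agent.Helper85.Don.Defs
import Pool.Agent.Helper85.Don.P_red_step
import Pool.Agent.Helper85.Don.P_red_in_K
import Pool.Agent.Helper85.Don.P_arc_count
import Pool.Agent.Helper85.Don.P_only_m1
import Pool.Agent.Helper85.Don.P_gtwo
import Pool.Agent.Helper85.Don.P_two_steps

set_option autoImplicit false

namespace Pool.Agent.Helper85.Don



theorem cz_sh_card {n : ℕ} [NeZero n] (T : Finset (ZMod n)) (y : ZMod n) :
    (sh T y).card = T.card := by
  have : sh T y = T.map (Equiv.subRight y).toEmbedding := by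
    ext x
    simp only [sh, Finset.mem_filter, Finset.mem_univ, true_and, Finset.mem_map,
      Equiv.coe_toEmbedding, Equiv.subRight_apply]
    constructor
    · intro h
      exact ⟨x + y, h, by ring⟩
    · rintro ⟨a, ha, rfl⟩
      simpa using ha
  rw [this, Finset.card_map]

theorem cz_mem_sh {n : ℕ} [NeZero n] (T : Finset (ZMod n)) (x y : ZMod n) :
    x ∈ sh T y ↔ x + y ∈ T := by
  simp [sh]

theorem cz_mem_re {n : ℕ} [NeZero n] (π : Equiv.Perm (ZMod n)) (T : Finset (ZMod n)) (x : ZMod n) :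
    x ∈ re π T ↔ x ≠ 0 ∧ π x ∈ T := by
  simp [re]

theorem cz_val_neg {n : ℕ} [NeZero n] (k : ℕ) (h0 : 0 < k) (hk : k < n) :
    (-(k : ZMod n)).val = n - k := by
  rw [ZMod.neg_val, ZMod.val_natCast_of_lt hk, if_neg]
  intro h
  have := congrArg ZMod.val h
  rw [ZMod.val_natCast_of_lt hk, ZMod.val_zero] at this
  omega

theorem cz_eq_neg {n : ℕ} [NeZero n] (k : ℕ) (hk : k ≤ n) (y : ZMod n) (h : y.val = n - k) :
    y = -(k : ZMod n) := by
  rw [← ZMod.natCast_zmod_val y, h, Nat.cast_sub hk, ZMod.natCast_self, zero_sub]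

theorem cz_order {n : ℕ} [NeZero n] {π : Equiv.Perm (ZMod n)} {d : ZMod n}
    {B : Finset (ZMod n) → ℕ → Prop} {g M : ℕ} (w : W π d B g M) : addOrderOf d = M := by
  have hn := w.hn
  have hM := w.hM
  have hg := w.hg
  have hgn : g < n := by rw [hn]; nlinarith
  rw [addOrderOf_eq_iff (by omega)]
  constructor
  · have h1 : g ∣ d.val := (w.mem d).mp (AddSubgroup.mem_zmultiples d)
    obtain ⟨c, hc⟩ := h1
    rw [← ZMod.natCast_zmod_val d, hc, nsmul_eq_mul, ← Nat.cast_mul, ZMod.natCast_eq_zero_iff]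
    rw [hn]
    exact ⟨c, by ring⟩
  · intro m hm hm0 h0
    have h1 : (g : ZMod n) ∈ AddSubgroup.zmultiples d := by
      rw [w.mem, ZMod.val_natCast_of_lt hgn]
    obtain ⟨z, hz⟩ := AddSubgroup.mem_zmultiples_iff.mp h1
    have h2 : ((m * g : ℕ) : ZMod n) = 0 := by
      rw [Nat.cast_mul, ← hz, ← nsmul_eq_mul, smul_comm, h0, smul_zero]
    rw [ZMod.natCast_eq_zero_iff, hn, mul_comm m g] at h2
    have h3 := Nat.dvd_of_mul_dvd_mul_left (by omega) h2
    have := Nat.le_of_dvd hm0 h3
    omega

theorem cz_memK {n : ℕ} [NeZero n] {π : Equiv.Perm (ZMod n)} {d : ZMod n}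
    {B : Finset (ZMod n) → ℕ → Prop} {g M : ℕ} (w : W π d B g M) (x : ZMod n)
    (hx : x ∈ AddSubgroup.zmultiples d) : ∃ j < M, x = -(j • d) := by
  have h1 : -x ∈ AddSubgroup.zmultiples d := neg_mem hx
  have hfin : 0 < addOrderOf d := by rw [cz_order w]; have := w.hM; omega
  obtain ⟨z, hz⟩ := AddSubgroup.mem_zmultiples_iff.mp h1
  have hz2 : (z % (addOrderOf d : ℤ)) • d = -x := by rw [← hz]; exact mod_addOrderOf_zsmul d z
  have h3 : 0 ≤ z % (addOrderOf d : ℤ) := Int.emod_nonneg _ (by omega)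
  have h4 : z % (addOrderOf d : ℤ) < addOrderOf d := Int.emod_lt_of_pos _ (by omega)
  refine ⟨(z % (addOrderOf d : ℤ)).toNat, ?_, ?_⟩
  · rw [cz_order w] at h4 h3 ⊢
    omega
  · rw [← natCast_zsmul, Int.toNat_of_nonneg h3, hz2, neg_neg]

theorem caseA2 {n : ℕ} [NeZero n] {π : Equiv.Perm (ZMod n)} {d : ZMod n}
    {B : Finset (ZMod n) → ℕ → Prop} {g M : ℕ} (w : W π d B g M) (hM : 4 ≤ M)
    (hdg : d ≠ -(g : ZMod n))
    (k N : ℕ) (hk : M ∣ k) (hk2 : M ≤ k) (hN : (M + 1) * n ≤ N)
    (IH : ∀ (s : ℕ) (V : Finset (ZMod n)), 1 ≤ s → s ≤ M → V.card + s = k → B V (N - s * n))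
    (T : Finset (ZMod n)) (hT : T.card = k) (h0 : (0 : ZMod n) ∈ T)
    (hK0 : ∀ κ ∈ AddSubgroup.zmultiples d, κ ∈ T ↔ π κ ∈ AddSubgroup.zmultiples d)
    (hesc : ∃ κ ∈ AddSubgroup.zmultiples d, π κ ∉ AddSubgroup.zmultiples d) :
    B T (N - (g + 1)) := by
  by_contra hbad
  have hn := w.hn
  have hg := w.hg
  have hgn : g < n := by rw [hn]; nlinarith
  have h4g : 4 * g ≤ n := by rw [hn]; nlinarith
  have hN5 : 5 * n ≤ N := le_trans (Nat.mul_le_mul_right n (by omega)) hN
  have hord := cz_order w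
  have hdK : d ∈ AddSubgroup.zmultiples d := AddSubgroup.mem_zmultiples d
  have hdT : d ∈ T := by
    rw [hK0 d hdK, w.fix]; exact hdK
  -- FACT R
  have factR : ∀ h ∈ T, h ∈ AddSubgroup.zmultiples d → h + d ∉ T → h = -(g : ZMod n) := by
    intro h hhT hhK hhd
    obtain ⟨r1, r2⟩ := red_step π d B w.cost w.zero T h hhT hhd
    have hB1 := r2 _ (IH 1 _ le_rfl (by omega) (by omega))
    have hlt : h.val < n := ZMod.val_lt h
    have hge : n ≤ h.val + g + 1 := by
      by_contra hc
      push Not at hc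
      exact hbad (w.cost.mono _ _ _ hB1 (by omega))
    apply cz_eq_neg g hgn.le
    have hdiv : g ∣ n - h.val := by
      apply Nat.dvd_sub
      · rw [hn]; exact dvd_mul_right g M
      · exact (w.mem h).mp hhK
    obtain ⟨c, hc⟩ := hdiv
    have hc1 : c = 1 := by
      have c0 : c ≠ 0 := by
        rintro rfl
        simp at hc
        omega
      by_contra hne
      have : 2 ≤ c := by omega
      have : g * 2 ≤ g * c := Nat.mul_le_mul_left g this
      omega
    rw [hc1] at hc
    omega
  obtain ⟨κ, hκK, hκ⟩ := hesc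
  have hκT : κ ∉ T := fun h => hκ ((hK0 κ hκK).mp h)
  obtain ⟨h, hhT, hhK, hhd, -⟩ := red_in_K w T 0 κ h0 (zero_mem _) hκT hκK
  have hhg := factR h hhT hhK hhd
  rw [hhg] at hhT hhd
  have hddT : d + d ∈ T := by
    by_contra hc
    exact hdg (factR d hdT hdK hc)
  have hddK : d + d ∈ AddSubgroup.zmultiples d := add_mem hdK hdK
  have h2d : d + d ≠ 0 := by
    intro hc
    have : (2 : ℕ) • d = 0 := by rw [two_nsmul]; exact hc
    have := addOrderOf_dvd_of_nsmul_eq_zero this
    rw [hord] at this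
    have := Nat.le_of_dvd (by norm_num) this
    omega
  have h3d : d + d + d ≠ 0 := by
    intro hc
    have : (3 : ℕ) • d = 0 := by rw [← hc]; abel
    have := addOrderOf_dvd_of_nsmul_eq_zero this
    rw [hord] at this
    have := Nat.le_of_dvd (by norm_num) this
    omega
  have hMd : M • d = 0 := by rw [← hord]; exact addOrderOf_nsmul_eq_zero d
  have hM1 : -((M - 1) • d) = d := by
    have : (M - 1) • d + d = 0 := by
      rw [← succ_nsmul]
      have : M - 1 + 1 = M := by omega
      rw [this, hMd]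
    rw [neg_eq_iff_add_eq_zero]
    exact this
  have hM2 : -((M - 2) • d) = d + d := by
    have : (M - 2) • d + (d + d) = 0 := by
      rw [← add_assoc, ← succ_nsmul, ← succ_nsmul]
      have : M - 2 + 1 + 1 = M := by omega
      rw [this, hMd]
    rw [neg_eq_iff_add_eq_zero]
    exact this
  have hddne : π (d + d) ≠ d := by
    intro hc
    have : π (d + d) = π d := by rw [hc, w.fix]
    have := π.injective this
    exact w.dne (by simpa using this)
  have hpdd : π (d + d) ∈ AddSubgroup.zmultiples d := (hK0 _ hddK).mp hddT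
  -- T1
  obtain ⟨c1, b1⟩ := red_step π d B w.cost w.zero T _ hhT hhd
  rw [cz_val_neg g (by omega) hgn] at b1
  set T1 := re π (sh T (-(g : ZMod n))) with hT1
  have nb1 : ¬ B T1 (N - n - 2) := by
    intro hc
    exact hbad (w.cost.mono _ _ _ (b1 _ hc) (by omega))
  have vm1 : (-1 : ZMod n).val = n - 1 := by
    have := cz_val_neg (n := n) 1 one_pos (by omega)
    simpa using this
  have vm2 : (-2 : ZMod n).val = n - 2 := by
    have := cz_val_neg (n := n) 2 two_pos (by omega)
    simpa using this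
  have red1 : ∀ y ∈ T1, y + d ∉ T1 → y = -2 ∨ y = -1 := by
    intro y hy hyd
    obtain ⟨r1, r2⟩ := red_step π d B w.cost w.zero T1 y hy hyd
    have hB1 := r2 _ (IH 2 _ (by omega) (by omega) (by omega))
    have hlt : y.val < n := ZMod.val_lt y
    have hge : n ≤ y.val + 2 := by
      by_contra hc
      push Not at hc
      exact nb1 (w.cost.mono _ _ _ hB1 (by omega))
    rcases (by omega : y.val = n - 2 ∨ y.val = n - 1) with h | h
    · left
      have := cz_eq_neg 2 (by omega) y h
      simpa using this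
    · right
      have := cz_eq_neg 1 (by omega) y h
      simpa using this
  -- elements of K
  by_cases hcase : (-2 : ZMod n) ∈ T1 ∧ (-2 : ZMod n) + d ∉ T1
  · -- case (b)
    obtain ⟨hm2, hm2d⟩ := hcase
    obtain ⟨c2, b2⟩ := red_step π d B w.cost w.zero T1 _ hm2 hm2d
    rw [vm2] at b2
    set T2 := re π (sh T1 (-2)) with hT2
    have nb2 : ¬ B T2 (N - 2 * n - 1) := by
      intro hc
      exact nb1 (w.cost.mono _ _ _ (b2 _ hc) (by omega))
    have red2 : ∀ y ∈ T2, y + d ∉ T2 → y = -1 := by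
      apply only_m1 w T2 (N - 3 * n)
      · intro V hV
        exact IH 3 V (by omega) (by omega) (by omega)
      · intro hc
        exact nb2 (w.cost.mono _ _ _ hc (by omega))
    have hEcl : ∀ x ∈ sh T2 (-1), x ≠ 0 → x + d ∈ sh T2 (-1) := by
      intro x hx hx0
      rw [cz_mem_sh] at hx ⊢
      by_contra hc
      have := red2 (x + -1) hx (by
        intro h5
        apply hc
        rwa [show x + d + -1 = x + -1 + d by ring])
      apply hx0
      have h6 : x + -1 = 0 + -1 := by rw [this, zero_add]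
      exact add_right_cancel h6
    have hEc : (sh T2 (-1)).card = T2.card := cz_sh_card T2 (-1)
    have harc := arc_count w (sh T2 (-1)) 2 (by omega) (by omega) hEcl
      (by rw [hEc]; have : T2.card + 2 = k := by omega
          rw [this]; exact hk)
    have hE0 : (0 : ZMod n) ∈ sh T2 (-1) := by
      have := (harc 0 (by omega)).mpr (by omega)
      simpa using this
    have hEd : d ∉ sh T2 (-1) := by
      intro hc
      have := (harc (M - 1) (by omega)).mp (by rwa [hM1])
      omega
    have hEdd : d + d ∉ sh T2 (-1) := by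
      intro hc
      have := (harc (M - 2) (by omega)).mp (by rwa [hM2])
      omega
    have hm1 : (-1 : ZMod n) ∈ T2 := by
      rw [cz_mem_sh, zero_add] at hE0
      exact hE0
    have hm1d : (-1 : ZMod n) + d ∉ T2 := by
      rw [cz_mem_sh, add_comm] at hEd
      exact hEd
    obtain ⟨c3, b3⟩ := red_step π d B w.cost w.zero T2 _ hm1 hm1d
    rw [vm1] at b3
    set T3 := re π (sh T2 (-1)) with hT3
    have nb3 : ¬ B T3 (N - 3 * n - 1) := by
      intro hc
      exact nb2 (w.cost.mono _ _ _ (b3 _ hc) (by omega))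
    have hT3K : ∀ x ∈ T3, x ∉ AddSubgroup.zmultiples d := by
      intro x hx hxK
      have h0n : (0 : ZMod n) ∉ T3 := by
        rw [hT3, cz_mem_re]; simp
      obtain ⟨h', hh1, hh2, hh3, hh4⟩ := red_in_K w T3 x 0 hx hxK h0n (zero_mem _)
      obtain ⟨r1, r2⟩ := red_step π d B w.cost w.zero T3 h' hh1 hh3
      have hB1 := r2 _ (IH 4 _ (by omega) hM (by omega))
      exact nb3 (w.cost.mono _ _ _ hB1 (by omega))
    have hK2 : ∀ κ ∈ AddSubgroup.zmultiples d, κ ≠ 0 → π κ ∈ AddSubgroup.zmultiples d →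
        π κ = d ∨ π κ = d + d := by
      intro κ hκ hκ0 hπκ
      have h5 : π κ ∉ sh T2 (-1) := by
        intro hc
        exact hT3K κ (by rw [hT3, cz_mem_re]; exact ⟨hκ0, hc⟩) hκ
      obtain ⟨j, hj, hj2⟩ := cz_memK w (π κ) hπκ
      have h6 : ¬ (j + 2 < M) := by
        intro hc
        apply h5
        rw [hj2]
        exact (harc j hj).mpr hc
      rcases (by omega : j = M - 1 ∨ j = M - 2) with h | h
      · left; rw [hj2, h, hM1]
      · right; rw [hj2, h, hM2]
    have hfix2 : π (d + d) = d + d := by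
      rcases hK2 (d + d) hddK h2d hpdd with h | h
      · exact absurd h hddne
      · exact h
    have h3dK : d + d + d ∈ AddSubgroup.zmultiples d := add_mem hddK hdK
    have h3T : d + d + d ∉ T := by
      intro hc
      rcases hK2 (d + d + d) h3dK h3d ((hK0 _ h3dK).mp hc) with h | h
      · have : d + d + d = d := π.injective (by rw [h, w.fix])
        apply h2d
        have h7 : d + d + d = 0 + d := by rw [this, zero_add]
        exact add_right_cancel h7
      · have : d + d + d = d + d := π.injective (by rw [h, hfix2])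
        exact w.dne (by simpa using this)
    have h2g := factR (d + d) hddT hddK h3T
    obtain ⟨m, y, hm, hy0, hyE, hyd, hmy⟩ := gtwo w hM hfix2 h2g (sh T2 (-1))
      (fun j hj => (harc j (by omega)).mpr hj) hEd hEdd
    obtain ⟨V, hV1, hV2⟩ := two_steps w (sh T2 (-1)) hE0 hEd (N - 4 * n) m y hm hy0 hyE hyd hmy
    have hBV := hV2 _ (IH 4 V (by omega) hM (by omega))
    have hBT2 := w.cost.rot T2 (-1) _ hBV
    rw [vm1] at hBT2
    exact nb2 (w.cost.mono _ _ _ hBT2 (by omega))
  · -- case (a)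
    have red1' : ∀ y ∈ T1, y + d ∉ T1 → y = -1 := by
      intro y hy hyd
      rcases red1 y hy hyd with h | h
      · exact absurd ⟨h ▸ hy, h ▸ hyd⟩ hcase
      · exact h
    have hEcl : ∀ x ∈ sh T1 (-1), x ≠ 0 → x + d ∈ sh T1 (-1) := by
      intro x hx hx0
      rw [cz_mem_sh] at hx ⊢
      by_contra hc
      have := red1' (x + -1) hx (by
        intro h5
        apply hc
        rwa [show x + d + -1 = x + -1 + d by ring])
      apply hx0
      have h6 : x + -1 = 0 + -1 := by rw [this, zero_add]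
      exact add_right_cancel h6
    have hEc : (sh T1 (-1)).card = T1.card := cz_sh_card T1 (-1)
    have harc := arc_count w (sh T1 (-1)) 1 (by omega) (by omega) hEcl
      (by rw [hEc]; have : T1.card + 1 = k := by omega
          rw [this]; exact hk)
    have hE0 : (0 : ZMod n) ∈ sh T1 (-1) := by
      have := (harc 0 (by omega)).mpr (by omega)
      simpa using this
    have hEd : d ∉ sh T1 (-1) := by
      intro hc
      have := (harc (M - 1) (by omega)).mp (by rwa [hM1])
      omega
    have hm1 : (-1 : ZMod n) ∈ T1 := by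
      rw [cz_mem_sh, zero_add] at hE0
      exact hE0
    have hm1d : (-1 : ZMod n) + d ∉ T1 := by
      rw [cz_mem_sh, add_comm] at hEd
      exact hEd
    obtain ⟨c2, b2⟩ := red_step π d B w.cost w.zero T1 _ hm1 hm1d
    rw [vm1] at b2
    set T2 := re π (sh T1 (-1)) with hT2
    have nb2 : ¬ B T2 (N - 2 * n - 2) := by
      intro hc
      exact nb1 (w.cost.mono _ _ _ (b2 _ hc) (by omega))
    have hT2K : ∀ x ∈ T2, x ∉ AddSubgroup.zmultiples d := by
      intro x hx hxK
      have h0n : (0 : ZMod n) ∉ T2 := by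
        rw [hT2, cz_mem_re]; simp
      obtain ⟨h', hh1, hh2, hh3, hh4⟩ := red_in_K w T2 x 0 hx hxK h0n (zero_mem _)
      obtain ⟨r1, r2⟩ := red_step π d B w.cost w.zero T2 h' hh1 hh3
      have hB1 := r2 _ (IH 3 _ (by omega) (by omega) (by omega))
      exact nb2 (w.cost.mono _ _ _ hB1 (by omega))
    obtain ⟨j, hj, hj2⟩ := cz_memK w (π (d + d)) hpdd
    have hjM : j ≠ M - 1 := by
      rintro rfl
      exact hddne (by rw [hj2, hM1])
    have hin : π (d + d) ∈ sh T1 (-1) := by
      rw [hj2]
      exact (harc j hj).mpr (by omega)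
    exact hT2K (d + d) (by rw [hT2, cz_mem_re]; exact ⟨h2d, hin⟩) hddK

end Pool.Agent.Helper85.Don
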