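import Pool.Agent.Helper85.Don.Defs
import Pool.Agent.Helper85.Don.P_return_sum

set_option autoImplicit false

namespace Pool.Agent.Helper85.Don



theorem gprime {n : ℕ} [NeZero n] {π : Equiv.Perm (ZMod n)} {d : ZMod n}
    {B : Finset (ZMod n) → ℕ → Prop} {g M : ℕ} (w : W π d B g M) (hM : 5 ≤ M)
    (hdg : d ≠ (g : ZMod n)) (hdg' : d ≠ -(g : ZMod n)) (E : Finset (ZMod n))
    (hE : ∀ j : ℕ, j + 1 < M → -(j • d) ∈ E) (hdE : d ∉ E) :
    ∃ (m : ℕ) (y : ZMod n), 1 ≤ m ∧ y ≠ 0 ∧ (π ^ m) y ∈ E ∧
      (y + d = 0 ∨ (π ^ m) (y + d) ∉ E) ∧ m + y.val ≤ n - 1 := by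
  have hn := w.hn
  have hg := w.hg
  have hg0 : 0 < g := by omega
  have hgn : g < n := by rw [hn]; nlinarith
  have hn0 : 0 < n := by omega
  -- δ
  obtain ⟨δ, hδ⟩ := (w.mem d).1 (AddSubgroup.mem_zmultiples d)
  have hδM : δ < M := by
    have h1 := ZMod.val_lt d
    rw [hδ, hn] at h1
    exact lt_of_mul_lt_mul_left h1 (Nat.zero_le g)
  have hδ0 : δ ≠ 0 := by
    rintro rfl
    rw [mul_zero] at hδ
    exact w.dne ((ZMod.val_eq_zero d).1 hδ)
  have hδ1 : δ ≠ 1 := by
    rintro rfl
    rw [mul_one] at hδ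
    apply hdg
    rw [← hδ, ZMod.natCast_zmod_val]
  have hd : d = ((g * δ : ℕ) : ZMod n) := by rw [← hδ, ZMod.natCast_zmod_val]
  -- J
  have hgval : ((g : ZMod n)).val = g := ZMod.val_natCast_of_lt hgn
  have hgK : (g : ZMod n) ∈ AddSubgroup.zmultiples d := by
    rw [w.mem, hgval]
  have hMd : (M : ℕ) • d = 0 := by
    rw [hd, nsmul_eq_mul, ← Nat.cast_mul]
    have : M * (g * δ) = n * δ := by rw [hn]; ring
    rw [this, Nat.cast_mul, ZMod.natCast_self, zero_mul]
  obtain ⟨z, hz⟩ := AddSubgroup.mem_zmultiples_iff.1 hgK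
  obtain ⟨J, hJM, hJ⟩ : ∃ J : ℕ, J < M ∧ J • d = (g : ZMod n) := by
    have hM0 : (0 : ℤ) < M := by exact_mod_cast (by omega : 0 < M)
    have h1 := Int.emod_nonneg z hM0.ne'
    have h2 := Int.emod_lt_of_pos z hM0
    refine ⟨(z % M).toNat, by omega, ?_⟩
    have h3 : (((z % M).toNat : ℕ) : ℤ) • d = (z % M) • d := by rw [Int.toNat_of_nonneg h1]
    rw [← natCast_zsmul, h3, ← hz]
    conv_rhs => rw [← Int.emod_add_mul_ediv z M]
    rw [add_smul, mul_comm, mul_smul, natCast_zsmul, hMd, smul_zero, add_zero]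
  have hord : ∀ j : ℕ, j • d = 0 → M ∣ j := by
    intro j hj
    have h1 : j • (g : ZMod n) = 0 := by
      rw [← hJ, smul_comm, hj, smul_zero]
    rw [nsmul_eq_mul, ← Nat.cast_mul, ZMod.natCast_eq_zero_iff, hn, mul_comm g M] at h1
    exact Nat.dvd_of_mul_dvd_mul_right hg0 h1
  have hJ0 : J ≠ 0 := by
    rintro rfl
    rw [zero_smul] at hJ
    have := hgval
    rw [← hJ, ZMod.val_zero] at this
    omega
  have hJ1 : J ≠ 1 := by
    rintro rfl
    rw [one_smul] at hJ
    exact hdg hJ
  have hJM1 : J ≠ M - 1 := by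
    intro h
    apply hdg'
    rw [← hJ, h]
    have h1 : (M - 1) • d + d = 0 := by
      rw [← succ_nsmul, Nat.sub_add_cancel (by omega), hMd]
    exact (neg_eq_of_add_eq_zero_right h1).symm
  by_contra hcon
  have H : ∀ (m : ℕ) (y : ZMod n), 1 ≤ m → y ≠ 0 → (π ^ m) y ∈ E →
      (y + d = 0 ∨ (π ^ m) (y + d) ∉ E) → n ≤ m + y.val := by
    intro m y h1 h2 h3 h4
    by_contra h5
    exact hcon ⟨m, y, h1, h2, h3, h4, by omega⟩
  have hne : ∀ j : ℕ, 1 ≤ j → j < M → -(j • d) ≠ 0 := by
    intro j h1 h2 h3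
    have := Nat.le_of_dvd (by omega) (hord j (neg_eq_zero.1 h3))
    omega
  have key : ∀ m : ℕ, 1 ≤ m → ∀ j : ℕ, 1 ≤ j → (π ^ m) (-(j • d)) ∈ E →
      ∃ j', 1 ≤ j' ∧ j' ≤ j ∧ (π ^ m) (-(j' • d)) ∈ E ∧
        (-(j' • d) + d = 0 ∨ (π ^ m) (-(j' • d) + d) ∉ E) := by
    intro m hm j
    induction j with
    | zero => intro h; omega
    | succ j ih =>
      intro h1 h2
      by_cases hj : j = 0
      · subst hj
        refine ⟨1, le_rfl, le_rfl, h2, Or.inl ?_⟩
        rw [one_smul, neg_add_cancel]
      · have he : -((j + 1) • d) + d = -(j • d) := by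
          rw [succ_nsmul]; abel
        by_cases h3 : (π ^ m) (-(j • d)) ∈ E
        · obtain ⟨j', a1, a2, a3, a4⟩ := ih (by omega) h3
          exact ⟨j', a1, by omega, a3, a4⟩
        · exact ⟨j + 1, h1, le_rfl, h2, Or.inr (by rw [he]; exact h3)⟩
  have hvalK : ∀ j : ℕ, g ∣ (-(j • d)).val := by
    intro j
    rw [← w.mem]
    exact neg_mem (AddSubgroup.nsmul_mem_zmultiples d j)
  -- the main bounds
  have bound : ∀ m : ℕ, 1 ≤ m → ∀ j : ℕ, 1 ≤ j → j + 1 < M → (π ^ m) (-(j • d)) ∈ E →
      g ≤ m ∧ (j < J → 2 * g ≤ m) ∧ (j = 1 → δ * g ≤ m) := by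
    intro m hm j hj1 hj2 hmem
    obtain ⟨j', b1, b2, b3, b4⟩ := key m hm j hj1 hmem
    have hb := H m _ hm (hne j' b1 (by omega)) b3 b4
    obtain ⟨a, ha⟩ := hvalK j'
    have hlt := ZMod.val_lt (-(j' • d))
    rw [ha, hn] at hlt
    have haM : a < M := lt_of_mul_lt_mul_left hlt (Nat.zero_le g)
    rw [ha, hn] at hb
    refine ⟨?_, ?_, ?_⟩
    · have : g * a + g ≤ g * M := by
        calc g * a + g = g * (a + 1) := by ring
          _ ≤ g * M := Nat.mul_le_mul_left g haM
      omega
    · intro hjJ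
      have haM1 : a ≠ M - 1 := by
        intro h
        have h1 : -(j' • d) = -(g : ZMod n) := by
          rw [← ZMod.natCast_zmod_val (-(j' • d)), ha, h]
          have h2 : g * (M - 1) + g = n := by
            rw [hn]
            obtain ⟨k, rfl⟩ : ∃ k, M = k + 1 := ⟨M - 1, by omega⟩
            rw [Nat.add_sub_cancel]; ring
          have h3 : ((g * (M - 1) : ℕ) : ZMod n) + (g : ZMod n) = 0 := by
            rw [← Nat.cast_add, h2, ZMod.natCast_self]
          exact eq_neg_of_add_eq_zero_left h3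
        have h4 : j' • d = J • d := by rw [hJ]; exact neg_injective h1
        have h5 : (J - j') • d = 0 := by
          have h6 : (J - j') • d + j' • d = J • d := by
            rw [← add_smul, Nat.sub_add_cancel (by omega)]
          rw [h4] at h6
          exact add_eq_right.1 h6
        have := Nat.le_of_dvd (by omega) (hord _ h5)
        omega
      have : g * a + 2 * g ≤ g * M := by
        calc g * a + 2 * g = g * (a + 2) := by ring
          _ ≤ g * M := Nat.mul_le_mul_left g (by omega)
      omega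
    · intro hj
      have hj' : j' = 1 := by omega
      subst hj'
      have h1 : (-(1 • d)).val = n - d.val := by
        rw [one_smul]
        haveI : NeZero d := ⟨w.dne⟩
        exact ZMod.val_neg_of_ne_zero d
      rw [ha, hδ, hn] at h1
      have h2 : g * δ ≤ g * M := Nat.mul_le_mul_left g hδM.le
      have h3 : δ * g = g * δ := mul_comm _ _
      omega
  have hxE : ∀ j : ℕ, j + 1 < M → -(j • d) ∈ E := hE
  have hr := return_sum π (Finset.Icc 1 (M - 2)) (fun j => -(j • d))
    (fun j => g + (if j < J then g else 0) + (if j = 1 then (δ - 2) * g else 0)) {0, d}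
    (by
      intro z hz
      rw [Finset.mem_insert, Finset.mem_singleton] at hz
      rcases hz with rfl | rfl
      · exact w.zero
      · exact w.fix)
    (by
      intro j hj hmem
      rw [Finset.mem_Icc] at hj
      rw [Finset.mem_insert, Finset.mem_singleton] at hmem
      rcases hmem with h | h
      · exact hne j hj.1 (by omega) h
      · have h1 : (j + 1) • d = 0 := by
          rw [succ_nsmul]
          nth_rewrite 2 [← h]
          exact add_neg_cancel _
        have := Nat.le_of_dvd (by omega) (hord _ h1)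
        omega)
    (by
      intro i hi j hj m hm1 hm2 he
      rw [Finset.mem_Icc] at hi hj
      have hmem : (π ^ m) (-(i • d)) ∈ E := by
        have := hxE j (by omega)
        rw [he]
        exact this
      obtain ⟨c1, c2, c3⟩ := bound m hm1 i hi.1 (by omega) hmem
      have hδ2 : (δ - 2) * g + 2 * g = δ * g := by
        rw [← add_mul, Nat.sub_add_cancel (by omega)]
      by_cases hi1 : i = 1
      · have hiJ : i < J := by omega
        have := c3 hi1
        simp only [if_pos hiJ, if_pos hi1] at hm2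
        omega
      · by_cases hiJ : i < J
        · have := c2 hiJ
          simp only [if_pos hiJ, if_neg hi1] at hm2
          omega
        · simp only [if_neg hiJ, if_neg hi1] at hm2
          omega)
    (by
      intro i hi j hj he
      rw [Finset.mem_Icc] at hi hj
      have h1 : i • d = j • d := neg_injective he
      rcases le_total i j with h | h
      · have h2 : (j - i) • d = 0 := by
          have h6 : (j - i) • d + i • d = j • d := by
            rw [← add_smul, Nat.sub_add_cancel h]
          rw [← h1] at h6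
          exact add_eq_right.1 h6
        by_contra hij
        have := Nat.le_of_dvd (by omega) (hord _ h2)
        omega
      · have h2 : (i - j) • d = 0 := by
          have h6 : (i - j) • d + j • d = i • d := by
            rw [← add_smul, Nat.sub_add_cancel h]
          rw [h1] at h6
          exact add_eq_right.1 h6
        by_contra hij
        have := Nat.le_of_dvd (by omega) (hord _ h2)
        omega)
  have hcard : ({0, d} : Finset (ZMod n)).card = 2 := Finset.card_pair w.dne.symm
  have hs1 : ∑ j ∈ Finset.Icc 1 (M - 2), (if j < J then g else 0) = (J - 1) * g := by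
    rw [← Finset.sum_filter, Finset.sum_const, smul_eq_mul]
    congr 1
    have : (Finset.Icc 1 (M - 2)).filter (fun j => j < J) = Finset.Ico 1 J := by
      ext j
      simp only [Finset.mem_filter, Finset.mem_Icc, Finset.mem_Ico]
      omega
    rw [this, Nat.card_Ico]
  have hs2 : ∑ j ∈ Finset.Icc 1 (M - 2), (if j = 1 then (δ - 2) * g else 0) = (δ - 2) * g := by
    rw [Finset.sum_ite_eq']
    rw [if_pos (Finset.mem_Icc.2 ⟨le_rfl, by omega⟩)]
  rw [Finset.sum_add_distrib, Finset.sum_add_distrib, hs1, hs2, Finset.sum_const, Nat.card_Icc,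
    smul_eq_mul, hcard, hn] at hr
  have hδJ : 5 ≤ δ + J := by
    by_cases hJ3 : 3 ≤ J
    · omega
    · have hJ2 : J = 2 := by omega
      subst hJ2
      have h1 : ((2 * (g * δ) : ℕ) : ZMod n) = ((g : ℕ) : ZMod n) := by
        rw [Nat.cast_mul, ← hd, ← hJ, nsmul_eq_mul]
      rw [ZMod.natCast_eq_natCast_iff, hn] at h1
      have h2 : g * (2 * δ) ≡ g * 1 [MOD g * M] := by
        rw [mul_one]
        have : g * (2 * δ) = 2 * (g * δ) := by ring
        rw [this]
        exact h1
      have h3 : 2 * δ ≡ 1 [MOD M] := Nat.ModEq.mul_left_cancel' hg0.ne' h2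
      have h4 : (2 * δ) % M = 1 := by
        rw [h3, Nat.mod_eq_of_lt (by omega)]
      by_contra h5
      have h6 : δ = 2 := by omega
      subst h6
      rw [Nat.mod_eq_of_lt (by omega)] at h4
      omega
  have h7 : (M - 2 + 1 - 1) * g + (J - 1) * g + (δ - 2) * g = (M + (δ + J - 5)) * g := by
    rw [← add_mul, ← add_mul]
    congr 1
    omega
  rw [h7] at hr
  have h8 : M * g ≤ (M + (δ + J - 5)) * g := Nat.mul_le_mul_right g (by omega)
  rw [mul_comm g M] at hr
  omega

end Pool.Agent.Helper85.Don
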