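import Pool.Agent.Helper85.Don.Defs
import Pool.Agent.Helper85.Don.P_red_step
import Pool.Agent.Helper85.Don.P_red_in_K
import Pool.Agent.Helper85.Don.P_arc_count
import Pool.Agent.Helper85.Don.P_only_m1

set_option autoImplicit false

namespace Pool.Agent.Helper85.Don



theorem caseB2_card_sh {n : ℕ} [NeZero n] (T : Finset (ZMod n)) (y : ZMod n) :
    (sh T y).card = T.card := by
  refine Finset.card_bij (fun x _ => x + y) ?_ ?_ ?_
  · intro a ha
    simpa [sh] using ha
  · intro a _ b _ hab
    exact add_right_cancel hab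
  · intro b hb
    exact ⟨b - y, by simpa [sh] using hb, by ring⟩

theorem caseB2 {n : ℕ} [NeZero n] {π : Equiv.Perm (ZMod n)} {d : ZMod n}
    {B : Finset (ZMod n) → ℕ → Prop} {g M : ℕ} (w : W π d B g M)
    (k N : ℕ) (hk : M ∣ k) (hk2 : M ≤ k) (hN : (M + 1) * n ≤ N)
    (IH : ∀ (s : ℕ) (V : Finset (ZMod n)), 1 ≤ s → s ≤ M → V.card + s = k → B V (N - s * n))
    (p : ℕ) (hp : g = 2 * p)
    (hP : ∀ κ ∈ AddSubgroup.zmultiples d, p ∣ (π κ).val)
    (U : Finset (ZMod n)) (hU : U.card = k) (hKU : ∀ κ ∈ AddSubgroup.zmultiples d, κ ∈ U)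
    (x y : ZMod n) (hx : x + ((g - p : ℕ) : ZMod n) ∈ U) (hxK : x ∈ AddSubgroup.zmultiples d)
    (hy : y + ((g - p : ℕ) : ZMod n) ∉ U) (hyK : y ∈ AddSubgroup.zmultiples d) :
    B (sh U ((g - p : ℕ) : ZMod n)) (N - g) := by
  have hM := w.hM
  have hg := w.hg
  have hn := w.hn
  have hgp : g - p = p := by omega
  have hgn : g * 3 ≤ n := by rw [hn]; exact Nat.mul_le_mul_left g hM
  have hN4 : 4 * n ≤ N := le_trans (Nat.mul_le_mul_right n (by omega)) hN
  by_contra hB0
  set T0 := sh U ((g - p : ℕ) : ZMod n) with hT0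
  have hT0c : T0.card = k := by rw [hT0, caseB2_card_sh, hU]
  have hxT : x ∈ T0 := by simpa [hT0, sh] using hx
  have hyT : y ∉ T0 := by simpa [hT0, sh] using hy
  obtain ⟨h, hhT, hhK, hhd, hhv⟩ := red_in_K w T0 x y hxT hxK hyT hyK
  obtain ⟨c1, r1⟩ := red_step π d B w.cost w.zero T0 h hhT hhd
  set E0 := sh T0 h with hE0
  set T1 := re π E0 with hT1
  have hB1 := IH 1 T1 le_rfl (by omega) (by omega)
  have hhval : h.val = n - g := by
    by_contra hne
    apply hB0
    refine w.cost.mono T0 _ _ (r1 _ hB1) ?_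
    omega
  have nB1 : ¬ B T1 (N - n - 1) := by
    intro hb
    apply hB0
    refine w.cost.mono T0 _ _ (r1 _ hb) ?_
    omega
  have hm1 := only_m1 w T1 (N - 2 * n)
    (fun V hV => IH 2 V (by omega) (by omega) (by omega))
    (by
      intro hb
      apply nB1
      exact w.cost.mono T1 _ _ hb (by omega))
  set E1 := sh T1 (-1) with hE1
  have hmE1 : ∀ z : ZMod n, z ∈ E1 ↔ z + (-1) ∈ T1 := by
    intro z
    simp [hE1, sh]
  have hMd : M • d = 0 := by
    obtain ⟨t, ht⟩ := (w.mem d).mp (AddSubgroup.mem_zmultiples d)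
    have : M • d = ((M * d.val : ℕ) : ZMod n) := by
      rw [nsmul_eq_mul, Nat.cast_mul, ZMod.natCast_zmod_val]
    rw [this, ht]
    have : M * (g * t) = n * t := by rw [hn]; ring
    rw [this, Nat.cast_mul, ZMod.natCast_self, zero_mul]
  have harc := arc_count w E1 1 le_rfl (by omega)
    (by
      intro z hz hz0
      rw [hmE1] at hz ⊢
      by_contra hcon
      have h1 := hm1 _ hz (by
        have e : z + -1 + d = z + d + -1 := by ring
        rw [e]; exact hcon)
      apply hz0
      have : z = (z + -1) + 1 := by ring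
      rw [this, h1]; ring)
    (by
      rw [hE1, caseB2_card_sh]
      have : T1.card + 1 = k := by omega
      rw [this]; exact hk)
  have h0E1 : (0 : ZMod n) ∈ E1 := by
    have := (harc 0 (by omega)).mpr (by omega)
    simpa using this
  have hlast : -((M - 1) • d) = d := by
    have e : (M - 1) • d + d = 0 := by
      rw [← succ_nsmul, Nat.sub_add_cancel (by omega), hMd]
    have := neg_eq_of_add_eq_zero_right e
    exact this
  have hdE1 : d ∉ E1 := by
    have h2 := (harc (M - 1) (by omega))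
    rw [hlast] at h2
    rw [h2]; omega
  have hmdE1 : -d ∈ E1 := by
    have h2 := (harc 1 (by omega)).mpr (by omega)
    simpa using h2
  obtain ⟨c2, r2⟩ := red_step π d B w.cost w.zero T1 (-1)
    (by rw [hmE1, zero_add] at h0E1; exact h0E1)
    (by
      rw [hmE1] at hdE1
      rw [add_comm]; exact hdE1)
  rw [← hE1] at c2 r2
  set T2 := re π E1 with hT2
  have hval1 : (-1 : ZMod n).val = n - 1 := by
    have e : ((n - 1 : ℕ) : ZMod n) = -1 := by
      rw [Nat.cast_sub (by omega), ZMod.natCast_self]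
      push_cast
      ring
    rw [← e]
    exact ZMod.val_natCast_of_lt (by omega)
  have nB2 : ¬ B T2 (N - 2 * n - 1) := by
    intro hb
    apply nB1
    refine w.cost.mono T1 _ _ (r2 _ hb) ?_
    rw [hval1]; omega
  have hT2K : ∀ z ∈ T2, z ∉ AddSubgroup.zmultiples d := by
    intro z hz hzK
    have h0 : (0 : ZMod n) ∉ T2 := by simp [hT2, re]
    obtain ⟨h', hh'T, hh'K, hh'd, hh'v⟩ := red_in_K w T2 z 0 hz hzK h0 (AddSubgroup.zero_mem _)
    obtain ⟨c3, r3⟩ := red_step π d B w.cost w.zero T2 h' hh'T hh'd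
    have hB3 := IH 3 (re π (sh T2 h')) (by omega) (by omega) (by omega)
    apply nB2
    refine w.cost.mono T2 _ _ (r3 _ hB3) ?_
    omega
  have hκ0 : d + d ≠ 0 := by
    intro h2
    have e : -d = d := neg_eq_of_add_eq_zero_right h2
    rw [e] at hmdE1
    exact hdE1 hmdE1
  have hκd : d + d ≠ d := by
    intro h2
    apply w.dne
    have : d = (d + d) - d := by ring
    rw [this, h2, sub_self]
  have hκK : d + d ∈ AddSubgroup.zmultiples d :=
    AddSubgroup.add_mem _ (AddSubgroup.mem_zmultiples d) (AddSubgroup.mem_zmultiples d)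
  by_cases hpK : π (d + d) ∈ AddSubgroup.zmultiples d
  · have hne : π (d + d) ≠ d := by
      intro h2
      apply hκd
      apply π.injective
      rw [h2, w.fix]
    obtain ⟨z, hz⟩ := AddSubgroup.mem_zmultiples_iff.mp hpK
    set j := ((-z) % (M : ℤ)).toNat with hj
    have hMpos : (0 : ℤ) < M := by omega
    have hj0 : (0 : ℤ) ≤ (-z) % (M : ℤ) := Int.emod_nonneg _ hMpos.ne'
    have hj1 : (-z) % (M : ℤ) < M := Int.emod_lt_of_pos _ hMpos
    have hjc : (j : ℤ) = (-z) % (M : ℤ) := Int.toNat_of_nonneg hj0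
    have hjM : j < M := by omega
    have hjeq : -(j • d) = π (d + d) := by
      rw [← hz]
      have e1 : (j : ℤ) = -z - M * ((-z) / (M : ℤ)) := by
        rw [hjc]
        have := Int.emod_add_mul_ediv (-z) (M : ℤ)
        linarith
      have e2 : j • d = (j : ℤ) • d := (natCast_zsmul d j).symm
      have e3 : (M : ℤ) • d = 0 := by rw [natCast_zsmul]; exact hMd
      rw [e2, e1, sub_zsmul, mul_comm, mul_zsmul, e3, smul_zero, neg_zero, add_zero, neg_zsmul, neg_neg]
    have hjne : j ≠ M - 1 := by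
      intro h2
      apply hne
      rw [← hjeq, h2, hlast]
    have hin : π (d + d) ∈ E1 := by
      rw [← hjeq]
      exact (harc j hjM).mpr (by omega)
    refine hT2K (d + d) ?_ hκK
    simp only [hT2, re, Finset.mem_filter, Finset.mem_univ, true_and]
    exact ⟨hκ0, hin⟩
  · obtain ⟨m, hm⟩ := hP (d + d) hκK
    have hgd : ¬ g ∣ (π (d + d)).val := fun h2 => hpK ((w.mem _).mpr h2)
    have hodd : m % 2 = 1 := by
      by_contra hcon
      apply hgd
      rw [hm, hp]
      refine ⟨m / 2, ?_⟩
      have : m = 2 * (m / 2) := by omega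
      conv_lhs => rw [this]
      ring
    have hmK : π (d + d) - (p : ZMod n) ∈ AddSubgroup.zmultiples d := by
      rw [w.mem]
      have e1 : π (d + d) - (p : ZMod n) = ((p * (m - 1) : ℕ) : ZMod n) := by
        have e2 : ((π (d + d)).val : ZMod n) = π (d + d) := ZMod.natCast_zmod_val _
        rw [← e2, hm]
        have e3 : p * m = p * (m - 1) + p := by
          have : m = (m - 1) + 1 := by omega
          conv_lhs => rw [this]
          ring
        rw [e3]; push_cast; ring
      rw [e1, ZMod.val_natCast]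
      have hd1 : g ∣ p * (m - 1) := by
        rw [hp]
        refine ⟨(m - 1) / 2, ?_⟩
        have : m - 1 = 2 * ((m - 1) / 2) := by omega
        conv_lhs => rw [this]
        ring
      have hd2 : g ∣ n := ⟨M, hn⟩
      exact (Nat.dvd_mod_iff hd2).mpr hd1
    have hU' : π (d + d) - (p : ZMod n) ∈ U := hKU _ hmK
    have hhz : h = -(g : ZMod n) := by
      have e2 : (h.val : ZMod n) = h := ZMod.natCast_zmod_val _
      rw [← e2, hhval, Nat.cast_sub (by omega), ZMod.natCast_self, zero_sub]
    have hin0 : π (d + d) ∈ E0 := by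
      have e : π (d + d) + h + ((g - p : ℕ) : ZMod n) = π (d + d) - (p : ZMod n) := by
        rw [hhz, hgp]
        have : (g : ZMod n) = 2 * (p : ZMod n) := by rw [hp]; push_cast; ring
        rw [this]; ring
      simp only [hE0, hT0, sh, Finset.mem_filter, Finset.mem_univ, true_and]
      rw [e]; exact hU'
    have hκT1 : d + d ∈ T1 := by
      simp only [hT1, re, Finset.mem_filter, Finset.mem_univ, true_and]
      exact ⟨hκ0, hin0⟩
    have h0 : (0 : ZMod n) ∉ T1 := by simp [hT1, re]
    obtain ⟨h', hh'T, hh'K, hh'd, hh'v⟩ := red_in_K w T1 (d + d) 0 hκT1 hκK h0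
      (AddSubgroup.zero_mem _)
    have := hm1 h' hh'T hh'd
    rw [this, hval1] at hh'v
    omega

end Pool.Agent.Helper85.Don
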