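import Pool.Agent.Helper85.Don.Defs

set_option autoImplicit false

namespace Pool.Agent.Helper85.Don



theorem first_valid {n : ℕ} [NeZero n] (π : Equiv.Perm (ZMod n)) (d : ZMod n)
    (B : Finset (ZMod n) → ℕ → Prop) (hB : Cost π d B) (hπ : π 0 = 0)
    (Q' : AddSubgroup (ZMod n)) (q' : ℕ) (hq'1 : 1 ≤ q') (hq'n : q' ∣ n)
    (hq' : ∀ x : ZMod n, x ∈ Q' ↔ q' ∣ x.val) (T : Finset (ZMod n)) (hT : Per Q' T)
    (hT' : ¬ Per (AddSubgroup.closure ((Q' : Set (ZMod n)) ∪ π '' (Q' : Set (ZMod n)))) T) :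
    ∃ c : ℕ, c < q' ∧ (c : ZMod n) ∈ T ∧ ∃ κ ∈ Q', (c : ZMod n) + π κ ∉ T := by
  obtain ⟨c0, hc0, κ, hκ, hn⟩ : ∃ c0 ∈ T, ∃ κ ∈ Q', c0 + π κ ∉ T := by
    by_contra hcon
    push Not at hcon
    apply hT'
    intro x hx s hs
    revert x
    induction hs using AddSubgroup.closure_induction with
    | mem s hs =>
      intro x hx
      rcases hs with hs | ⟨κ, hκ, rfl⟩
      · exact hT x hx s hs
      · exact hcon x hx κ hκ
    | zero =>
      intro x hx
      rwa [add_zero]
    | add s t _ _ h1 h2 =>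
      intro x hx
      rw [← add_assoc]
      exact h2 _ (h1 x hx)
    | neg s _ h1 =>
      intro x hx
      have hk : ∀ k : ℕ, x + k • s ∈ T := by
        intro k
        induction k with
        | zero => simpa using hx
        | succ k ih =>
          rw [succ_nsmul, ← add_assoc]
          exact h1 _ ih
      have hneg : -s = (n - 1) • s := by
        have hn1 : 1 ≤ n := Nat.one_le_iff_ne_zero.2 (NeZero.ne n)
        have h3 : (n - 1) • s + s = 0 := by
          rw [← succ_nsmul, Nat.sub_add_cancel hn1, nsmul_eq_mul, ZMod.natCast_self, zero_mul]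
        exact (eq_neg_of_add_eq_zero_left h3).symm
      rw [hneg]
      exact hk _
  have hδ : c0 - ((c0.val % q' : ℕ) : ZMod n) ∈ Q' := by
    have h1 : c0 - ((c0.val % q' : ℕ) : ZMod n) = ((q' * (c0.val / q') : ℕ) : ZMod n) := by
      rw [sub_eq_iff_eq_add, ← Nat.cast_add, Nat.div_add_mod, ZMod.natCast_zmod_val]
    rw [h1, hq', ZMod.val_natCast, Nat.mod_eq_of_lt]
    · exact dvd_mul_right _ _
    · exact (Nat.mul_div_le _ _).trans_lt (ZMod.val_lt c0)
  refine ⟨c0.val % q', Nat.mod_lt _ hq'1, ?_, κ, hκ, ?_⟩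
  · have := hT c0 hc0 _ (Q'.neg_mem hδ)
    have e : c0 + -(c0 - ((c0.val % q' : ℕ) : ZMod n)) = ((c0.val % q' : ℕ) : ZMod n) := by ring
    rwa [e] at this
  · intro hmem
    apply hn
    have := hT _ hmem _ hδ
    have e : ((c0.val % q' : ℕ) : ZMod n) + π κ + (c0 - ((c0.val % q' : ℕ) : ZMod n)) =
        c0 + π κ := by ring
    rwa [e] at this

end Pool.Agent.Helper85.Don
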