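import Pool.Agent.Helper85.Don.Defs

set_option autoImplicit false

namespace Pool.Agent.Helper85.Don



theorem k0_gen {n : ℕ} [NeZero n] (π : Equiv.Perm (ZMod n)) (K Q : AddSubgroup (ZMod n))
    (hKQ : K ≤ Q) (hπQ : ∀ κ ∈ K, π κ ∈ Q) (X : Finset (ZMod n))
    (hX : ∀ x ∈ X, x ∈ Q → ∀ κ ∈ K, x + κ ∈ X) (z : ZMod n) (hzQ : z ∈ Q)
    (hV : ∀ c ∈ X, c ∈ Q → (∃ κ ∈ K, c + π κ ∉ X) → c - z ∈ K) (h1 : z ∈ X)
    (h2 : ∃ κ ∈ K, z + π κ ∉ X) (κ : ZMod n) (hκ : κ ∈ K) (hκX : z + π κ ∈ X) : π κ ∈ K := by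
  by_contra hs
  have hsQ : π κ ∈ Q := hπQ κ hκ
  have hstep : ∀ c ∈ X, c ∈ Q → c + π κ ∈ X := by
    intro c hc hcQ
    by_cases hcz : c - z ∈ K
    · have h := hX (z + π κ) hκX (Q.add_mem hzQ hsQ) (c - z) hcz
      have he : z + π κ + (c - z) = c + π κ := by ring
      rwa [he] at h
    · by_contra hcs
      exact hcz (hV c hc hcQ ⟨κ, hκ, hcs⟩)
  have hit : ∀ m : ℕ, z + (m : ZMod n) * π κ ∈ X ∧ z + (m : ZMod n) * π κ ∈ Q := by
    intro m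
    induction m with
    | zero => simpa using ⟨h1, hzQ⟩
    | succ m ih =>
      have he : z + ((m + 1 : ℕ) : ZMod n) * π κ = z + (m : ZMod n) * π κ + π κ := by
        push_cast; ring
      rw [he]
      exact ⟨hstep _ ih.1 ih.2, Q.add_mem ih.2 hsQ⟩
  have hn0 : n ≠ 0 := NeZero.ne n
  obtain ⟨hz1, hz2⟩ := hit (n - 1)
  have hcast : ((n - 1 : ℕ) : ZMod n) = -1 := by
    rw [Nat.cast_sub (by omega)]
    simp
  rw [hcast] at hz1 hz2
  obtain ⟨κ', hκ', hbad⟩ := h2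
  apply hbad
  have h3 : z + -1 * π κ + π κ' ∈ X := by
    by_contra h4
    have h5 := hV _ hz1 hz2 ⟨κ', hκ', h4⟩
    have he : z + -1 * π κ - z = -(π κ) := by ring
    rw [he] at h5
    exact hs (by simpa using K.neg_mem h5)
  have h4 := hstep _ h3 (Q.add_mem hz2 (hπQ κ' hκ'))
  have he : z + -1 * π κ + π κ' + π κ = z + π κ' := by ring
  rwa [he] at h4

end Pool.Agent.Helper85.Don
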