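import Pool.Agent.Helper85.Don.Defs
import Pool.Agent.Helper85.Don.P_k0_gen
import Pool.Agent.Helper85.Don.P_keep_cost

set_option autoImplicit false

namespace Pool.Agent.Helper85.Don



theorem last_stage {n : ℕ} [NeZero n] (π : Equiv.Perm (ZMod n)) (d : ZMod n)
    (B : Finset (ZMod n) → ℕ → Prop) (hB : Cost π d B) (hπ : π 0 = 0)
    (K Q : AddSubgroup (ZMod n))
    (hQ : Q = AddSubgroup.closure ((K : Set (ZMod n)) ∪ π '' (K : Set (ZMod n))))
    (g p : ℕ) (hg1 : 1 ≤ g) (hgn : g ∣ n) (hgK : ∀ x : ZMod n, x ∈ K ↔ g ∣ x.val)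
    (hpn : p ∣ n) (hpQ : ∀ x : ZMod n, x ∈ Q ↔ p ∣ x.val) (hpg : p ∣ g) (hp2 : 2 ≤ p)
    (hlt : g < n) (k C : ℕ)
    (hstar : ∀ V : Finset (ZMod n), V.card = k → (∃ x ∈ K, x ∈ V) → (∃ x ∈ K, x ∉ V) →
      B V (C + 2))
    (X : Finset (ZMod n)) (hXk : X.card = k) (hX : ∀ x ∈ X, x ∈ Q → ∀ κ ∈ K, x + κ ∈ X)
    (c : ℕ) (hcg : c < g) (hpc : p ∣ c) (hc : (c : ZMod n) ∈ X)
    (hcκ : ∃ κ ∈ K, (c : ZMod n) + π κ ∉ X) (hbad : ¬ B X (C + (g - p + 1))) :
    ∃ T : Finset (ZMod n), T.card = k ∧ (0 : ZMod n) ∈ T ∧ (∀ κ ∈ K, κ ∈ T ↔ π κ ∈ K) ∧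
      ¬ B T C := by
  have hKQ : K ≤ Q := by
    rw [hQ]; intro x hx; exact AddSubgroup.subset_closure (Or.inl hx)
  have hπQ : ∀ κ ∈ K, π κ ∈ Q := by
    intro κ hκ
    rw [hQ]; exact AddSubgroup.subset_closure (Or.inr ⟨κ, hκ, rfl⟩)
  have hn1 : 1 < n := by omega
  have key : ∀ c' : ℕ, c' < g → p ∣ c' → (c' : ZMod n) ∈ X →
      (∃ κ ∈ K, (c' : ZMod n) + π κ ∉ X) → c' = g - p := by
    intro c' h1 h2 h3 h4
    by_contra hne
    obtain ⟨κ, hκ, hκX⟩ := h4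
    have h5 : c' + 2 * p ≤ g := by
      obtain ⟨a, ha⟩ := h2
      obtain ⟨b, hb⟩ := hpg
      subst ha
      subst hb
      have hab : a < b := by
        by_contra h
        exact absurd (Nat.mul_le_mul_left p (not_lt.1 h)) (not_le.2 h1)
      have hab2 : a + 1 ≠ b := by
        intro h
        apply hne
        rw [← h, Nat.mul_add, Nat.mul_one, Nat.add_sub_cancel]
      have hab3 : a + 2 ≤ b := by omega
      calc p * a + 2 * p = p * (a + 2) := by ring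
        _ ≤ p * b := Nat.mul_le_mul_left p hab3
    obtain ⟨hV1, hV2, hV3, hV4⟩ := keep_cost π d B hB hπ hn1 X c' (lt_trans h1 hlt) h3
    have h6 := hstar (ke π (sh X (c' : ZMod n))) (hV1.trans hXk) ⟨0, K.zero_mem, hV2⟩
      ⟨κ, hκ, fun h => hκX ((hV3 κ).1 h)⟩
    exact hbad (hB.mono _ _ _ (hV4 _ h6) (by omega))
  have hcz : c = g - p := key c hcg hpc hc hcκ
  subst hcz
  have hgpn : g - p < n := by omega
  have hzQ : ((g - p : ℕ) : ZMod n) ∈ Q := by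
    rw [hpQ, ZMod.val_natCast, Nat.mod_eq_of_lt hgpn]
    exact hpc
  have hV : ∀ x ∈ X, x ∈ Q → (∃ κ ∈ K, x + π κ ∉ X) → x - ((g - p : ℕ) : ZMod n) ∈ K := by
    rintro x hxX hxQ ⟨κ, hκ, hκX⟩
    have hlt'' : x.val % g < g := Nat.mod_lt _ (by omega)
    have hxn : x.val < n := ZMod.val_lt x
    have hdiff : x - ((x.val % g : ℕ) : ZMod n) ∈ K := by
      have e1 : x - ((x.val % g : ℕ) : ZMod n) = ((g * (x.val / g) : ℕ) : ZMod n) := by
        have e2 : x = ((g * (x.val / g) + x.val % g : ℕ) : ZMod n) := by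
          rw [Nat.div_add_mod, ZMod.natCast_zmod_val]
        calc x - ((x.val % g : ℕ) : ZMod n)
            = ((g * (x.val / g) + x.val % g : ℕ) : ZMod n) - ((x.val % g : ℕ) : ZMod n) := by
              rw [← e2]
          _ = ((g * (x.val / g) : ℕ) : ZMod n) := by
              rw [Nat.cast_add, add_sub_cancel_right]
      rw [e1, hgK, ZMod.val_natCast, Nat.mod_eq_of_lt (lt_of_le_of_lt (Nat.mul_div_le _ _) hxn)]
      exact dvd_mul_right _ _
    have hpc'' : p ∣ x.val % g := (Nat.dvd_mod_iff hpg).2 ((hpQ x).1 hxQ)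
    have hc''X : ((x.val % g : ℕ) : ZMod n) ∈ X := by
      have := hX x hxX hxQ _ (K.neg_mem hdiff)
      rwa [neg_sub, add_sub_cancel] at this
    have hc''Q : ((x.val % g : ℕ) : ZMod n) ∈ Q := by
      rw [hpQ, ZMod.val_natCast, Nat.mod_eq_of_lt (lt_trans hlt'' hlt)]
      exact hpc''
    have hκ'' : ((x.val % g : ℕ) : ZMod n) + π κ ∉ X := by
      intro h
      apply hκX
      have h7 := hX _ h (Q.add_mem hc''Q (hπQ κ hκ)) _ hdiff
      have e3 : ((x.val % g : ℕ) : ZMod n) + π κ + (x - ((x.val % g : ℕ) : ZMod n))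
          = x + π κ := by ring
      rwa [e3] at h7
    have h8 := key (x.val % g) hlt'' hpc'' hc''X ⟨κ, hκ, hκ''⟩
    rw [← h8]
    exact hdiff
  obtain ⟨hT1, hT2, hT3, hT4⟩ := keep_cost π d B hB hπ hn1 X (g - p) hgpn hc
  refine ⟨ke π (sh X ((g - p : ℕ) : ZMod n)), hT1.trans hXk, hT2, ?_, ?_⟩
  · intro κ hκ
    rw [hT3 κ]
    constructor
    · intro h
      exact k0_gen π K Q hKQ hπQ X hX _ hzQ hV hc hcκ κ hκ h
    · intro h
      exact hX _ hc hzQ _ h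
  · intro h
    exact hbad (hB.mono _ _ _ (hT4 _ h) (by omega))

end Pool.Agent.Helper85.Don
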