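import Pool.Agent.Helper85.Don.Defs

set_option autoImplicit false

namespace Pool.Agent.Helper85.Don



theorem stage_step {n : ℕ} [NeZero n] (π : Equiv.Perm (ZMod n)) (Q' Q : AddSubgroup (ZMod n))
    (hQ : Q = AddSubgroup.closure ((Q' : Set (ZMod n)) ∪ π '' (Q' : Set (ZMod n))))
    (q' q : ℕ) (hq'1 : 1 ≤ q') (hq'n : q' ∣ n) (hq' : ∀ x : ZMod n, x ∈ Q' ↔ q' ∣ x.val)
    (hqn : q ∣ n) (hq : ∀ x : ZMod n, x ∈ Q ↔ q ∣ x.val) (hqq : q ∣ q') (X : Finset (ZMod n))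
    (hX : ∃ x ∈ X, x ∈ Q) (hX2 : ∃ x ∈ Q, x ∉ X) :
    (∃ y : ℕ, y < q' ∧ q ∣ y ∧ (∃ x ∈ Q', x + (y : ZMod n) ∈ X) ∧
      (∃ x ∈ Q', x + (y : ZMod n) ∉ X)) ∨
    ((∀ x ∈ X, x ∈ Q → ∀ κ ∈ Q', x + κ ∈ X) ∧
      ∃ c : ℕ, c < q' ∧ q ∣ c ∧ (c : ZMod n) ∈ X ∧ ∃ κ ∈ Q', (c : ZMod n) + π κ ∉ X) := by
  have key : ∀ x : ZMod n, x ∈ Q → x.val % q' < q' ∧ q ∣ x.val % q' ∧
      x - ((x.val % q' : ℕ) : ZMod n) ∈ Q' ∧ ((x.val % q' : ℕ) : ZMod n) ∈ Q := by
    intro x hx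
    have h1 : q ∣ x.val % q' := (Nat.dvd_mod_iff hqq).2 ((hq x).1 hx)
    refine ⟨Nat.mod_lt _ hq'1, h1, ?_, ?_⟩
    · have h2 : x - ((x.val % q' : ℕ) : ZMod n) = ((q' * (x.val / q') : ℕ) : ZMod n) := by
        have h3 : x = ((q' * (x.val / q') + x.val % q' : ℕ) : ZMod n) := by
          rw [Nat.div_add_mod, ZMod.natCast_zmod_val]
        rw [Nat.cast_add] at h3
        exact sub_eq_of_eq_add h3
      rw [h2, hq', ZMod.val_natCast]
      exact (Nat.dvd_mod_iff hq'n).2 (dvd_mul_right _ _)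
    · rw [hq, ZMod.val_natCast]
      exact (Nat.dvd_mod_iff hqn).2 h1
  have hsubQ : ∀ κ ∈ Q', κ ∈ Q := by
    intro κ hκ
    rw [hQ]
    exact AddSubgroup.subset_closure (Or.inl hκ)
  have hπQ : ∀ κ ∈ Q', π κ ∈ Q := by
    intro κ hκ
    rw [hQ]
    exact AddSubgroup.subset_closure (Or.inr ⟨κ, hκ, rfl⟩)
  by_cases hcl : ∀ x ∈ X, x ∈ Q → ∀ κ ∈ Q', x + κ ∈ X
  · right
    refine ⟨hcl, ?_⟩
    have hex : ∃ c0 ∈ X, c0 ∈ Q ∧ ∃ κ ∈ Q', c0 + π κ ∉ X := by
      by_contra hcon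
      push Not at hcon
      have hnat : ∀ s : ZMod n, s ∈ Q → (∀ x ∈ X, x ∈ Q → x + s ∈ X) →
          ∀ m : ℕ, ∀ x ∈ X, x ∈ Q → x + m • s ∈ X := by
        intro s hs hP m
        induction m with
        | zero => intro x hx _; simpa using hx
        | succ m ih =>
          intro x hx hxQ
          have h1 := ih x hx hxQ
          have h2 : x + m • s ∈ Q := Q.add_mem hxQ (Q.nsmul_mem hs m)
          have h3 := hP _ h1 h2
          rw [succ_nsmul, ← add_assoc]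
          exact h3
      have hall : ∀ s ∈ Q, ∀ x ∈ X, x ∈ Q → x + s ∈ X := by
        intro s hs
        rw [hQ] at hs
        induction hs using AddSubgroup.closure_induction with
        | mem s hs =>
          intro x hx hxQ
          rcases hs with hs | ⟨κ, hκ, rfl⟩
          · exact hcl x hx hxQ s hs
          · exact hcon x hx hxQ κ hκ
        | zero => intro x hx _; simpa using hx
        | add s t hs ht ihs iht =>
          intro x hx hxQ
          rw [← hQ] at hs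
          rw [← add_assoc]
          exact iht _ (ihs x hx hxQ) (Q.add_mem hxQ hs)
        | neg s hs ih =>
          intro x hx hxQ
          rw [← hQ] at hs
          have h1 := hnat s hs ih (n - 1) x hx hxQ
          have h2 : (n - 1) • s = -s := by
            have hn : 0 < n := Nat.pos_of_ne_zero (NeZero.ne n)
            have h3 : (n - 1) • s + s = 0 := by
              rw [← succ_nsmul, Nat.sub_add_cancel hn, nsmul_eq_mul, ZMod.natCast_self, zero_mul]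
            exact eq_neg_of_add_eq_zero_left h3
          rw [h2] at h1
          exact h1
      obtain ⟨x, hx, hxQ⟩ := hX
      obtain ⟨z, hzQ, hz⟩ := hX2
      apply hz
      have := hall (z - x) (Q.sub_mem hzQ hxQ) x hx hxQ
      rwa [add_sub_cancel] at this
    obtain ⟨c0, hc0, hc0Q, κ, hκ, hn⟩ := hex
    obtain ⟨k1, k2, k3, k4⟩ := key c0 hc0Q
    refine ⟨c0.val % q', k1, k2, ?_, κ, hκ, ?_⟩
    · have := hcl c0 hc0 hc0Q _ (Q'.neg_mem k3)
      have h2 : c0 + -(c0 - ((c0.val % q' : ℕ) : ZMod n)) = ((c0.val % q' : ℕ) : ZMod n) := by ring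
      rwa [h2] at this
    · intro hmem
      apply hn
      have h1 : ((c0.val % q' : ℕ) : ZMod n) + π κ ∈ Q := Q.add_mem k4 (hπQ κ hκ)
      have h2 := hcl _ hmem h1 _ k3
      have h3 : ((c0.val % q' : ℕ) : ZMod n) + π κ + (c0 - ((c0.val % q' : ℕ) : ZMod n)) =
          c0 + π κ := by ring
      rwa [h3] at h2
  · left
    push Not at hcl
    obtain ⟨x, hx, hxQ, κ, hκ, hn⟩ := hcl
    obtain ⟨k1, k2, k3, k4⟩ := key x hxQ
    refine ⟨x.val % q', k1, k2, ⟨x - ((x.val % q' : ℕ) : ZMod n), k3, ?_⟩,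
      ⟨x - ((x.val % q' : ℕ) : ZMod n) + κ, Q'.add_mem k3 hκ, ?_⟩⟩
    · rwa [sub_add_cancel]
    · have h3 : x - ((x.val % q' : ℕ) : ZMod n) + κ + ((x.val % q' : ℕ) : ZMod n) = x + κ := by ring
      rwa [h3]

end Pool.Agent.Helper85.Don
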