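import Pool.Agent.Helper85.Don.Defs
import Pool.Agent.Helper85.Don.P_stage_step
import Pool.Agent.Helper85.Don.P_last_stage
import Pool.Agent.Helper85.Don.P_stage_SP
import Pool.Agent.Helper85.Don.P_keep_cost

set_option autoImplicit false

namespace Pool.Agent.Helper85.Don




theorem sh_card85 {n : ℕ} [NeZero n] (X : Finset (ZMod n)) (y : ZMod n) :
    (sh X y).card = X.card := by
  apply Finset.card_equiv (Equiv.addRight y)
  intro x
  simp [sh]

theorem dvd_gap85 (q a b : ℕ) (ha : q ∣ a) (hb : q ∣ b) (hab : a < b) : a + q ≤ b := by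
  obtain ⟨s, rfl⟩ := ha
  obtain ⟨t, rfl⟩ := hb
  have hst : s < t := lt_of_mul_lt_mul_left hab (Nat.zero_le q)
  calc q * s + q = q * (s + 1) := by ring
    _ ≤ q * t := Nat.mul_le_mul_left q hst

theorem stage_S {n : ℕ} [NeZero n] (π : Equiv.Perm (ZMod n)) (d : ZMod n)
    (B : Finset (ZMod n) → ℕ → Prop) (hB : Cost π d B) (hπ : π 0 = 0)
    (K : AddSubgroup (ZMod n)) (p : ℕ → ℕ) (hp1 : ∀ i, 1 ≤ p i) (hpn : ∀ i, p i ∣ n)
    (hp : ∀ i, ∀ x : ZMod n, x ∈ ch π K i ↔ p i ∣ x.val) (hpd : ∀ i, p (i + 1) ∣ p i)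
    (hp10 : p 1 < p 0) (hlt : p 0 < n) (k C : ℕ)
    (hstar : ∀ V : Finset (ZMod n), V.card = k → (∃ x ∈ K, x ∈ V) → (∃ x ∈ K, x ∉ V) →
      B V (C + 2))
    (j : ℕ) (hj : 1 ≤ j) (hpj : ∀ i ≤ j, 2 ≤ p i) (X : Finset (ZMod n)) (hXk : X.card = k)
    (h0 : (0 : ZMod n) ∈ X) (hX2 : ∃ x ∈ ch π K j, x ∉ X)
    (hbad : ¬ B X (C + (p 0 - p j + j))) :
    (∃ T : Finset (ZMod n), T.card = k ∧ (0 : ZMod n) ∈ T ∧ (∀ κ ∈ K, κ ∈ T ↔ π κ ∈ K) ∧
      ¬ B T C) ∨
    (∃ U : Finset (ZMod n), U.card = k ∧ (∀ κ ∈ K, κ ∈ U) ∧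
      (∃ x ∈ K, x + ((p 0 - p 1 : ℕ) : ZMod n) ∈ U) ∧
      (∃ x ∈ K, x + ((p 0 - p 1 : ℕ) : ZMod n) ∉ U) ∧
      ¬ B (sh U ((p 0 - p 1 : ℕ) : ZMod n)) (C + 1)) := by
  have hple : ∀ i, p i ≤ p 0 := by
    intro i
    induction i with
    | zero => exact le_refl _
    | succ i ih => exact (Nat.le_of_dvd (hp1 i) (hpd i)).trans ih
  have hmemsh : ∀ (Y : Finset (ZMod n)) (y x : ZMod n), x ∈ sh Y y ↔ x + y ∈ Y := by
    intro Y y x
    simp [sh]
  induction j, hj using Nat.le_induction generalizing X with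
  | base =>
    have h2 := hpj 1 le_rfl
    rcases stage_step π (ch π K 0) (ch π K 1) rfl (p 0) (p 1) (hp1 0) (hpn 0) (hp 0) (hpn 1)
      (hp 1) (hpd 0) X ⟨0, h0, zero_mem _⟩ hX2 with ⟨y, hy, hyd, hx1, hx2⟩ | ⟨hper, c, hc, hcd, hcX, hκ⟩
    · have hgap := dvd_gap85 _ _ _ hyd (hpd 0) hy
      norm_num at hgap
      have hyv : ((y : ℕ) : ZMod n).val = y := ZMod.val_cast_of_lt (by omega)
      by_cases hcase : y + 2 * p 1 ≤ p 0
      · exfalso
        apply hbad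
        obtain ⟨x1, hx1K, hx1X⟩ := hx1
        obtain ⟨x2, hx2K, hx2X⟩ := hx2
        have hV := hstar (sh X (y : ZMod n)) (by rw [sh_card85, hXk])
          ⟨x1, hx1K, (hmemsh _ _ _).mpr hx1X⟩ ⟨x2, hx2K, fun h => hx2X ((hmemsh _ _ _).mp h)⟩
        have hr := hB.rot X (y : ZMod n) (C + 2) hV
        rw [hyv] at hr
        exact hB.mono _ _ _ hr (by omega)
      · have hyeq : y = p 0 - p 1 := by
          by_contra hne
          have hlt1 : y + p 1 < p 0 := by omega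
          have hd1 : p 1 ∣ y + p 1 := Dvd.dvd.add hyd (dvd_refl _)
          have := dvd_gap85 _ _ _ hd1 (hpd 0) hlt1
          norm_num at this
          omega
        right
        refine ⟨X, hXk, ?_, ?_, ?_, ?_⟩
        · intro κ hκ
          by_contra hκX
          apply hbad
          have hV := hstar X hXk ⟨0, zero_mem _, h0⟩ ⟨κ, hκ, hκX⟩
          exact hB.mono _ _ _ hV (by omega)
        · rw [← hyeq]
          exact hx1
        · rw [← hyeq]
          exact hx2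
        · rw [← hyeq]
          intro hbb
          apply hbad
          have hr := hB.rot X (y : ZMod n) (C + 1) hbb
          rw [hyv] at hr
          exact hB.mono _ _ _ hr (by omega)
    · left
      exact last_stage π d B hB hπ K (ch π K 1) rfl (p 0) (p 1) (hp1 0) (hpn 0) (hp 0) (hpn 1)
        (hp 1) (hpd 0) h2 hlt k C hstar X hXk hper c hc hcd hcX hκ hbad
  | succ j hj ih =>
    have hn1 : 1 < n := lt_of_le_of_lt (hp1 0) hlt
    have h2 := hpj (j + 1) le_rfl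
    have hpj0 := hple j
    rcases stage_step π (ch π K j) (ch π K (j + 1)) rfl (p j) (p (j + 1)) (hp1 j) (hpn j) (hp j)
      (hpn (j + 1)) (hp (j + 1)) (hpd j) X ⟨0, h0, zero_mem _⟩ hX2 with
      ⟨y, hy, hyd, hx1, hx2⟩ | ⟨hper, c, hc, hcd, hcX, hκ⟩
    · have hgap := dvd_gap85 _ _ _ hyd (hpd j) hy
      have hyv : ((y : ℕ) : ZMod n).val = y := ZMod.val_cast_of_lt (by omega)
      left
      obtain ⟨x1, hx1K, hx1X⟩ := hx1
      obtain ⟨x2, hx2K, hx2X⟩ := hx2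
      refine stage_S' π d B hB hπ K p hp1 hpn hp hpd hlt k C hstar j hj
        (fun i hi => hpj i (by omega)) (sh X (y : ZMod n)) (by rw [sh_card85, hXk])
        ⟨x1, (hmemsh _ _ _).mpr hx1X, hx1K⟩ ⟨x2, hx2K, fun h => hx2X ((hmemsh _ _ _).mp h)⟩ ?_
      intro hbb
      apply hbad
      have hr := hB.rot X (y : ZMod n) _ hbb
      rw [hyv] at hr
      exact hB.mono _ _ _ hr (by omega)
    · have hgap := dvd_gap85 _ _ _ hcd (hpd j) hc
      obtain ⟨hc1, hc2, hc3, hc4⟩ := keep_cost π d B hB hπ hn1 X c (by omega) hcX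
      obtain ⟨κ, hκK, hκX⟩ := hκ
      refine ih (fun i hi => hpj i (by omega)) (ke π (sh X (c : ZMod n))) (by rw [hc1, hXk]) hc2
        ⟨κ, hκK, fun h => hκX ((hc3 κ).mp h)⟩ ?_
      intro hbb
      apply hbad
      exact hB.mono _ _ _ (hc4 _ hbb) (by omega)

end Pool.Agent.Helper85.Don
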