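import Pool.Agent.Helper85.Don.Defs
import Pool.Agent.Helper85.Don.P_stage_SP
import Pool.Agent.Helper85.Don.P_stage_S
import Pool.Agent.Helper85.Don.P_first_valid
import Pool.Agent.Helper85.Don.P_keep_cost

set_option autoImplicit false

namespace Pool.Agent.Helper85.Don




theorem level_stageS {n : ℕ} [NeZero n] (π : Equiv.Perm (ZMod n)) (d : ZMod n)
    (B : Finset (ZMod n) → ℕ → Prop) (hB : Cost π d B) (hπ : π 0 = 0)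
    (K : AddSubgroup (ZMod n)) (p : ℕ → ℕ) (hp1 : ∀ i, 1 ≤ p i) (hpn : ∀ i, p i ∣ n)
    (hp : ∀ i, ∀ x : ZMod n, x ∈ ch π K i ↔ p i ∣ x.val) (hpd : ∀ i, p (i + 1) ∣ p i)
    (hp10 : p 1 < p 0) (hlt : p 0 < n) (k C : ℕ)
    (hstar : ∀ V : Finset (ZMod n), V.card = k → (∃ x ∈ K, x ∈ V) → (∃ x ∈ K, x ∉ V) →
      B V (C + 2))
    (i : ℕ) (hi : 1 ≤ i) (hpj : ∀ j ≤ i, 2 ≤ p j) (T : Finset (ZMod n)) (hTk : T.card = k)
    (hT : Per (ch π K i) T) (hT' : ¬ Per (ch π K (i + 1)) T) :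
    (¬ B T (C + (p 0 + i)) →
      (∃ T : Finset (ZMod n), T.card = k ∧ (0 : ZMod n) ∈ T ∧ (∀ κ ∈ K, κ ∈ T ↔ π κ ∈ K) ∧
        ¬ B T C) ∨
      (∃ U : Finset (ZMod n), U.card = k ∧ (∀ κ ∈ K, κ ∈ U) ∧
        (∃ x ∈ K, x + ((p 0 - p 1 : ℕ) : ZMod n) ∈ U) ∧
        (∃ x ∈ K, x + ((p 0 - p 1 : ℕ) : ZMod n) ∉ U) ∧
        ¬ B (sh U ((p 0 - p 1 : ℕ) : ZMod n)) (C + 1))) ∧
    (¬ B T (C + (p 0 + i) + 1) →
      (∃ T : Finset (ZMod n), T.card = k ∧ (0 : ZMod n) ∈ T ∧ (∀ κ ∈ K, κ ∈ T ↔ π κ ∈ K) ∧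
        ¬ B T C)) := by
  obtain ⟨c, hcp, hcT, κ, hκK, hκT⟩ := first_valid π d B hB hπ (ch π K i) (p i) (hp1 i) (hpn i)
    (hp i) T hT hT'
  have hdvd : ∀ j, p j ∣ p 0 := by
    intro j
    induction j with
    | zero => exact dvd_refl _
    | succ j ih => exact (hpd j).trans ih
  have hle : p i ≤ p 0 := Nat.le_of_dvd (hp1 0) (hdvd i)
  have hn1 : 1 < n := lt_of_le_of_lt (hp1 0) hlt
  have hcn : c < n := by omega
  obtain ⟨hcard, h0, hκ, hcost⟩ := keep_cost π d B hB hπ hn1 T c hcn hcT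
  have hκX : κ ∉ ke π (sh T (c : ZMod n)) := fun h => hκT ((hκ κ).1 h)
  refine ⟨fun hbad => ?_, fun hbad => ?_⟩
  · refine stage_S π d B hB hπ K p hp1 hpn hp hpd hp10 hlt k C hstar i hi hpj _
      (hcard.trans hTk) h0 ⟨κ, hκK, hκX⟩ ?_
    intro hBX
    exact hbad (hB.mono _ _ _ (hcost _ hBX) (by omega))
  · refine stage_S' π d B hB hπ K p hp1 hpn hp hpd hlt k C hstar i hi hpj _
      (hcard.trans hTk) ⟨0, h0, (ch π K i).zero_mem⟩ ⟨κ, hκK, hκX⟩ ?_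
    intro hBX
    exact hbad (hB.mono _ _ _ (hcost _ hBX) (by omega))

end Pool.Agent.Helper85.Don
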