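import Pool.Agent.Helper85.Don.Defs
import Pool.Agent.Helper85.Don.P_caseB
import Pool.Agent.Helper85.Don.P_caseA1
import Pool.Agent.Helper85.Don.P_caseA2
import Pool.Agent.Helper85.Don.P_caseG
import Pool.Agent.Helper85.Don.P_caseStar
import Pool.Agent.Helper85.Don.P_caseB2
import Pool.Agent.Helper85.Don.P_level_stage0
import Pool.Agent.Helper85.Don.P_level_stageS

set_option autoImplicit false

namespace Pool.Agent.Helper85.Don



theorem card_sh' {n : ℕ} [NeZero n] (U : Finset (ZMod n)) (y : ZMod n) :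
    (sh U y).card = U.card := by
  refine Finset.card_bij (fun x _ => x + y) ?_ ?_ ?_
  · intro a ha
    simpa [sh] using ha
  · intro a _ b _ h
    simpa using h
  · intro b hb
    refine ⟨b - y, ?_, by simp⟩
    simpa [sh] using hb

theorem block_main {n : ℕ} [NeZero n] {π : Equiv.Perm (ZMod n)} {d : ZMod n}
    {B : Finset (ZMod n) → ℕ → Prop} {g M : ℕ} (w : W π d B g M)
    (hMd : 4 ≤ M ∨ d = (g : ZMod n))
    (hesc : ∃ κ ∈ AddSubgroup.zmultiples d, π κ ∉ AddSubgroup.zmultiples d)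
    (p : ℕ → ℕ) (hp1 : ∀ i, 1 ≤ p i) (hpn : ∀ i, p i ∣ n)
    (hp : ∀ i, ∀ x : ZMod n, x ∈ ch π (AddSubgroup.zmultiples d) i ↔ p i ∣ x.val)
    (hpd : ∀ i, p (i + 1) ∣ p i) (hp10 : p 1 < p 0) (hlt : p 0 < n) (hp0 : p 0 = g)
    (k N : ℕ) (hk : M ∣ k) (hk2 : M ≤ k) (hN : (M + 1) * n ≤ N)
    (IH : ∀ (s : ℕ) (V : Finset (ZMod n)), 1 ≤ s → s ≤ M → V.card + s = k → B V (N - s * n))
    (T : Finset (ZMod n)) (hTk : T.card = k) (i : ℕ) (hpj : ∀ j ≤ i, 2 ≤ p j)
    (hT : Per (ch π (AddSubgroup.zmultiples d) i) T)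
    (hT' : ¬ Per (ch π (AddSubgroup.zmultiples d) (i + 1)) T) :
    ((d = (g : ZMod n) → 1 ≤ i → g = 2 * p 1) → B T (N + i - 1)) ∧
    (d = (g : ZMod n) → 1 ≤ i → B T (N + i)) := by
  have hgN : g + 1 ≤ N := by
    have h1 := w.hM
    have h2 := w.hg
    have h3 : g * 3 ≤ n := by
      rw [w.hn]
      exact Nat.mul_le_mul_left _ h1
    have h4 : n ≤ (M + 1) * n := Nat.le_mul_of_pos_left _ (by omega)
    omega
  obtain ⟨C, hC⟩ : ∃ C, C = N - (g + 1) := ⟨_, rfl⟩
  have hCN : C + (g + 1) = N := by omega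
  have hstar : ∀ V : Finset (ZMod n), V.card = k → (∃ x ∈ AddSubgroup.zmultiples d, x ∈ V) →
      (∃ x ∈ AddSubgroup.zmultiples d, x ∉ V) → B V (C + 2) := by
    rintro V hV ⟨x, hx, hxV⟩ ⟨y, hy, hyV⟩
    rw [hC]
    exact caseStar w k N hN IH V hV x y hxV hx hyV hy
  have killA : ∀ T0 : Finset (ZMod n), T0.card = k → (0 : ZMod n) ∈ T0 →
      (∀ κ ∈ AddSubgroup.zmultiples d, κ ∈ T0 ↔ π κ ∈ AddSubgroup.zmultiples d) → B T0 C := by
    intro T0 hT0 h0 hK0
    obtain ⟨κ1, hκ1, hκ1'⟩ := hesc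
    have hκT : κ1 ∉ T0 := fun hh => hκ1' ((hK0 κ1 hκ1).1 hh)
    rw [hC]
    by_cases hdg : d = (g : ZMod n)
    · exact caseG w hdg k N hN IH T0 hT0 h0 κ1 hκT hκ1
    · have hM4 : 4 ≤ M := hMd.resolve_right hdg
      by_cases hdm : d = -(g : ZMod n)
      · exact caseA1 w hM4 hdm k N hk hk2 hN IH T0 hT0 h0 κ1 hκT hκ1
      · exact caseA2 w hM4 hdm k N hk hk2 hN IH T0 hT0 h0 hK0 ⟨κ1, hκ1, hκ1'⟩
  have hgn : g ∣ n := ⟨M, w.hn⟩
  have hzero : (0 : ZMod n) ∈ AddSubgroup.zmultiples d := AddSubgroup.zero_mem _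
  constructor
  · intro h
    by_contra hbad
    rcases Nat.eq_zero_or_pos i with hi | hi
    · subst hi
      have e : N + 0 - 1 = C + g := by omega
      rw [e] at hbad
      rcases level_stage0 π d B w.cost w.zero (AddSubgroup.zmultiples d) g
        (by have := w.hg; omega) hgn w.mem (by omega) k C T hTk hT hT' hbad with
        ⟨T0, hc, h0, hK0, nb⟩ | ⟨T0, hc, h0, ⟨x, hx, hxT⟩, nb⟩
      · exact nb (killA T0 hc h0 hK0)
      · apply nb
        by_cases hdg : d = (g : ZMod n)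
        · have h5 := caseG w hdg k N hN IH T0 hc h0 x hxT hx
          rw [← hC] at h5
          exact w.cost.mono _ _ _ h5 (Nat.le_succ _)
        · have h5 := caseB w hdg k N hk hk2 hN IH T0 hc 0 x h0 hzero hxT hx
          have e2 : N - g = C + 1 := by omega
          rw [e2] at h5
          exact h5
    · have e : N + i - 1 = C + (p 0 + i) := by omega
      rw [e] at hbad
      rcases (level_stageS π d B w.cost w.zero (AddSubgroup.zmultiples d) p hp1 hpn hp hpd hp10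
        hlt k C hstar i hi hpj T hTk hT hT').1 hbad with
        ⟨T0, hc, h0, hK0, nb⟩ | ⟨U, hUc, hKU, ⟨x, hx, hxU⟩, ⟨y, hy, hyU⟩, nb⟩
      · exact nb (killA T0 hc h0 hK0)
      · apply nb
        have e2 : N - g = C + 1 := by omega
        rw [hp0] at hxU hyU ⊢
        rw [← e2]
        by_cases hdg : d = (g : ZMod n)
        · have hg2 := h hdg hi
          refine caseB2 w k N hk hk2 hN IH (p 1) hg2 ?_ U hUc hKU x y hxU hx hyU hy
          intro κ hκ
          refine (hp 1 (π κ)).1 ?_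
          exact AddSubgroup.subset_closure (Or.inr ⟨κ, hκ, rfl⟩)
        · refine caseB w hdg k N hk hk2 hN IH _ ((card_sh' _ _).trans hUc) x y ?_ hx ?_ hy
          · simpa [sh] using hxU
          · simpa [sh] using hyU
  · intro hdg hi
    by_contra hbad
    have e : N + i = C + (p 0 + i) + 1 := by omega
    rw [e] at hbad
    obtain ⟨T0, hc, h0, hK0, nb⟩ := (level_stageS π d B w.cost w.zero (AddSubgroup.zmultiples d)
      p hp1 hpn hp hpd hp10 hlt k C hstar i hi hpj T hTk hT hT').2 hbad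
    exact nb (killA T0 hc h0 hK0)

end Pool.Agent.Helper85.Don
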