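import Pool.Agent.Helper85.Don.Defs
import Pool.Agent.Helper85.Don.P_index_facts

set_option autoImplicit false

namespace Pool.Agent.Helper85.Don



theorem chain_facts {n : ℕ} [NeZero n] (π : Equiv.Perm (ZMod n)) (d : ZMod n) (hd : d ≠ 0)
    (K : AddSubgroup (ZMod n)) (hdK : d ∈ K)
    (hesc : ∀ P : AddSubgroup (ZMod n), d ∈ P → P ≠ ⊤ → ∃ x ∈ P, π x ∉ P) :
    ∃ p : ℕ → ℕ, (∀ i, 1 ≤ p i) ∧ (∀ i, p i ∣ n) ∧
      (∀ i, ∀ x : ZMod n, x ∈ ch π K i ↔ p i ∣ x.val) ∧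
      (∀ i, n = p i * Nat.card (ch π K i)) ∧ p 0 < n ∧ (∀ i, p (i + 1) ∣ p i) ∧
      (∀ i, p i = 1 ∨ 2 * p (i + 1) ≤ p i) ∧ (∀ i, p i = 1 ↔ ch π K i = ⊤) := by
  have hch_mono : ∀ i, ch π K i ≤ ch π K (i + 1) := by
    intro i x hx
    exact AddSubgroup.subset_closure (Or.inl hx)
  have hch_pi : ∀ i, ∀ x ∈ ch π K i, π x ∈ ch π K (i + 1) := by
    intro i x hx
    exact AddSubgroup.subset_closure (Or.inr ⟨x, hx, rfl⟩)
  have hd_mem : ∀ i, d ∈ ch π K i := by
    intro i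
    induction i with
    | zero => exact hdK
    | succ i ih => exact hch_mono i ih
  choose p hp1 hpn hpm using fun i => index_facts (ch π K i)
  have hpdvd : ∀ i, p i ∣ n := fun i => ⟨_, hpn i⟩
  have hnpos : 0 < n := Nat.pos_of_ne_zero (NeZero.ne n)
  have hdval : 0 < d.val := by
    rw [Nat.pos_iff_ne_zero, Ne, ZMod.val_eq_zero]
    exact hd
  have hplt : ∀ i, p i < n := by
    intro i
    have h1 : p i ∣ d.val := (hpm i d).1 (hd_mem i)
    exact lt_of_le_of_lt (Nat.le_of_dvd hdval h1) (ZMod.val_lt d)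
  have hpself : ∀ i, ((p i : ℕ) : ZMod n) ∈ ch π K i := by
    intro i
    rw [hpm i, ZMod.val_natCast, Nat.mod_eq_of_lt (hplt i)]
  have hpchain : ∀ i, p (i + 1) ∣ p i := by
    intro i
    have h1 := hch_mono i (hpself i)
    rw [hpm (i + 1), ZMod.val_natCast, Nat.mod_eq_of_lt (hplt i)] at h1
    exact h1
  have hone : ∀ i, p i = 1 ↔ ch π K i = ⊤ := by
    intro i
    constructor
    · intro h
      rw [AddSubgroup.eq_top_iff']
      intro x
      rw [hpm i, h]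
      exact one_dvd _
    · intro h
      have h1 : (((1 : ℕ) : ZMod n)) ∈ ch π K i := by rw [h]; trivial
      have hn1 : 1 < n := lt_of_le_of_lt (hp1 i) (hplt i)
      rw [hpm i, ZMod.val_natCast, Nat.mod_eq_of_lt hn1] at h1
      exact Nat.dvd_one.1 h1
  refine ⟨p, hp1, hpdvd, hpm, hpn, hplt 0, hpchain, ?_, hone⟩
  intro i
  by_cases h1 : p i = 1
  · exact Or.inl h1
  · right
    have hnt : ch π K i ≠ ⊤ := fun h => h1 ((hone i).2 h)
    obtain ⟨x, hx, hnx⟩ := hesc (ch π K i) (hd_mem i) hnt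
    have hx' := hch_pi i x hx
    have hne : p (i + 1) ≠ p i := by
      intro h
      rw [hpm (i + 1), h, ← hpm i] at hx'
      exact hnx hx'
    obtain ⟨c, hc⟩ := hpchain i
    have hpi := hp1 i
    have hc2 : 2 ≤ c := by
      rcases c with _ | _ | c
      · omega
      · omega
      · omega
    calc 2 * p (i + 1) ≤ c * p (i + 1) := Nat.mul_le_mul_right _ hc2
      _ = p i := by rw [hc]; ring

end Pool.Agent.Helper85.Don
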