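import Pool.Agent.Helper85.Don.Defs

set_option autoImplicit false

namespace Pool.Agent.Helper85.Don



theorem level_exists_one (p : ℕ → ℕ) (hp : ∀ i, p i = 1 ∨ 2 * p (i + 1) ≤ p i)
    (hp1 : ∀ i, 1 ≤ p i) : ∃ i, p i = 1 := by
  by_contra hcon
  have hne : ∀ i, p i ≠ 1 := fun i hi => hcon ⟨i, hi⟩
  have hpow : ∀ i, p i * 2 ^ i ≤ p 0 := by
    intro i
    induction i with
    | zero => simp
    | succ i ih =>
      have h1 : 2 * p (i + 1) ≤ p i := (hp i).resolve_left (hne i)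
      calc p (i + 1) * 2 ^ (i + 1) = (2 * p (i + 1)) * 2 ^ i := by
            rw [pow_succ]
            ring
        _ ≤ p i * 2 ^ i := Nat.mul_le_mul_right _ h1
        _ ≤ p 0 := ih
  have h2 := hpow (p 0)
  have h3 : p 0 < 2 ^ p 0 := Nat.lt_two_pow_self
  have h4 : 1 * 2 ^ p 0 ≤ p (p 0) * 2 ^ p 0 := Nat.mul_le_mul_right _ (hp1 _)
  omega

theorem level_exists_top {n : ℕ} [NeZero n] (T : Finset (ZMod n))
    (hne : T.Nonempty) (hu : T ≠ Finset.univ) : ¬ Per (⊤ : AddSubgroup (ZMod n)) T := by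
  intro h
  obtain ⟨t, ht⟩ := hne
  apply hu
  refine Finset.eq_univ_of_forall fun u => ?_
  have h1 := h t ht (u - t) (AddSubgroup.mem_top _)
  rw [add_sub_cancel] at h1
  exact h1

theorem level_exists {n : ℕ} [NeZero n] (π : Equiv.Perm (ZMod n)) (K : AddSubgroup (ZMod n))
    (p : ℕ → ℕ) (hp : ∀ i, p i = 1 ∨ 2 * p (i + 1) ≤ p i)
    (htop : ∀ i, p i = 1 ↔ ch π K i = ⊤) (hp1 : ∀ i, 1 ≤ p i)
    (T : Finset (ZMod n)) (hT : Per K T)
    (hne : T.Nonempty) (hu : T ≠ Finset.univ) :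
    ∃ i : ℕ, Per (ch π K i) T ∧ ¬ Per (ch π K (i + 1)) T ∧ (∀ j ≤ i, Per (ch π K j) T) ∧
      (∀ j ≤ i, 2 ≤ p j) := by
  classical
  have hex : ∃ j, ¬ Per (ch π K j) T := by
    obtain ⟨i, hi⟩ := level_exists_one p hp hp1
    refine ⟨i, ?_⟩
    rw [(htop i).1 hi]
    exact level_exists_top T hne hu
  have hspec := Nat.find_spec hex
  have hmin : ∀ j, j < Nat.find hex → Per (ch π K j) T := by
    intro j hj
    by_contra hcon
    exact Nat.find_min hex hj hcon
  have hpos : 0 < Nat.find hex := by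
    rcases Nat.eq_zero_or_pos (Nat.find hex) with h0 | h0
    · exfalso
      rw [h0] at hspec
      exact hspec hT
    · exact h0
  obtain ⟨i, hi⟩ : ∃ i, Nat.find hex = i + 1 := ⟨Nat.find hex - 1, by omega⟩
  rw [hi] at hspec
  have hall : ∀ j ≤ i, Per (ch π K j) T := fun j hj => hmin j (by omega)
  refine ⟨i, hall i le_rfl, hspec, hall, fun j hj => ?_⟩
  have h1 := hp1 j
  rcases Nat.lt_or_ge 1 (p j) with h2 | h2
  · exact h2
  · exfalso
    have h3 : p j = 1 := by omega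
    have h4 := hall j hj
    rw [(htop j).1 h3] at h4
    exact level_exists_top T hne hu h4

end Pool.Agent.Helper85.Don
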