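import Pool.Agent.Helper85.Don.Defs
import Pool.Agent.Helper85.Don.P_card_per

set_option autoImplicit false

namespace Pool.Agent.Helper85.Don



theorem nt_cardK {n : ℕ} [NeZero n] (K : AddSubgroup (ZMod n)) {g M : ℕ} (hn : n = g * M)
    (hg : 0 < g) (hmem : ∀ x : ZMod n, x ∈ K ↔ g ∣ x.val) [DecidablePred (· ∈ K)] :
    (Finset.univ.filter (fun x : ZMod n => x ∈ K)).card = M := by
  have h : Finset.univ.filter (fun x : ZMod n => x ∈ K)
      = (Finset.range M).image (fun i => ((g * i : ℕ) : ZMod n)) := by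
    ext x
    simp only [Finset.mem_filter, Finset.mem_univ, true_and, Finset.mem_image, Finset.mem_range]
    rw [hmem]
    constructor
    · rintro ⟨i, hi⟩
      refine ⟨i, ?_, ?_⟩
      · have hlt := ZMod.val_lt x
        rw [hi, hn] at hlt
        exact Nat.lt_of_mul_lt_mul_left hlt
      · rw [← hi, ZMod.natCast_zmod_val]
    · rintro ⟨i, hi, rfl⟩
      have hlt : g * i < n := by
        rw [hn]
        exact Nat.mul_lt_mul_of_pos_left hi hg
      rw [ZMod.val_natCast, Nat.mod_eq_of_lt hlt]
      exact dvd_mul_right g i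
  rw [h, Finset.card_image_of_injOn, Finset.card_range]
  intro i hi j hj hij
  have hi' : g * i < n := by
    rw [hn]
    exact Nat.mul_lt_mul_of_pos_left (Finset.mem_range.mp hi) hg
  have hj' : g * j < n := by
    rw [hn]
    exact Nat.mul_lt_mul_of_pos_left (Finset.mem_range.mp hj) hg
  have h1 := congrArg ZMod.val hij
  simp only [] at h1
  rw [ZMod.val_natCast, ZMod.val_natCast, Nat.mod_eq_of_lt hi', Nat.mod_eq_of_lt hj'] at h1
  exact Nat.eq_of_mul_eq_mul_left hg h1

theorem nt_per {n : ℕ} [NeZero n] {d : ZMod n} (U : Finset (ZMod n))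
    (h : ∀ y ∈ U, y + d ∈ U) : Per (AddSubgroup.zmultiples d) U := by
  intro x hx κ hκ
  rw [← mem_multiples_iff_mem_zmultiples] at hκ
  obtain ⟨k, rfl⟩ := hκ
  show x + k • d ∈ U
  induction k with
  | zero => simpa using hx
  | succ k ih =>
    rw [succ_nsmul, ← add_assoc]
    exact h _ ih

theorem nonper_two {n : ℕ} [NeZero n] {π : Equiv.Perm (ZMod n)} {d : ZMod n}
    {B : Finset (ZMod n) → ℕ → Prop} {g M : ℕ} (w : W π d B g M) (U : Finset (ZMod n))
    (hcard : M ∣ U.card) (hU : ¬ Per (AddSubgroup.zmultiples d) U) :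
    ∃ y ∈ U, y + d ∉ U ∧ y ≠ -1 := by
  classical
  by_contra hcon
  push Not at hcon
  have hg0 : 0 < g := by have := w.hg; omega
  have hM0 : 0 < M := by have := w.hM; omega
  have hKc := nt_cardK (AddSubgroup.zmultiples d) w.hn hg0 w.mem
  have hKn : Nat.card (AddSubgroup.zmultiples d) = M := by
    rw [← hKc, Nat.card_eq_fintype_card, Fintype.card_subtype]
  have hdK : d ∈ AddSubgroup.zmultiples d := AddSubgroup.mem_zmultiples d
  -- `-1 ∈ U` and `-1 + d ∉ U`
  have h1 : (-1 : ZMod n) ∈ U ∧ (-1 + d : ZMod n) ∉ U := by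
    by_contra hno
    apply hU
    apply nt_per
    intro y hy
    by_contra hyd
    have := hcon y hy hyd
    subst this
    exact hno ⟨hy, hyd⟩
  obtain ⟨h1a, h1b⟩ := h1
  have hper : Per (AddSubgroup.zmultiples d)
      (U.filter (fun y => ¬ (y + 1 ∈ AddSubgroup.zmultiples d))) := by
    apply nt_per
    intro y hy
    rw [Finset.mem_filter] at hy ⊢
    refine ⟨?_, ?_⟩
    · by_contra hyd
      have := hcon y hy.1 hyd
      apply hy.2
      rw [this, neg_add_cancel]
      exact zero_mem _
    · intro hmem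
      apply hy.2
      have : y + 1 = (y + d + 1) - d := by ring
      rw [this]
      exact sub_mem hmem hdK
  have hd1 := card_per _ _ hper
  rw [hKn] at hd1
  have hsum := Finset.card_filter_add_card_filter_not (s := U)
    (p := fun y => y + 1 ∈ AddSubgroup.zmultiples d)
  have hd2 : M ∣ (U.filter (fun y => y + 1 ∈ AddSubgroup.zmultiples d)).card := by
    rw [← hsum] at hcard
    exact (Nat.dvd_add_left hd1).mp hcard
  have hpos : 0 < (U.filter (fun y => y + 1 ∈ AddSubgroup.zmultiples d)).card := by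
    apply Finset.card_pos.mpr
    refine ⟨-1, Finset.mem_filter.mpr ⟨h1a, ?_⟩⟩
    rw [neg_add_cancel]
    exact zero_mem _
  have hlt : (U.filter (fun y => y + 1 ∈ AddSubgroup.zmultiples d)).card < M := by
    have hsub : (U.filter (fun y => y + 1 ∈ AddSubgroup.zmultiples d)).image (fun y => y + 1)
        ⊆ (Finset.univ.filter (fun x : ZMod n => x ∈ AddSubgroup.zmultiples d)).erase d := by
      intro z hz
      obtain ⟨y, hy, rfl⟩ := Finset.mem_image.mp hz
      rw [Finset.mem_filter] at hy
      rw [Finset.mem_erase, Finset.mem_filter]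
      refine ⟨?_, Finset.mem_univ _, hy.2⟩
      rintro hyd
      apply h1b
      have : (-1 + d : ZMod n) = y := by rw [← hyd]; ring
      rw [this]
      exact hy.1
    have hc := Finset.card_le_card hsub
    rw [Finset.card_image_of_injective _ (add_left_injective 1),
      Finset.card_erase_of_mem (Finset.mem_filter.mpr ⟨Finset.mem_univ _, hdK⟩), hKc] at hc
    omega
  exact absurd (Nat.le_of_dvd hpos hd2) (by omega)

end Pool.Agent.Helper85.Don
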