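import Pool.Agent.Helper85.Don.Defs

set_option autoImplicit false

namespace Pool.Agent.Helper85.Don



theorem sigma1_pow (J : ℕ) : ∀ q : ℕ, 1 ≤ q →
    (∑ j ∈ Finset.range J, q / 2 ^ (j + 1)) + 1 ≤ q := by
  induction J with
  | zero => intro q hq; simpa using hq
  | succ J ih =>
    intro q hq
    rw [Finset.sum_range_succ']
    have h1 : ∀ j ∈ Finset.range J, q / 2 ^ (j + 1 + 1) = (q / 2) / 2 ^ (j + 1) := by
      intro j _
      rw [Nat.div_div_eq_div_mul, ← pow_succ']
    rw [Finset.sum_congr rfl h1]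
    rcases Nat.eq_zero_or_pos (q / 2) with h0 | h0
    · rw [h0]
      simp only [Nat.zero_div, Finset.sum_const_zero, zero_add, pow_one]
      rw [h0]
      omega
    · have h2 := ih (q / 2) h0
      simp only [zero_add, pow_one]
      omega

theorem sigma1 (g : ℕ) (N : ℕ → ℕ) (hN : ∀ j, 1 ≤ j → N j = g ∨ 2 ^ j ≤ N j) :
    ∃ σ : ℕ → ℕ, σ 0 = 0 ∧ σ 1 = 0 ∧ (∀ q, σ q ≤ q) ∧
      (∀ q, 1 ≤ q → q < g → σ q ≤ σ (q - 1) + 1) ∧
      (∀ q i, 2 ≤ q → q < g → (∀ j, 1 ≤ j → j ≤ i → N j ∣ q) → σ q + i ≤ σ (q - 1) + 1) := by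
  set θ : ℕ → ℕ := fun q => ∑ j ∈ Finset.range g, q / N (j + 1) with hθ
  have hmono : ∀ q, θ (q - 1) ≤ θ q := by
    intro q
    apply Finset.sum_le_sum
    intro j _
    exact Nat.div_le_div_right (Nat.sub_le q 1)
  have hb : ∀ q, 1 ≤ q → q < g → θ q + 1 ≤ q := by
    intro q hq hqg
    have h1 : θ q ≤ ∑ j ∈ Finset.range g, q / 2 ^ (j + 1) := by
      apply Finset.sum_le_sum
      intro j _
      rcases hN (j + 1) (by omega) with h | h
      · rw [h, Nat.div_eq_of_lt hqg]
        exact Nat.zero_le _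
      · exact Nat.div_le_div_left h (by positivity)
    have h2 := sigma1_pow g q hq
    omega
  have hc : ∀ q i, 2 ≤ q → q < g → (∀ j, 1 ≤ j → j ≤ i → N j ∣ q) → θ (q - 1) + i ≤ θ q := by
    intro q i hq hqg hd
    have hig : i ≤ g := by
      rcases Nat.eq_zero_or_pos i with h0 | h0
      · omega
      · have hdi := hd i h0 le_rfl
        have hle : N i ≤ q := Nat.le_of_dvd (by omega) hdi
        rcases hN i h0 with h | h
        · omega
        · have h3 : i < 2 ^ i := Nat.lt_two_pow_self
          omega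
    have h1 : θ (q - 1) + i =
        ∑ j ∈ Finset.range g, ((q - 1) / N (j + 1) + if j < i then 1 else 0) := by
      rw [Finset.sum_add_distrib]
      congr 1
      rw [← Finset.sum_filter, Finset.sum_const, smul_eq_mul, mul_one]
      have h4 : Finset.filter (fun j => j < i) (Finset.range g) = Finset.range i := by
        ext j
        simp only [Finset.mem_filter, Finset.mem_range]
        omega
      rw [h4, Finset.card_range]
    rw [h1]
    apply Finset.sum_le_sum
    intro j _
    by_cases hj : j < i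
    · rw [if_pos hj]
      have hdj := hd (j + 1) (by omega) (by omega)
      have h5 := Nat.succ_div (a := q - 1) (b := N (j + 1))
      have h6 : q - 1 + 1 = q := by omega
      rw [h6, if_pos hdj] at h5
      rw [h5]
    · rw [if_neg hj, add_zero]
      exact Nat.div_le_div_right (Nat.sub_le q 1)
  refine ⟨fun q => (q - 1) - θ q, by simp, by simp, ?_, ?_, ?_⟩
  · intro q
    show (q - 1) - θ q ≤ q
    omega
  · intro q hq hqg
    show (q - 1) - θ q ≤ (q - 1 - 1) - θ (q - 1) + 1
    have := hmono q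
    omega
  · intro q i hq hqg hd
    show (q - 1) - θ q + i ≤ (q - 1 - 1) - θ (q - 1) + 1
    have h1 := hc q i hq hqg hd
    have h2 := hb q (by omega) hqg
    omega

end Pool.Agent.Helper85.Don
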