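import Pool.Agent.Helper85.Don.Defs

set_option autoImplicit false

namespace Pool.Agent.Helper85.Don



theorem sigma2_geom (J : ℕ) : ∀ x : ℕ, 1 ≤ x → ∑ i ∈ Finset.range J, x / 2 ^ i ≤ 2 * x - 1 := by
  induction J with
  | zero => intro x hx; simp
  | succ J ih =>
    intro x hx
    rw [Finset.sum_range_succ']
    have h1 : ∀ i, x / 2 ^ (i + 1) = (x / 2) / 2 ^ i := by
      intro i
      rw [pow_succ', Nat.div_div_eq_div_mul]
    simp only [h1, pow_zero, Nat.div_one]
    rcases Nat.eq_zero_or_pos (x / 2) with h0 | h0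
    · simp only [h0, Nat.zero_div, Finset.sum_const_zero]
      omega
    · have := ih (x / 2) h0
      omega

theorem sigma2_geom' (g x : ℕ) (hx : 1 ≤ x) : ∑ j ∈ Finset.Icc 1 g, x / 2 ^ (j - 1) ≤ 2 * x - 1 := by
  refine le_trans (le_of_eq ?_) (sigma2_geom g x hx)
  refine Finset.sum_bij (fun j _ => j - 1) ?_ ?_ ?_ ?_
  · intro j hj
    rw [Finset.mem_Icc] at hj
    rw [Finset.mem_range]
    omega
  · intro j hj j' hj' h
    rw [Finset.mem_Icc] at hj hj'
    omega
  · intro i hi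
    rw [Finset.mem_range] at hi
    exact ⟨i + 1, by rw [Finset.mem_Icc]; omega, by simp⟩
  · intro j hj
    rfl

theorem sigma2 (g : ℕ) (N : ℕ → ℕ) (hN : ∀ j, 1 ≤ j → N j = g ∨ 3 * 2 ^ (j - 1) ≤ N j) :
    ∃ σ : ℕ → ℕ, σ 0 = 0 ∧ σ 1 = 0 ∧ (∀ q, σ q ≤ q) ∧
      (∀ q, 1 ≤ q → q < g → σ q ≤ σ (q - 1) + 1) ∧
      (∀ q i, 1 ≤ i → 2 ≤ q → q < g → (∀ j, 1 ≤ j → j ≤ i → N j ∣ q) →
        σ q + i ≤ σ (q - 1)) := by
  obtain ⟨θ, hθ⟩ : ∃ θ : ℕ → ℕ, θ = fun q => (∑ j ∈ Finset.Icc 1 g, q / N j) + q / N 1 := ⟨_, rfl⟩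
  have hθq : ∀ q, θ q = (∑ j ∈ Finset.Icc 1 g, q / N j) + q / N 1 := fun q => by rw [hθ]
  have hmono : ∀ q, θ (q - 1) ≤ θ q := by
    intro q
    rw [hθq, hθq]
    exact Nat.add_le_add (Finset.sum_le_sum fun j _ => Nat.div_le_div_right (Nat.sub_le q 1))
      (Nat.div_le_div_right (Nat.sub_le q 1))
  have hterm : ∀ q j, q < g → 1 ≤ j → q / N j ≤ (q / 3) / 2 ^ (j - 1) := by
    intro q j hq hj
    rcases hN j hj with h | h
    · rw [h, Nat.div_eq_of_lt hq]
      exact Nat.zero_le _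
    · rw [Nat.div_div_eq_div_mul]
      exact Nat.div_le_div_left h (by positivity)
  have hb : ∀ q, 1 ≤ q → q < g → θ q ≤ q - 1 := by
    intro q h1 hq
    rw [hθq]
    have h2 : q / N 1 ≤ q / 3 := by
      have := hterm q 1 hq le_rfl
      simpa using this
    have h3 : ∑ j ∈ Finset.Icc 1 g, q / N j ≤ ∑ j ∈ Finset.Icc 1 g, (q / 3) / 2 ^ (j - 1) :=
      Finset.sum_le_sum fun j hj => hterm q j hq (Finset.mem_Icc.1 hj).1
    rcases Nat.eq_zero_or_pos (q / 3) with h0 | h0
    · rw [h0] at h2 h3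
      simp only [Nat.zero_div, Finset.sum_const_zero] at h3
      omega
    · have h4 := sigma2_geom' g (q / 3) h0
      omega
  refine ⟨fun q => (q - 1) - θ q, by simp, by simp, fun q => by show q - 1 - θ q ≤ q; omega, ?_, ?_⟩
  · intro q h1 hq
    have := hmono q
    show (q - 1) - θ q ≤ (q - 1 - 1) - θ (q - 1) + 1
    omega
  · intro q i hi h2 hq hdiv
    have hNj : ∀ j, 1 ≤ j → j ≤ i → j ≤ g ∧ (q - 1) / N j + 1 ≤ q / N j := by
      intro j h1 hji
      have hd := hdiv j h1 hji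
      have hle : N j ≤ q := Nat.le_of_dvd (by omega) hd
      have h3 : 3 * 2 ^ (j - 1) ≤ N j := by
        rcases hN j h1 with h | h
        · omega
        · exact h
      have h4 : j - 1 < 2 ^ (j - 1) := Nat.lt_two_pow_self
      refine ⟨by omega, ?_⟩
      obtain ⟨k, hk⟩ := hd
      have hNpos : 0 < N j := by omega
      have hkpos : 0 < k := by
        rcases Nat.eq_zero_or_pos k with h | h
        · rw [h] at hk; omega
        · exact h
      have h5 : q / N j = k := by rw [hk]; exact Nat.mul_div_cancel_left k hNpos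
      have h6 : (q - 1) / N j < k := by
        rw [Nat.div_lt_iff_lt_mul hNpos, mul_comm, ← hk]
        omega
      omega
    have hsum : ∑ j ∈ Finset.Icc 1 g, (q - 1) / N j + i ≤ ∑ j ∈ Finset.Icc 1 g, q / N j := by
      have hcard : ∑ j ∈ Finset.Icc 1 g, (if j ≤ i then 1 else 0) = i := by
        rw [← Finset.card_filter]
        have hfil : (Finset.Icc 1 g).filter (fun j => j ≤ i) = Finset.Icc 1 i := by
          ext j
          rw [Finset.mem_filter, Finset.mem_Icc, Finset.mem_Icc]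
          constructor
          · rintro ⟨⟨a, b⟩, c⟩; exact ⟨a, c⟩
          · rintro ⟨a, c⟩; exact ⟨⟨a, (hNj j a c).1⟩, c⟩
        rw [hfil, Nat.card_Icc]
        omega
      calc ∑ j ∈ Finset.Icc 1 g, (q - 1) / N j + i
          = ∑ j ∈ Finset.Icc 1 g, ((q - 1) / N j + if j ≤ i then 1 else 0) := by
            rw [Finset.sum_add_distrib, hcard]
        _ ≤ ∑ j ∈ Finset.Icc 1 g, q / N j := by
            refine Finset.sum_le_sum fun j hj => ?_
            rw [Finset.mem_Icc] at hj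
            split_ifs with hji
            · exact (hNj j hj.1 hji).2
            · rw [add_zero]; exact Nat.div_le_div_right (Nat.sub_le q 1)
    have h7 := (hNj 1 le_rfl hi).2
    have h8 : θ (q - 1) + i + 1 ≤ θ q := by
      rw [hθq, hθq]
      omega
    have h9 := hb q (by omega) hq
    show (q - 1) - θ q + i ≤ (q - 1 - 1) - θ (q - 1)
    omega

end Pool.Agent.Helper85.Don
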