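import Pool.Agent.Helper85.Don.Defs
import Pool.Agent.Helper85.Don.P_red_step
import Pool.Agent.Helper85.Don.P_card_per
import Pool.Agent.Helper85.Don.P_walk
import Pool.Agent.Helper85.Don.P_nonper_two
import Pool.Agent.Helper85.Don.P_sigma1
import Pool.Agent.Helper85.Don.P_sigma2
import Pool.Agent.Helper85.Don.P_chain_facts
import Pool.Agent.Helper85.Don.P_level_exists
import Pool.Agent.Helper85.Don.P_block_main

set_option autoImplicit false

namespace Pool.Agent.Helper85.Don



theorem assembly_sigma {g : ℕ} {D : Prop} (p : ℕ → ℕ) (hp0 : p 0 = g) (hg : 3 ≤ g)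
    (hp1 : ∀ i, 1 ≤ p i) (hpd : ∀ i, p (i + 1) ∣ p i)
    (hph : ∀ i, p i = 1 ∨ 2 * p (i + 1) ≤ p i) :
    ∃ σ : ℕ → ℕ, σ 0 = 0 ∧ σ 1 = 0 ∧ (∀ q, σ q ≤ q) ∧
      (∀ q, 1 ≤ q → q < g → σ q ≤ σ (q - 1) + 1) ∧
      (∀ q i, 2 ≤ q → q < g → (∀ j, 1 ≤ j → j ≤ i → g / p j ∣ q) →
        ((D → g = 2 * p 1) → σ q + i ≤ σ (q - 1) + 1) ∧
        (¬ (D → g = 2 * p 1) → 1 ≤ i → σ q + i ≤ σ (q - 1))) := by
  have hstep : ∀ j, p j = 1 → p (j + 1) = 1 := fun j hj => by
    have := hpd j
    rw [hj] at this
    exact Nat.dvd_one.1 this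
  have hpg : p 1 ∣ g := by rw [← hp0]; exact hpd 0
  by_cases hsp : D → g = 2 * p 1
  · have hC : ∀ j, p j = 1 ∨ 2 ^ j * p j ≤ g := by
      intro j
      induction j with
      | zero => right; rw [hp0]; simp
      | succ j ih =>
        rcases ih with ih | ih
        · exact Or.inl (hstep j ih)
        · rcases hph j with h1 | h1
          · exact Or.inl (hstep j h1)
          · right
            calc 2 ^ (j + 1) * p (j + 1) = 2 ^ j * (2 * p (j + 1)) := by rw [pow_succ]; ring
              _ ≤ 2 ^ j * p j := Nat.mul_le_mul_left _ h1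
              _ ≤ g := ih
    obtain ⟨σ, h0, h1, h2, h3, h4⟩ := sigma1 g (fun j => g / p j) (fun j _ => by
      rcases hC j with h | h
      · left; simp [h]
      · right
        exact (Nat.le_div_iff_mul_le (hp1 j)).2 h)
    exact ⟨σ, h0, h1, h2, h3, fun q i hq hqg hN => ⟨fun _ => h4 q i hq hqg hN,
      fun hns => absurd hsp hns⟩⟩
  · have h3p : 3 * p 1 ≤ g := by
      obtain ⟨m, hm⟩ := hpg
      have hp11 := hp1 1
      rcases hph 0 with h | h
      · rw [hp0] at h; omega
      · rw [hp0, hm] at h
        simp only [zero_add] at h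
        have hm2 : 2 ≤ m := by
          by_contra hc
          have : m ≤ 1 := by omega
          have h5 : p 1 * m ≤ p 1 * 1 := Nat.mul_le_mul_left _ this
          omega
        have hm3 : m ≠ 2 := by
          rintro rfl
          apply hsp
          intro _
          rw [hm]; ring
        have hm4 : 3 ≤ m := by omega
        rw [hm]
        calc 3 * p 1 = p 1 * 3 := by ring
          _ ≤ p 1 * m := Nat.mul_le_mul_left _ hm4
    have hC : ∀ j, p (j + 1) = 1 ∨ 3 * 2 ^ j * p (j + 1) ≤ g := by
      intro j
      induction j with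
      | zero => right; simpa using h3p
      | succ j ih =>
        rcases ih with ih | ih
        · exact Or.inl (hstep (j + 1) ih)
        · rcases hph (j + 1) with h1 | h1
          · exact Or.inl (hstep (j + 1) h1)
          · right
            calc 3 * 2 ^ (j + 1) * p (j + 1 + 1) = 3 * 2 ^ j * (2 * p (j + 1 + 1)) := by
                  rw [pow_succ]; ring
              _ ≤ 3 * 2 ^ j * p (j + 1) := Nat.mul_le_mul_left _ h1
              _ ≤ g := ih
    obtain ⟨σ, h0, h1, h2, h3, h4⟩ := sigma2 g (fun j => g / p j) (fun j hj => by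
      obtain ⟨j', rfl⟩ : ∃ j', j = j' + 1 := ⟨j - 1, by omega⟩
      rcases hC j' with h | h
      · left; simp [h]
      · right
        rw [Nat.add_sub_cancel]
        exact (Nat.le_div_iff_mul_le (hp1 _)).2 h)
    exact ⟨σ, h0, h1, h2, h3, fun q i hq hqg hN => ⟨fun hs => absurd hs hsp,
      fun _ hi => h4 q i hi hq hqg hN⟩⟩

theorem assembly_val {n : ℕ} [NeZero n] (y : ZMod n) (hy : y ≠ -1) : y.val + 1 ≤ n - 1 := by
  have h1 : y.val < n := ZMod.val_lt y
  have h2 : y.val ≠ n - 1 := by
    intro h
    apply hy
    have h3 : ((y.val + 1 : ℕ) : ZMod n) = 0 := by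
      rw [show y.val + 1 = n by omega]
      exact ZMod.natCast_self n
    rw [Nat.cast_add, ZMod.natCast_zmod_val, Nat.cast_one] at h3
    exact eq_neg_of_add_eq_zero_left h3
  omega

theorem assembly_y {n : ℕ} [NeZero n] (d : ZMod n) (T : Finset (ZMod n))
    (hT : ¬ Per (AddSubgroup.zmultiples d) T) : ∃ y ∈ T, y + d ∉ T := by
  unfold Per at hT
  push Not at hT
  obtain ⟨x, hx, κ, hκ, hxκ⟩ := hT
  obtain ⟨z, hz⟩ := AddSubgroup.mem_zmultiples_iff.1 hκ
  have h1 : κ = ((z : ZMod n)).val • d := by
    rw [← hz, nsmul_eq_mul, ZMod.natCast_zmod_val, zsmul_eq_mul]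
  rw [h1] at hxκ
  obtain ⟨i, _, h2, h3⟩ := walk d T x _ hx hxκ
  refine ⟨x + i • d, h2, ?_⟩
  rw [add_assoc, ← succ_nsmul]
  exact h3

theorem assembly {n : ℕ} [NeZero n] {π : Equiv.Perm (ZMod n)} {d : ZMod n}
    {B : Finset (ZMod n) → ℕ → Prop} {g M : ℕ} (w : W π d B g M)
    (hMd : 4 ≤ M ∨ d = (g : ZMod n))
    (hesc : ∀ P : AddSubgroup (ZMod n), d ∈ P → P ≠ ⊤ → ∃ x ∈ P, π x ∉ P)
    (hq1 : ∀ T : Finset (ZMod n), T.card = M → Per (AddSubgroup.zmultiples d) T →
      T ≠ Finset.univ → (∀ V : Finset (ZMod n), V.card < T.card → B V (n * V.card)) →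
      B T (n * T.card))
    (T : Finset (ZMod n)) (hu : T ≠ Finset.univ) : B T (n * T.card) := by
  have hg := w.hg
  have hM := w.hM
  have hng : n = g * M := w.hn
  have hgn : g < n := by rw [hng]; nlinarith
  have hn0 : 0 < n := by omega
  set K := AddSubgroup.zmultiples d with hK
  have hdK : d ∈ K := AddSubgroup.mem_zmultiples d
  obtain ⟨p, hp1, hpn, hpm, hpc, hlt, hpd, hph, htop⟩ := chain_facts π d w.dne K hdK hesc
  have hp0 : p 0 = g := by
    apply Nat.dvd_antisymm
    · have h1 : ((g : ℕ) : ZMod n) ∈ K := by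
        rw [w.mem, ZMod.val_natCast, Nat.mod_eq_of_lt hgn]
      have h2 := (hpm 0 (g : ZMod n)).1 h1
      rwa [ZMod.val_natCast, Nat.mod_eq_of_lt hgn] at h2
    · have h1 : ((p 0 : ℕ) : ZMod n) ∈ ch π K 0 := by
        rw [hpm, ZMod.val_natCast, Nat.mod_eq_of_lt hlt]
      have h2 := (w.mem (p 0 : ZMod n)).1 h1
      rwa [ZMod.val_natCast, Nat.mod_eq_of_lt hlt] at h2
  have hp01 : 2 * p 1 ≤ p 0 := by
    rcases hph 0 with h | h
    · omega
    · exact h
  have hp10 : p 1 < p 0 := by have := hp1 1; omega
  have hKtop : K ≠ ⊤ := by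
    intro h
    have h1 := (htop 0).2 h
    omega
  obtain ⟨κ, hκ1, hκ2⟩ := hesc K hdK hKtop
  have hcardK : Nat.card K = M := by
    have h1 : n = p 0 * Nat.card K := hpc 0
    rw [hp0] at h1
    have h2 : g * M = g * Nat.card K := hng.symm.trans h1
    exact (Nat.eq_of_mul_eq_mul_left (by omega) h2).symm
  have hpg : ∀ j, p j ∣ g := by
    intro j
    induction j with
    | zero => rw [hp0]
    | succ j ih => exact (hpd j).trans ih
  obtain ⟨σ, s0, s1, s2, s3, s4⟩ := assembly_sigma (D := d = (g : ZMod n)) p hp0 hg hp1 hpd hph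
  have hcardlt : ∀ V : Finset (ZMod n), V ≠ Finset.univ → V.card < n := by
    intro V hV
    have h1 := Finset.card_lt_univ_of_notMem (s := V)
      (x := Classical.choose (by
        by_contra hc
        push Not at hc
        exact hV (Finset.eq_univ_iff_forall.2 hc) : ∃ x, x ∉ V))
      (Classical.choose_spec (by
        by_contra hc
        push Not at hc
        exact hV (Finset.eq_univ_iff_forall.2 hc) : ∃ x, x ∉ V))
    rwa [ZMod.card] at h1
  have claim : ∀ k : ℕ, ∀ T : Finset (ZMod n), T.card = k → T ≠ Finset.univ →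
      B T (n * k - σ (k / M)) := by
    intro k
    induction k using Nat.strong_induction_on with
    | _ k IH =>
    intro T hTk hu
    have hkn : k < n := by rw [← hTk]; exact hcardlt T hu
    have hqg : k / M < g := by
      rw [Nat.div_lt_iff_lt_mul (by omega)]
      rw [← hng]; exact hkn
    have IH' : ∀ V : Finset (ZMod n), V.card < k → B V (n * V.card - σ (V.card / M)) := by
      intro V hV
      refine IH V.card hV V rfl ?_
      rintro rfl
      rw [Finset.card_univ, ZMod.card] at hV
      omega
    rcases Nat.eq_zero_or_pos k with hk0 | hk0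
    · have hT0 : T = ∅ := by
        rw [← Finset.card_eq_zero, hTk, hk0]
      rw [hT0]
      exact w.cost.mono _ _ _ w.cost.empty (Nat.zero_le _)
    have hTne : T.Nonempty := by
      rw [← Finset.card_pos, hTk]; exact hk0
    by_cases hPer : Per K T
    · -- periodic
      have hMk : M ∣ k := by
        have := card_per K T hPer
        rwa [hcardK, hTk] at this
      obtain ⟨q, hq⟩ := hMk
      have hqM : k = q * M := by rw [hq]; ring
      have hkM : k / M = q := by rw [hqM]; exact Nat.mul_div_cancel q (by omega)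
      rw [hkM] at hqg ⊢
      have hq1' : 1 ≤ q := by
        rcases Nat.eq_zero_or_pos q with h | h
        · rw [h] at hqM; omega
        · exact h
      rcases Nat.lt_or_ge q 2 with hq2 | hq2
      · have hq1eq : q = 1 := by omega
        rw [hq1eq, s1, Nat.sub_zero, ← hTk]
        refine hq1 T (by rw [hTk, hqM, hq1eq, one_mul]) hPer hu ?_
        intro V hV
        rw [hTk] at hV
        exact w.cost.mono _ _ _ (IH' V hV) (Nat.sub_le _ _)
      · -- q ≥ 2
        have hsq := s2 (q - 1)
        have hMk' : M ≤ k := by rw [hqM]; nlinarith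
        have hbig : (M + 1) * n + (q - 1) ≤ n * k := by
          obtain ⟨q', rfl⟩ : ∃ q', q = q' + 1 := ⟨q - 1, by omega⟩
          rw [Nat.add_sub_cancel]
          have hq'1 : 1 ≤ q' := by omega
          rw [hqM]
          have e1 : n * ((q' + 1) * M) = M * n + n * (q' * M) := by ring
          have e2 : 2 * q' + 1 ≤ q' * M := by nlinarith
          have e3 : n * (2 * q' + 1) ≤ n * (q' * M) := Nat.mul_le_mul_left _ e2
          have e4 : 1 * q' ≤ n * q' := Nat.mul_le_mul_right _ hn0
          have e5 : n * (2 * q' + 1) = n * q' + n * q' + n := by ring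
          have e6 : (M + 1) * n = M * n + n := by ring
          omega
        obtain ⟨i, hi1, hi2, hi3, hi4⟩ := level_exists π K p hph htop hp1 T hPer hTne hu
        have hND : ∀ j, 1 ≤ j → j ≤ i → g / p j ∣ q := by
          intro j _ hji
          have h1 := card_per (ch π K j) T (hi3 j hji)
          rw [hTk, hqM] at h1
          obtain ⟨c, hc⟩ := hpg j
          have hpj := hp1 j
          have h2 : g / p j = c := by rw [hc]; exact Nat.mul_div_cancel_left c hpj
          have h3 : p j * Nat.card (ch π K j) = p j * (c * M) := by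
            rw [← hpc j, hng, hc]; ring
          have h4 := Nat.eq_of_mul_eq_mul_left hpj h3
          rw [h4] at h1
          rw [h2]
          exact Nat.dvd_of_mul_dvd_mul_right (by omega) h1
        have hIHb : ∀ (s : ℕ) (V : Finset (ZMod n)), 1 ≤ s → s ≤ M → V.card + s = k →
            B V (n * k - σ (q - 1) - s * n) := by
          intro s V hs1 hsM hVs
          have h1 := IH' V (by omega)
          have h2 : V.card / M = q - 1 := by
            rw [Nat.div_eq_iff (by omega)]
            obtain ⟨q', rfl⟩ : ∃ q', q = q' + 1 := ⟨q - 1, by omega⟩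
            rw [Nat.add_sub_cancel]
            have h3 : V.card + s = q' * M + M := by rw [hVs, hqM]; ring
            omega
          rw [h2] at h1
          refine w.cost.mono _ _ _ h1 (le_of_eq ?_)
          have h4 : n * k = n * V.card + s * n := by rw [← hVs]; ring
          omega
        have hbm := block_main w hMd ⟨κ, hκ1, hκ2⟩ p hp1 hpn hpm hpd hp10 hlt hp0 k
          (n * k - σ (q - 1)) ⟨q, hq⟩ hMk' (by omega) hIHb T hTk i hi4 hi1 hi2
        have hs4 := s4 q i hq2 hqg hND
        have hs3 := s3 q hq1' hqg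
        have hsq' := s2 q
        have hnk : q ≤ n * k := by
          have : k ≤ n * k := Nat.le_mul_of_pos_left _ hn0
          have : q ≤ k := by rw [hqM]; exact Nat.le_mul_of_pos_right _ (by omega)
          omega
        by_cases hsp : d = (g : ZMod n) → g = 2 * p 1
        · have h5 := hs4.1 hsp
          refine w.cost.mono _ _ _ (hbm.1 (fun hd _ => hsp hd)) ?_
          omega
        · have hdg : d = (g : ZMod n) := by
            by_contra hc
            exact hsp (fun h => absurd h hc)
          rcases Nat.eq_zero_or_pos i with hi0 | hi0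
          · refine w.cost.mono _ _ _ (hbm.1 (fun _ h => by omega)) ?_
            omega
          · have h5 := hs4.2 hsp hi0
            refine w.cost.mono _ _ _ (hbm.2 hdg hi0) ?_
            omega
    · -- not periodic
      by_cases hMk : M ∣ k
      · obtain ⟨y, hy, hyd, hy1⟩ := nonper_two w T (by rw [hTk]; exact hMk) hPer
        obtain ⟨hc1, hc2⟩ := red_step π d B w.cost w.zero T y hy hyd
        have hV := IH' (re π (sh T y)) (by omega)
        have hVk : (re π (sh T y)).card = k - 1 := by omega
        rw [hVk] at hV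
        have h1 := hc2 _ hV
        refine w.cost.mono _ _ _ h1 ?_
        have hyv := assembly_val y hy1
        obtain ⟨q, hq⟩ := hMk
        have hqM : k = q * M := by rw [hq]; ring
        have hkM : k / M = q := by rw [hqM]; exact Nat.mul_div_cancel q (by omega)
        have hq1' : 1 ≤ q := by
          rcases Nat.eq_zero_or_pos q with h | h
          · rw [h] at hqM; omega
          · exact h
        have hkM' : (k - 1) / M = q - 1 := by
          rw [Nat.div_eq_iff (by omega)]
          obtain ⟨q', rfl⟩ : ∃ q', q = q' + 1 := ⟨q - 1, by omega⟩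
          rw [Nat.add_sub_cancel]
          have h3 : k = q' * M + M := by rw [hqM]; ring
          omega
        rw [hkM, hkM']
        rw [hkM] at hqg
        have hs3 := s3 q hq1' hqg
        have hsq := s2 (q - 1)
        have hsq' := s2 q
        have h2 : n * k = n * (k - 1) + n := by
          obtain ⟨k', rfl⟩ : ∃ k', k = k' + 1 := ⟨k - 1, by omega⟩
          rw [Nat.add_sub_cancel]; ring
        have h3 : q - 1 ≤ n * (k - 1) := by
          have e1 : k - 1 ≤ n * (k - 1) := Nat.le_mul_of_pos_left _ hn0
          have e2 : q ≤ k := by rw [hqM]; exact Nat.le_mul_of_pos_right _ (by omega)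
          omega
        omega
      · obtain ⟨y, hy, hyd⟩ := assembly_y d T hPer
        obtain ⟨hc1, hc2⟩ := red_step π d B w.cost w.zero T y hy hyd
        have hV := IH' (re π (sh T y)) (by omega)
        have hVk : (re π (sh T y)).card = k - 1 := by omega
        rw [hVk] at hV
        have h1 := hc2 _ hV
        refine w.cost.mono _ _ _ h1 ?_
        have hyv : y.val < n := ZMod.val_lt y
        have hkM' : (k - 1) / M = k / M := by
          rw [Nat.div_eq_iff (by omega)]
          have h3 := Nat.div_add_mod k M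
          have h4 : k % M ≠ 0 := fun h => hMk (Nat.dvd_of_mod_eq_zero h)
          have h5 := Nat.mod_lt k (by omega : 0 < M)
          rw [mul_comm] at h3
          omega
        rw [hkM']
        have hsq := s2 (k / M)
        have h2 : n * k = n * (k - 1) + n := by
          obtain ⟨k', rfl⟩ : ∃ k', k = k' + 1 := ⟨k - 1, by omega⟩
          rw [Nat.add_sub_cancel]; ring
        have h3 : k / M ≤ n * (k - 1) := by
          have e1 : k - 1 ≤ n * (k - 1) := Nat.le_mul_of_pos_left _ hn0
          have e2 : k / M ≤ k - 1 := by rw [← hkM']; exact Nat.div_le_self _ _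
          omega
        omega
  exact w.cost.mono _ _ _ (claim T.card T rfl hu) (Nat.sub_le _ _)

end Pool.Agent.Helper85.Don
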