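import Pool.Agent.Helper85.Don.Main
import Pool.Agent.Helper85.Don.P_assembly
import Pool.Agent.Helper85.Don.P_first_valid

set_option autoImplicit false

namespace Pool.Agent.Helper85.Don

/-- The bound for all hole sets, if `K` and its image generate the group. -/
theorem gen_sets {n : ℕ} [NeZero n] (π : Equiv.Perm (ZMod n)) (d : ZMod n)
    (B : Finset (ZMod n) → ℕ → Prop) (hB : Cost π d B) (hπ : π 0 = 0) (hd : d ≠ 0)
    (hesc : orb π d ≠ ⊤ → ∃ x ∈ orb π d, π x ∉ orb π d)
    (hgen : AddSubgroup.closure ((orb π d : Set (ZMod n)) ∪ π '' (orb π d : Set (ZMod n))) = ⊤) :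
    ∀ k : ℕ, ∀ T : Finset (ZMod n), T.card = k → T ≠ Finset.univ → B T (n * T.card) := by
  have hn2 : 2 ≤ n := by
    by_contra hlt
    have h0 : n ≠ 0 := NeZero.ne n
    have h1 : n = 1 := by omega
    subst h1
    exact hd (Subsingleton.elim _ _)
  intro k
  induction k using Nat.strong_induction_on with
  | _ k IH =>
    intro T hTk hu
    have IH' : ∀ V : Finset (ZMod n), V.card < T.card → B V (n * V.card) := by
      intro V hV
      refine IH V.card (by omega) V rfl ?_
      rintro rfl
      have := Finset.card_le_univ T
      rw [Finset.card_univ] at hV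
      omega
    rcases T.eq_empty_or_nonempty with rfl | hne
    · simpa using hB.empty
    by_cases hT : Per (orb π d) T
    · by_cases htop : orb π d = ⊤
      · exfalso
        apply hu
        obtain ⟨t, ht⟩ := hne
        ext x
        simp only [Finset.mem_univ, iff_true]
        have := hT t ht (x - t) (by rw [htop]; exact AddSubgroup.mem_top _)
        simpa using this
      · exact main_per' π d B hB hπ hd (hesc htop) hgen T hT hne hu IH'
    · unfold Per at hT
      push Not at hT
      obtain ⟨x₀, hx₀, κ, hκ, hx⟩ := hT
      have hpos : 0 < T.card := Finset.card_pos.2 hne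
      have e1 : n * (T.card - 1) + n = n * T.card := by
        obtain ⟨j, hj⟩ : ∃ j, T.card = j + 1 := ⟨T.card - 1, by omega⟩
        rw [hj]; simp; ring
      rcases step_row π d B hB hπ hd T x₀ κ hx₀ hκ hx with ⟨y, hy, -, hyd⟩ | ⟨U', hU', hc⟩
      · obtain ⟨h1, h2⟩ := red_step π d B hB hπ T y hy hyd
        have h3 := h2 _ (IH' _ (by omega))
        have h4 : (re π (sh T y)).card = T.card - 1 := by omega
        rw [h4] at h3
        have := ZMod.val_lt y
        exact hB.mono _ _ _ h3 (by omega)
      · have h3 := hc _ (IH' U' (by omega))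
        have h4 : U'.card = T.card - 1 := by omega
        rw [h4] at h3
        exact hB.mono _ _ _ h3 (by omega)

theorem orb_fix {n : ℕ} [NeZero n] (π : Equiv.Perm (ZMod n)) (d : ZMod n) (hfix : π d = d) :
    orb π d = AddSubgroup.zmultiples d := by
  have h : ∀ i : ℕ, (π ^ i) d = d := by
    intro i
    induction i with
    | zero => rfl
    | succ i ih => rw [pow_succ, Equiv.Perm.mul_apply, hfix, ih]
  unfold orb
  have h2 : Set.range (fun i : ℕ => (π ^ i) d) = {d} := by
    ext x
    simp only [Set.mem_range, Set.mem_singleton_iff]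
    constructor
    · rintro ⟨i, rfl⟩
      exact h i
    · rintro rfl
      exact ⟨0, h 0⟩
  rw [h2, AddSubgroup.zmultiples_eq_closure]

/-- The bound if the permutation fixes `d`, outside of one family of automata. -/
theorem lam1 {n : ℕ} [NeZero n] (π : Equiv.Perm (ZMod n)) (d : ZMod n)
    (B : Finset (ZMod n) → ℕ → Prop) (hB : Cost π d B) (hπ : π 0 = 0) (hd : d ≠ 0)
    (hfix : π d = d)
    (hesc : ∀ P : AddSubgroup (ZMod n), d ∈ P → P ≠ ⊤ → ∃ x ∈ P, π x ∉ P)
    (hD : 3 * d.val ≠ 2 * n)
    (T : Finset (ZMod n)) (hu : T ≠ Finset.univ) : B T (n * T.card) := by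
  classical
  have horb := orb_fix π d hfix
  obtain ⟨g, hg1, hn, hmem⟩ := index_facts (AddSubgroup.zmultiples d)
  set K := AddSubgroup.zmultiples d with hKdef
  have hdK : d ∈ K := AddSubgroup.mem_zmultiples d
  have hesc' : orb π d ≠ ⊤ → ∃ x ∈ orb π d, π x ∉ orb π d := by
    rw [horb]; exact hesc K hdK
  by_cases hg : g ≤ 2
  · -- index one or two
    have hgen : AddSubgroup.closure ((orb π d : Set (ZMod n)) ∪
        π '' (orb π d : Set (ZMod n))) = ⊤ := by
      rw [horb]
      by_cases htop : K = ⊤
      · rw [eq_top_iff]
        intro x _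
        exact AddSubgroup.subset_closure (Or.inl (by rw [htop]; trivial))
      · obtain ⟨x, hx, hπx⟩ := hesc K hdK htop
        have hg2 : g = 2 := by
          rcases Nat.lt_or_ge g 2 with h | h
          · exfalso
            apply htop
            rw [eq_top_iff]
            intro z _
            rw [hmem]
            have : g = 1 := by omega
            rw [this]; exact one_dvd _
          · omega
        rw [eq_top_iff]
        intro z _
        by_cases hz : z ∈ K
        · exact AddSubgroup.subset_closure (Or.inl hz)
        · have h1 : z - π x ∈ K := by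
            rw [hmem, hg2]
            rw [hmem, hg2] at hz hπx
            have h2n : 2 ∣ n := by rw [hn, hg2]; exact dvd_mul_right _ _
            have h3 : (z - π x).val = (z.val + (n - (π x).val)) % n := by
              have h4 : z - π x = ((z.val + (n - (π x).val) : ℕ) : ZMod n) := by
                rw [Nat.cast_add, Nat.cast_sub (ZMod.val_lt _).le, ZMod.natCast_self,
                  ZMod.natCast_zmod_val, ZMod.natCast_zmod_val]
                ring
              rw [h4, ZMod.val_natCast]
            rw [h3, Nat.dvd_mod_iff h2n]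
            have := ZMod.val_lt (π x)
            omega
          have h5 : z = (z - π x) + π x := by ring
          rw [h5]
          exact add_mem (AddSubgroup.subset_closure (Or.inl h1))
            (AddSubgroup.subset_closure (Or.inr ⟨x, hx, rfl⟩))
    exact gen_sets π d B hB hπ hd hesc' hgen _ T rfl hu
  · -- index at least three
    have hg3 : 3 ≤ g := by omega
    have hKtop : K ≠ ⊤ := by
      intro htop
      have h1 : (1 : ZMod n) ∈ K := by rw [htop]; trivial
      rw [hmem] at h1
      have hn1 : 1 < n := by
        have : 0 < Nat.card K := Nat.card_pos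
        nlinarith
      rw [ZMod.val_one'' (by omega)] at h1
      have := Nat.le_of_dvd one_pos h1
      omega
    obtain ⟨xe, hxe, hπxe⟩ := hesc K hdK hKtop
    have hxe0 : xe ≠ 0 := by
      rintro rfl
      rw [hπ] at hπxe
      exact hπxe (zero_mem _)
    have hxed : xe ≠ d := by
      rintro rfl
      rw [hfix] at hπxe
      exact hπxe hdK
    have hM3 : 3 ≤ Nat.card K := by
      have h1 : ({(0 : ZMod n), d, xe} : Finset (ZMod n)).card = 3 := by
        rw [Finset.card_insert_of_notMem, Finset.card_insert_of_notMem, Finset.card_singleton]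
        · simpa using fun h => hxed h.symm
        · simp only [Finset.mem_insert, Finset.mem_singleton, not_or]
          exact ⟨fun h => hd h.symm, fun h => hxe0 h.symm⟩
      have h2 : (({(0 : ZMod n), d, xe} : Finset (ZMod n)) : Set (ZMod n)) ⊆ (K : Set (ZMod n)) := by
        intro z hz
        simp only [Finset.coe_insert, Finset.coe_singleton, Set.mem_insert_iff,
          Set.mem_singleton_iff] at hz
        rcases hz with rfl | rfl | rfl
        · exact zero_mem _
        · exact hdK
        · exact hxe
      have h3 := Set.ncard_le_ncard h2 (Set.toFinite _)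
      rw [Set.ncard_coe_finset, h1] at h3
      exact h3
    have w : W π d B g (Nat.card K) := ⟨hB, hπ, hd, hfix, hn, hM3, hg3, hmem⟩
    have hMd : 4 ≤ Nat.card K ∨ d = (g : ZMod n) := by
      rcases Nat.lt_or_ge (Nat.card K) 4 with h | h
      · have hM : Nat.card K = 3 := by omega
        rcases small_M w (by omega) with h1 | h1
        · exact Or.inr h1
        · exfalso
          apply hD
          have hgn : g < n := by rw [hn, hM]; omega
          have h2 : d = ((n - g : ℕ) : ZMod n) := by
            rw [h1, Nat.cast_sub hgn.le, ZMod.natCast_self, zero_sub]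
          have h3 : d.val = n - g := by
            rw [h2, ZMod.val_natCast]; exact Nat.mod_eq_of_lt (by omega)
          rw [h3, hn, hM]; omega
      · exact Or.inl h
    refine assembly w hMd hesc ?_ T hu
    intro V hVM hVper hVu hIH
    have hVne : V.Nonempty := by
      rw [← Finset.card_pos, hVM]; omega
    have hlt : Nat.card K < Nat.card (AddSubgroup.closure ((K : Set (ZMod n)) ∪
        π '' (K : Set (ZMod n)))) := by
      have hle : K ≤ AddSubgroup.closure ((K : Set (ZMod n)) ∪ π '' (K : Set (ZMod n))) :=
        fun z hz => AddSubgroup.subset_closure (Or.inl hz)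
      have hss : (K : Set (ZMod n)) ⊂ (AddSubgroup.closure ((K : Set (ZMod n)) ∪
          π '' (K : Set (ZMod n))) : Set (ZMod n)) := by
        refine ⟨hle, fun h => hπxe (h ?_)⟩
        exact AddSubgroup.subset_closure (Or.inr ⟨xe, hxe, rfl⟩)
      exact Set.ncard_lt_ncard hss (Set.toFinite _)
    have hnper : ¬ Per (AddSubgroup.closure ((K : Set (ZMod n)) ∪ π '' (K : Set (ZMod n)))) V := by
      intro hper
      have h1 := card_per _ V hper
      rw [hVM] at h1
      have := Nat.le_of_dvd (by omega) h1
      omega
    obtain ⟨c, -, hcV, κ, hκ, hcκ⟩ := first_valid π d B hB hπ K g hg1 ⟨_, hn⟩ hmem V hVper hnper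
    exact main_per_val π d B hB hπ hd (by rw [horb]; exact ⟨xe, hxe, hπxe⟩) V
      (by rw [horb]; exact hVper) hVne hVu ⟨(c : ZMod n), hcV, κ, by rw [horb]; exact hκ, hcκ⟩ hIH

end Pool.Agent.Helper85.Don
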