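import Pool.Agent.Helper85.Don.Defs

set_option autoImplicit false

namespace Pool.Agent.Helper85.Don



theorem k0_lemma {n : ℕ} [NeZero n] (π : Equiv.Perm (ZMod n)) (K : AddSubgroup (ZMod n))
    (T : Finset (ZMod n)) (hT : Per K T)
    (hV : ∀ c ∈ T, (∃ κ ∈ K, c + π κ ∉ T) → c + 1 ∈ K) (h1 : (-1 : ZMod n) ∈ T)
    (h2 : ∃ κ ∈ K, -1 + π κ ∉ T) (κ : ZMod n) (hκ : κ ∈ K) (hκT : -1 + π κ ∈ T) : π κ ∈ K := by
  by_contra hq
  have hVV : ∀ c ∈ T, c + 1 ∉ K → ∀ κ' ∈ K, c + π κ' ∈ T := by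
    intro c hc hcK κ' hκ'
    by_contra h
    exact hcK (hV c hc ⟨κ', hκ', h⟩)
  have claim : ∀ j : ℕ, -1 + j • π κ ∈ T := by
    intro j
    induction j with
    | zero => simpa using h1
    | succ j ih =>
      have e : (-1 : ZMod n) + (j + 1) • π κ = (-1 + π κ) + j • π κ := by
        rw [add_smul, one_smul]; ring
      by_cases hc : (-1 + j • π κ) + 1 ∈ K
      · have hc' : j • π κ ∈ K := by
          have e2 : (-1 + j • π κ) + 1 = j • π κ := by ring
          rwa [e2] at hc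
        rw [e]
        exact hT _ hκT _ hc'
      · have e3 : (-1 : ZMod n) + (j + 1) • π κ = (-1 + j • π κ) + π κ := by
          rw [add_smul, one_smul]; ring
        rw [e3]
        exact hVV _ ih hc κ hκ
  have hn : n • π κ = 0 := by
    rw [nsmul_eq_mul, ZMod.natCast_self, zero_mul]
  have hn1 : (n - 1) • π κ = - π κ := by
    have hpos : 1 ≤ n := Nat.one_le_iff_ne_zero.mpr (NeZero.ne n)
    have e4 : (n - 1) • π κ + π κ = 0 := by
      calc (n - 1) • π κ + π κ = (n - 1 + 1) • π κ := (succ_nsmul (π κ) (n - 1)).symm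
        _ = n • π κ := congrArg (fun k : ℕ => k • π κ) (Nat.sub_add_cancel hpos)
        _ = 0 := hn
    exact eq_neg_of_add_eq_zero_left e4
  have c1 : (-1 : ZMod n) + -π κ ∈ T := by
    have := claim (n - 1)
    rwa [hn1] at this
  obtain ⟨κ2, hκ2, h2'⟩ := h2
  have c2 : (-1 : ZMod n) + -π κ + 1 ∉ K := by
    have e5 : (-1 : ZMod n) + -π κ + 1 = - π κ := by ring
    rw [e5]
    intro h
    exact hq (by simpa using K.neg_mem h)
  have c3 := hVV _ c1 c2 κ2 hκ2
  by_cases hk : π κ2 - π κ ∈ K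
  · apply h2'
    have := hT _ hκT _ hk
    have e6 : (-1 : ZMod n) + π κ + (π κ2 - π κ) = -1 + π κ2 := by ring
    rwa [e6] at this
  · have c4 : (-1 : ZMod n) + -π κ + π κ2 + 1 ∉ K := by
      have e7 : (-1 : ZMod n) + -π κ + π κ2 + 1 = π κ2 - π κ := by ring
      rw [e7]
      exact hk
    have c5 := hVV _ c3 c4 κ hκ
    apply h2'
    have e8 : (-1 : ZMod n) + -π κ + π κ2 + π κ = -1 + π κ2 := by ring
    rwa [e8] at c5

end Pool.Agent.Helper85.Don
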