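import Pool.Agent.Helper85.Don.Defs

set_option autoImplicit false

namespace Pool.Agent.Helper85.Don



theorem h400_closed {n : ℕ} [NeZero n] (Q : Set (ZMod n)) (S : Set (ZMod n))
    (h : ∀ s ∈ S, ∀ y ∈ Q, y + s ∈ Q) :
    ∀ κ ∈ AddSubgroup.closure S, ∀ y ∈ Q, y + κ ∈ Q := by
  intro κ hκ
  induction hκ using AddSubgroup.closure_induction with
  | mem x hx => exact h x hx
  | zero =>
    intro y hy
    rwa [add_zero]
  | add a b _ _ ha hb =>
    intro y hy
    rw [← add_assoc]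
    exact hb _ (ha y hy)
  | neg a _ ha =>
    have h1 : ∀ k : ℕ, ∀ y ∈ Q, y + k • a ∈ Q := by
      intro k
      induction k with
      | zero =>
        intro y hy
        rwa [zero_nsmul, add_zero]
      | succ k ih =>
        intro y hy
        rw [succ_nsmul, ← add_assoc]
        exact ha _ (ih y hy)
    intro y hy
    have h2 : -a = (n - 1) • a := by
      have h3 : n • a = 0 := by
        rw [nsmul_eq_mul, ZMod.natCast_self, zero_mul]
      have h4 : (n - 1) • a + a = 0 := by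
        rw [← succ_nsmul, Nat.sub_add_cancel (Nat.one_le_iff_ne_zero.mpr (NeZero.ne n))]
        exact h3
      exact (eq_neg_of_add_eq_zero_left h4).symm
    rw [h2]
    exact h1 _ y hy

def h400_kn {n : ℕ} [NeZero n] (π : Equiv.Perm (ZMod n)) (j : ℕ) (W : Finset (ZMod n)) :
    Finset (ZMod n) :=
  Finset.univ.filter (fun x => (π ^ j) x ∈ W)

theorem h400_keepn {n : ℕ} [NeZero n] (π : Equiv.Perm (ZMod n)) (d : ZMod n)
    (B : Finset (ZMod n) → ℕ → Prop) (hB : Cost π d B) (hπ : π 0 = 0) (j : ℕ) :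
    ∀ (W : Finset (ZMod n)) (c : ℕ), (0 : ZMod n) ∈ W → B (h400_kn π j W) c → B W (c + j) := by
  induction j with
  | zero =>
    intro W c _ h
    have h1 : h400_kn π 0 W = W := by
      ext x
      rw [h400_kn, Finset.mem_filter]
      simp
    rwa [h1] at h
  | succ j ih =>
    intro W c h0 h
    have h1 : h400_kn π (j + 1) W = h400_kn π j (ke π W) := by
      ext x
      rw [h400_kn, h400_kn, Finset.mem_filter, Finset.mem_filter, ke, Finset.mem_filter, pow_succ']
      simp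
    rw [h1] at h
    have h2 : (0 : ZMod n) ∈ ke π W := by
      rw [ke, Finset.mem_filter, hπ]
      exact ⟨Finset.mem_univ _, h0⟩
    have h3 := ih (ke π W) c h2 h
    exact hB.keep W (c + j) h0 h3

theorem h400_pow_zero {n : ℕ} [NeZero n] (π : Equiv.Perm (ZMod n)) (hπ : π 0 = 0) (j : ℕ) :
    (π ^ j) 0 = 0 := by
  induction j with
  | zero => simp
  | succ j ih =>
    rw [pow_succ, Equiv.Perm.mul_apply, hπ, ih]

theorem h400_rep {n : ℕ} [NeZero n] (D : AddSubgroup (ZMod n)) (ht : 0 < D.index)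
    (y : ZMod n) : ∃ δ ∈ D, (y - δ).val < D.index := by
  have h1 : ((D.index : ℕ) : ZMod n) ∈ D := by
    have := D.nsmul_index_mem (1 : ZMod n)
    rwa [nsmul_eq_mul, mul_one] at this
  refine ⟨(y.val / D.index) • ((D.index : ℕ) : ZMod n), D.nsmul_mem h1 _, ?_⟩
  have h2 : y - (y.val / D.index) • ((D.index : ℕ) : ZMod n) =
      ((y.val % D.index : ℕ) : ZMod n) := by
    have h3 : y = ((y.val : ℕ) : ZMod n) := (ZMod.natCast_zmod_val y).symm
    have h4 : y.val = D.index * (y.val / D.index) + y.val % D.index :=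
      (Nat.div_add_mod _ _).symm
    rw [sub_eq_iff_eq_add]
    calc y = ((y.val : ℕ) : ZMod n) := h3
      _ = ((D.index * (y.val / D.index) + y.val % D.index : ℕ) : ZMod n) := by rw [← h4]
      _ = _ := by
        rw [nsmul_eq_mul]
        push_cast
        ring
  rw [h2, ZMod.val_natCast]
  exact (Nat.mod_le _ _).trans_lt (Nat.mod_lt _ ht)

theorem h400_card {n : ℕ} [NeZero n] (e : Equiv.Perm (ZMod n)) (U : Finset (ZMod n)) :
    (Finset.univ.filter (fun x => e x ∈ U)).card = U.card := by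
  apply Finset.card_bij (fun x _ => e x)
  · intro x hx
    exact (Finset.mem_filter.mp hx).2
  · intro x _ y _ h
    exact e.injective h
  · intro u hu
    refine ⟨e.symm u, ?_, ?_⟩
    · rw [Finset.mem_filter, Equiv.apply_symm_apply]
      exact ⟨Finset.mem_univ _, hu⟩
    · exact Equiv.apply_symm_apply e u

theorem h400_arith (n m t j y c : ℕ) (hn : m * t = n) (hm : 2 ≤ m) (ht : 2 ≤ t) (hj : j + 1 ≤ m)
    (hy : y < t) : c + 1 + j + y ≤ c + (n / 2 + 1) := by
  obtain ⟨a, rfl⟩ : ∃ a, m = a + 2 := ⟨m - 2, by omega⟩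
  obtain ⟨b, rfl⟩ : ∃ b, t = b + 2 := ⟨t - 2, by omega⟩
  have h1 : 2 * (a + b + 2) ≤ n := by
    rw [← hn]
    nlinarith [Nat.zero_le (a * b)]
  omega

theorem step_row {n : ℕ} [NeZero n] (π : Equiv.Perm (ZMod n)) (d : ZMod n)
    (B : Finset (ZMod n) → ℕ → Prop) (hB : Cost π d B) (hπ : π 0 = 0) (hd : d ≠ 0)
    (U : Finset (ZMod n)) (x₀ κ : ZMod n) (hx₀ : x₀ ∈ U) (hκ : κ ∈ orb π d) (hx : x₀ + κ ∉ U) :
    (∃ y ∈ U, y - x₀ ∈ orb π d ∧ y + d ∉ U) ∨
    (∃ U' : Finset (ZMod n), U'.card + 1 = U.card ∧ ∀ c, B U' c → B U (c + (n / 2 + 1))) := by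
  classical
  by_cases hcase : ∃ y ∈ U, y - x₀ ∈ orb π d ∧ y + d ∉ U
  · exact Or.inl hcase
  right
  push Not at hcase
  obtain ⟨Q, hQ⟩ : ∃ Q : Set (ZMod n), Q = {y | y ∈ U ∧ y - x₀ ∈ orb π d} := ⟨_, rfl⟩
  have hQm : ∀ y, y ∈ Q ↔ y ∈ U ∧ y - x₀ ∈ orb π d := by
    intro y
    rw [hQ]
    rfl
  have hgen : ∀ i : ℕ, (π ^ i) d ∈ orb π d := fun i => AddSubgroup.subset_closure ⟨i, rfl⟩
  have hx₀Q : x₀ ∈ Q := by
    rw [hQm, sub_self]
    exact ⟨hx₀, AddSubgroup.zero_mem _⟩
  -- a sum stays in Q as soon as it stays in U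
  have hQadd : ∀ y ∈ Q, ∀ s ∈ orb π d, y + s ∈ U → y + s ∈ Q := by
    intro y hy s hs h
    rw [hQm] at hy ⊢
    refine ⟨h, ?_⟩
    rw [add_sub_right_comm]
    exact AddSubgroup.add_mem _ hy.2 hs
  have hex : ∃ j : ℕ, ∃ y ∈ Q, y + (π ^ j) d ∉ U := by
    by_contra hcon
    push Not at hcon
    apply hx
    have h1 := h400_closed Q (Set.range (fun i : ℕ => (π ^ i) d)) (by
      rintro s ⟨i, rfl⟩ y hy
      exact hQadd y hy _ (hgen i) (hcon i y hy)) κ hκ x₀ hx₀Q
    exact ((hQm _).mp h1).1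
  obtain ⟨j, hj⟩ : ∃ j, j = Nat.find hex := ⟨_, rfl⟩
  have hj1 := Nat.find_spec hex
  rw [← hj] at hj1
  have hj2 : ∀ i < j, ∀ y ∈ Q, y + (π ^ i) d ∈ U := by
    intro i hi y hy
    rw [hj] at hi
    have := Nat.find_min hex hi
    push Not at this
    exact this y hy
  obtain ⟨y, hyQ, hyj⟩ := hj1
  have hj0 : 1 ≤ j := by
    by_contra hcon
    have hj00 : j = 0 := by omega
    rw [hj00, pow_zero, Equiv.Perm.one_apply] at hyj
    have hy' := (hQm y).mp hyQ
    exact hyj (hcase y hy'.1 hy'.2)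
  obtain ⟨D, hD⟩ : ∃ D : AddSubgroup (ZMod n),
      D = AddSubgroup.closure (Set.range (fun i : Fin j => (π ^ (i : ℕ)) d)) := ⟨_, rfl⟩
  have hDQ : ∀ δ ∈ D, ∀ y ∈ Q, y + δ ∈ Q := by
    rw [hD]
    apply h400_closed
    rintro s ⟨i, rfl⟩ y hy
    exact hQadd y hy _ (hgen i) (hj2 i i.2 y hy)
  have hjD : (π ^ j) d ∉ D := by
    intro h
    exact hyj (((hQm _).mp (hDQ _ h y hyQ)).1)
  have hDtop : D ≠ ⊤ := by
    intro h
    rw [h] at hjD
    exact hjD (AddSubgroup.mem_top _)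
  have hmem : ∀ i : Fin j, (π ^ (i : ℕ)) d ∈ D := by
    intro i
    rw [hD]
    exact AddSubgroup.subset_closure ⟨i, rfl⟩
  have hne0 : ∀ i : ℕ, (π ^ i) d ≠ 0 := by
    intro i h
    apply hd
    apply (π ^ i).injective
    rw [h, h400_pow_zero π hπ]
  have hdist : ∀ i i' : ℕ, i < i' → i' < j → (π ^ i) d ≠ (π ^ i') d := by
    intro i i' hi hi' h
    have h1 : (π ^ (j - i' + i)) d = (π ^ j) d := by
      rw [pow_add, Equiv.Perm.mul_apply, h, ← Equiv.Perm.mul_apply, ← pow_add,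
        Nat.sub_add_cancel hi'.le]
    have h2 := hj2 (j - i' + i) (by omega) y hyQ
    rw [h1] at h2
    exact hyj h2
  have hcard : j + 1 ≤ Nat.card D := by
    have hinj : Function.Injective (fun o : Option (Fin j) =>
        (match o with
          | none => (0 : D)
          | some i => (⟨(π ^ (i : ℕ)) d, hmem i⟩ : D))) := by
      rintro (_ | i) (_ | i') h
      · rfl
      · exact absurd (congrArg Subtype.val h).symm (hne0 _)
      · exact absurd (congrArg Subtype.val h) (hne0 _)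
      · have h' : (π ^ (i : ℕ)) d = (π ^ (i' : ℕ)) d := congrArg Subtype.val h
        rcases lt_trichotomy (i : ℕ) (i' : ℕ) with h1 | h1 | h1
        · exact absurd h' (hdist _ _ h1 i'.2)
        · rw [Fin.ext h1]
        · exact absurd h'.symm (hdist _ _ h1 i.2)
    have h1 := Nat.card_le_card_of_injective _ hinj
    have h2 : Nat.card (Option (Fin j)) = j + 1 := by
      rw [Nat.card_eq_fintype_card, Fintype.card_option, Fintype.card_fin]
    rwa [h2] at h1
  have hLag : Nat.card D * D.index = n := by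
    rw [AddSubgroup.card_mul_index, Nat.card_zmod]
  have ht0 : D.index ≠ 0 := by
    intro h
    rw [h, mul_zero] at hLag
    exact NeZero.ne n hLag.symm
  have ht1 : D.index ≠ 1 := by
    intro h
    exact hDtop (AddSubgroup.index_eq_one.mp h)
  obtain ⟨δ, hδ, hδv⟩ := h400_rep D (Nat.pos_of_ne_zero ht0) y
  obtain ⟨z, hz⟩ : ∃ z, z = y - δ := ⟨_, rfl⟩
  rw [← hz] at hδv
  have hzQ : z ∈ Q := by
    rw [hz, sub_eq_add_neg]
    exact hDQ _ (D.neg_mem hδ) y hyQ
  have hzj : z + (π ^ j) d ∉ U := by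
    intro h
    have h1 := hQadd z hzQ _ (hgen j) h
    have h2 := ((hQm _).mp (hDQ δ hδ _ h1)).1
    apply hyj
    have h3 : z + (π ^ j) d + δ = y + (π ^ j) d := by
      rw [hz]
      ring
    rwa [h3] at h2
  have hzU : z ∈ U := ((hQm z).mp hzQ).1
  have h0W : (0 : ZMod n) ∈ sh U z := by
    rw [sh, Finset.mem_filter, zero_add]
    exact ⟨Finset.mem_univ _, hzU⟩
  refine ⟨re π (h400_kn π j (sh U z)), ?_, ?_⟩
  · have h1 := h400_card ((π.trans (π ^ j)).trans (Equiv.addRight z)) U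
    have h2 : re π (h400_kn π j (sh U z)) =
        (Finset.univ.filter (fun x => ((π.trans (π ^ j)).trans (Equiv.addRight z)) x ∈ U)).erase 0 := by
      ext x
      simp only [re, h400_kn, sh, Finset.mem_filter, Finset.mem_erase, Finset.mem_univ, true_and,
        Equiv.trans_apply, Equiv.coe_addRight]
    rw [h2, Finset.card_erase_of_mem, h1]
    · have : 0 < U.card := Finset.card_pos.mpr ⟨z, hzU⟩
      omega
    · simp only [Finset.mem_filter, Finset.mem_univ, true_and, Equiv.trans_apply,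
        Equiv.coe_addRight]
      rw [hπ, h400_pow_zero π hπ, zero_add]
      exact hzU
  · intro c hc
    have h1 : (0 : ZMod n) ∈ h400_kn π j (sh U z) := by
      rw [h400_kn, Finset.mem_filter, h400_pow_zero π hπ]
      exact ⟨Finset.mem_univ _, h0W⟩
    have h2 : d ∉ h400_kn π j (sh U z) := by
      rw [h400_kn, Finset.mem_filter, sh, Finset.mem_filter]
      rintro ⟨-, -, h⟩
      rw [add_comm] at h
      exact hzj h
    have h3 := hB.rem _ c h1 h2 hc
    have h4 := h400_keepn π d B hB hπ j (sh U z) (c + 1) h0W h3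
    have h5 := hB.rot U z _ h4
    exact hB.mono U _ _ h5 (h400_arith n (Nat.card D) D.index j z.val c hLag (by omega)
      (by omega) hcard hδv)

end Pool.Agent.Helper85.Don
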