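import Pool.Agent.Helper85.Don.P_cost_phi
import Pool.Agent.Helper85.Don.P_index_facts
import Pool.Agent.Helper85.Don.P_k0_lemma
import Pool.Agent.Helper85.Don.P_card_per
import Pool.Agent.Helper85.Don.P_red_step
import Pool.Agent.Helper85.Don.P_exists_valid
import Pool.Agent.Helper85.Don.P_claimA
import Pool.Agent.Helper85.Don.P_step_row
import Pool.Agent.Helper85.Don.P_near_per

set_option autoImplicit false

namespace Pool.Agent.Helper85.Don

theorem mem_sh {n : ℕ} [NeZero n] (T : Finset (ZMod n)) (y x : ZMod n) :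
    x ∈ sh T y ↔ x + y ∈ T := by simp [sh]

theorem mem_ke {n : ℕ} [NeZero n] (π : Equiv.Perm (ZMod n)) (T : Finset (ZMod n)) (x : ZMod n) :
    x ∈ ke π T ↔ π x ∈ T := by simp [ke]

theorem mem_re {n : ℕ} [NeZero n] (π : Equiv.Perm (ZMod n)) (T : Finset (ZMod n)) (x : ZMod n) :
    x ∈ re π T ↔ x ≠ 0 ∧ π x ∈ T := by simp [re]

theorem card_sh {n : ℕ} [NeZero n] (T : Finset (ZMod n)) (y : ZMod n) :
    (sh T y).card = T.card := by
  apply Finset.card_bij (fun x _ => x + y)
  · intro x hx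
    exact (mem_sh T y x).1 hx
  · intro a _ b _ h
    exact add_right_cancel h
  · intro b hb
    exact ⟨b - y, (mem_sh T y _).2 (by simpa using hb), by simp⟩

theorem card_ke {n : ℕ} [NeZero n] (π : Equiv.Perm (ZMod n)) (T : Finset (ZMod n)) :
    (ke π T).card = T.card := by
  apply Finset.card_bij (fun x _ => π x)
  · intro x hx
    exact (mem_ke π T x).1 hx
  · intro a _ b _ h
    exact π.injective h
  · intro b hb
    exact ⟨π.symm b, (mem_ke π T _).2 (by simpa using hb), by simp⟩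

theorem card_re {n : ℕ} [NeZero n] (π : Equiv.Perm (ZMod n)) (T : Finset (ZMod n))
    (hπ : π 0 = 0) (h0 : (0 : ZMod n) ∈ T) : (re π T).card + 1 = T.card := by
  have h1 : re π T = (ke π T).erase 0 := by
    ext x
    rw [mem_re, Finset.mem_erase, mem_ke]
  rw [h1, Finset.card_erase_of_mem ((mem_ke π T 0).2 (by rw [hπ]; exact h0)), card_ke]
  have : 0 < T.card := Finset.card_pos.2 ⟨0, h0⟩
  omega

/-- Sets with a partial row `K`. -/
theorem rowK {n : ℕ} [NeZero n] (π : Equiv.Perm (ZMod n)) (d : ZMod n)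
    (B : Finset (ZMod n) → ℕ → Prop) (hB : Cost π d B) (hπ : π 0 = 0) (hd : d ≠ 0)
    (g : ℕ) (hg1 : 1 ≤ g) (hn : n = g * Nat.card (orb π d)) (hM : 2 ≤ Nat.card (orb π d))
    (hmem : ∀ x : ZMod n, x ∈ orb π d ↔ g ∣ x.val)
    (U : Finset (ZMod n)) (IH : ∀ V : Finset (ZMod n), V.card < U.card → B V (n * V.card))
    (x₀ y₀ : ZMod n) (hx₀ : x₀ ∈ U) (hx₀K : x₀ ∈ orb π d) (hy₀ : y₀ ∉ U)
    (hy₀K : y₀ ∈ orb π d) : B U (n * (U.card - 1) + (n - g + 1)) := by
  have h2g : 2 * g ≤ n := by
    rw [hn]; nlinarith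
  have hx : x₀ + (y₀ - x₀) ∉ U := by
    rw [add_sub_cancel]; exact hy₀
  rcases step_row π d B hB hπ hd U x₀ (y₀ - x₀) hx₀ ((orb π d).sub_mem hy₀K hx₀K) hx with
    ⟨y, hyU, hyK, hyd⟩ | ⟨U', hU', hc⟩
  · have hyK' : y ∈ orb π d := by
      have := (orb π d).add_mem hyK hx₀K
      simpa using this
    obtain ⟨a, ha⟩ := (hmem y).1 hyK'
    have hylt := ZMod.val_lt y
    have hyle : y.val ≤ n - g := by
      rw [ha]
      rw [ha] at hylt
      have h3 : g * a < g * Nat.card (orb π d) := by rw [← hn]; exact hylt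
      have h4 : a < Nat.card (orb π d) := lt_of_mul_lt_mul_left h3 (Nat.zero_le g)
      have h5 : g * (a + 1) ≤ g * Nat.card (orb π d) := Nat.mul_le_mul_left g h4
      rw [← hn] at h5
      have h6 : g * (a + 1) = g * a + g := by ring
      omega
    obtain ⟨h1, h2⟩ := red_step π d B hB hπ U y hyU hyd
    have h3 := h2 _ (IH _ (by omega))
    have h4 : (re π (sh U y)).card = U.card - 1 := by omega
    rw [h4] at h3
    exact hB.mono _ _ _ h3 (by omega)
  · have h3 := hc _ (IH U' (by omega))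
    have h4 : U'.card = U.card - 1 := by omega
    rw [h4] at h3
    exact hB.mono _ _ _ h3 (by omega)

theorem main_per_val {n : ℕ} [NeZero n] (π : Equiv.Perm (ZMod n)) (d : ZMod n)
    (B : Finset (ZMod n) → ℕ → Prop) (hB : Cost π d B) (hπ : π 0 = 0) (hd : d ≠ 0)
    (hesc : ∃ x ∈ orb π d, π x ∉ orb π d)
    (T : Finset (ZMod n)) (hT : Per (orb π d) T) (hne : T.Nonempty) (hu : T ≠ Finset.univ)
    (hval : ∃ c ∈ T, ∃ κ ∈ orb π d, c + π κ ∉ T)
    (IH : ∀ V : Finset (ZMod n), V.card < T.card → B V (n * V.card)) : B T (n * T.card) := by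
  classical
  obtain ⟨g, hg1, hn, hmem⟩ := index_facts (orb π d)
  have hπK : ∀ i : ℕ, (π ^ i) d ∈ orb π d := fun i => AddSubgroup.subset_closure ⟨i, rfl⟩
  have hdK : d ∈ orb π d := by simpa using hπK 0
  have hπdK : π d ∈ orb π d := by simpa using hπK 1
  obtain ⟨xe, hxe, hπxe⟩ := hesc
  have hxe0 : xe ≠ 0 := by
    rintro rfl
    rw [hπ] at hπxe
    exact hπxe (zero_mem _)
  have hxed : xe ≠ d := by
    rintro rfl
    exact hπxe hπdK
  have hM3 : 3 ≤ Nat.card (orb π d) := by
    have h1 : ({(0 : ZMod n), d, xe} : Finset (ZMod n)).card = 3 := by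
      rw [Finset.card_insert_of_notMem, Finset.card_insert_of_notMem, Finset.card_singleton]
      · simpa using fun h => hxed h.symm
      · simp only [Finset.mem_insert, Finset.mem_singleton, not_or]
        exact ⟨fun h => hd h.symm, fun h => hxe0 h.symm⟩
    have h2 : (({(0 : ZMod n), d, xe} : Finset (ZMod n)) : Set (ZMod n)) ⊆ (orb π d : Set (ZMod n)) := by
      intro z hz
      simp only [Finset.coe_insert, Finset.coe_singleton, Set.mem_insert_iff,
        Set.mem_singleton_iff] at hz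
      rcases hz with rfl | rfl | rfl
      · exact zero_mem _
      · exact hdK
      · exact hxe
    have h3 := Set.ncard_le_ncard h2 (Set.toFinite _)
    rw [Set.ncard_coe_finset, h1] at h3
    exact h3
  set M := Nat.card (orb π d) with hMdef
  have h3g : 3 * g ≤ n := by rw [hn]; nlinarith
  have hg2 : 2 ≤ g := by
    by_contra hlt
    have hg : g = 1 := by omega
    apply hu
    obtain ⟨t, ht⟩ := hne
    ext x
    simp only [Finset.mem_univ, iff_true]
    have h1 : x - t ∈ orb π d := (hmem _).2 (by rw [hg]; exact one_dvd _)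
    have := hT t ht (x - t) h1
    simpa using this
  have hn6 : 6 ≤ n := by omega
  have hgn : g < n := by omega
  have hgval : ((g : ℕ) : ZMod n).val = g := by
    rw [ZMod.val_natCast]; exact Nat.mod_eq_of_lt hgn
  have hgK : ((g : ℕ) : ZMod n) ∈ orb π d := (hmem _).2 (by rw [hgval])
  have hdvdn : g ∣ n := ⟨M, hn⟩
  have hk3 : 3 ≤ T.card := by
    have h1 := card_per (orb π d) T hT
    have h2 : 0 < T.card := Finset.card_pos.2 hne
    exact le_trans hM3 (Nat.le_of_dvd h2 h1)
  set k := T.card with hk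
  by_contra hbad
  have hnk : n ≤ n * k := Nat.le_mul_of_pos_right n (by omega)
  have e1 : n * (k - 1) + n = n * k := by
    obtain ⟨j, hj⟩ : ∃ j, k = j + 1 := ⟨k - 1, by omega⟩
    rw [hj]; simp; ring
  have e2 : n * (k - 1 - 1) + n = n * (k - 1) := by
    obtain ⟨j, hj⟩ : ∃ j, k = j + 2 := ⟨k - 2, by omega⟩
    rw [hj]
    have : j + 2 - 1 - 1 = j := by omega
    rw [this]
    have : j + 2 - 1 = j + 1 := by omega
    rw [this]; ring
  have e3 : n * (k - 1 - 1 - 1) + n = n * (k - 1 - 1) := by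
    obtain ⟨j, hj⟩ : ∃ j, k = j + 3 := ⟨k - 3, by omega⟩
    rw [hj]
    have : j + 3 - 1 - 1 - 1 = j := by omega
    rw [this]
    have : j + 3 - 1 - 1 = j + 1 := by omega
    rw [this]; ring
  -- all valid `c` are `-1` modulo `K`
  have hV : ∀ c ∈ T, (∃ κ ∈ orb π d, c + π κ ∉ T) → c + 1 ∈ orb π d := by
    rintro c hc ⟨κ, hκ, hcκ⟩
    set c' : ZMod n := ((c.val % g : ℕ) : ZMod n) with hc'
    have hlt : c.val % g < g := Nat.mod_lt _ (by omega)
    have hc'val : c'.val = c.val % g := by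
      rw [hc', ZMod.val_natCast]; exact Nat.mod_eq_of_lt (by omega)
    have hdiff : c - c' ∈ orb π d := by
      have h1 : c = c' + ((g * (c.val / g) : ℕ) : ZMod n) := by
        rw [hc', ← Nat.cast_add, Nat.mod_add_div, ZMod.natCast_zmod_val]
      have h2 : c - c' = ((g * (c.val / g) : ℕ) : ZMod n) := by
        nth_rewrite 1 [h1]; ring
      rw [h2, hmem, ZMod.val_natCast]
      exact (Nat.dvd_mod_iff hdvdn).2 (dvd_mul_right _ _)
    have hc'T : c' ∈ T := by
      have := hT c hc (-(c - c')) ((orb π d).neg_mem hdiff)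
      have h2 : c + -(c - c') = c' := by ring
      rwa [h2] at this
    have hc'κ : c' + π κ ∉ T := by
      intro h
      have := hT _ h _ hdiff
      have h2 : c' + π κ + (c - c') = c + π κ := by ring
      rw [h2] at this
      exact hcκ this
    have h0 : (0 : ZMod n) ∈ ke π (sh T c') := by
      rw [mem_ke, hπ, mem_sh, zero_add]; exact hc'T
    have hκ' : κ ∉ ke π (sh T c') := by
      rw [mem_ke, mem_sh, add_comm]; exact hc'κ
    have hcard : (ke π (sh T c')).card = k := by rw [card_ke, card_sh]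
    have h1 := rowK π d B hB hπ hd g hg1 hn (by omega) hmem (ke π (sh T c'))
      (fun V hV => IH V (by rw [hcard] at hV; exact hV)) 0 κ h0 (zero_mem _) hκ' hκ
    rw [hcard] at h1
    have h2 := hB.keep (sh T c') _ (by rw [mem_sh, zero_add]; exact hc'T) h1
    have h3 := hB.rot T c' _ h2
    rw [hc'val] at h3
    have h4 : c.val % g = g - 1 := by
      by_contra hne'
      apply hbad
      exact hB.mono _ _ _ h3 (by omega)
    have h5 : c' + 1 = ((g : ℕ) : ZMod n) := by
      rw [hc', h4]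
      have : ((g : ℕ) : ZMod n) = (((g - 1) + 1 : ℕ) : ZMod n) := by congr 1; omega
      rw [this]; push_cast; ring
    have h6 : c + 1 = (c - c') + (c' + 1) := by ring
    rw [h6, h5]
    exact (orb π d).add_mem hdiff hgK
  obtain ⟨c0, hc0T, κ0, hκ0, hc0⟩ := hval
  have hc01 : c0 + 1 ∈ orb π d := hV c0 hc0T ⟨κ0, hκ0, hc0⟩
  have hm1T : (-1 : ZMod n) ∈ T := by
    have := hT c0 hc0T (-(c0 + 1)) ((orb π d).neg_mem hc01)
    have h2 : c0 + -(c0 + 1) = -1 := by ring
    rwa [h2] at this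
  have hm1κ : -1 + π κ0 ∉ T := by
    intro h
    have := hT _ h _ hc01
    have h2 : -1 + π κ0 + (c0 + 1) = c0 + π κ0 := by ring
    rw [h2] at this
    exact hc0 this
  set c1 : ZMod n := ((g - 1 : ℕ) : ZMod n) with hc1
  have hc1val : c1.val = g - 1 := by
    rw [hc1, ZMod.val_natCast]; exact Nat.mod_eq_of_lt (by omega)
  have hc1g : c1 + 1 = ((g : ℕ) : ZMod n) := by
    have : ((g : ℕ) : ZMod n) = (((g - 1) + 1 : ℕ) : ZMod n) := by congr 1; omega
    rw [this, hc1]; push_cast; ring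
  set T0 := ke π (sh T c1) with hT0
  have memT0 : ∀ x, x ∈ T0 ↔ -1 + π x ∈ T := by
    intro x
    rw [hT0, mem_ke, mem_sh]
    constructor
    · intro h
      have := hT _ h _ ((orb π d).neg_mem hgK)
      rw [← hc1g] at this
      have h2 : π x + c1 + -(c1 + 1) = -1 + π x := by ring
      rwa [h2] at this
    · intro h
      have := hT _ h _ hgK
      rw [← hc1g] at this
      have h2 : -1 + π x + (c1 + 1) = π x + c1 := by ring
      rwa [h2] at this
  have hT0card : T0.card = k := by rw [hT0, card_ke, card_sh]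
  have h0T0 : (0 : ZMod n) ∈ T0 := by rw [memT0, hπ, add_zero]; exact hm1T
  have hκ0T0 : κ0 ∉ T0 := by rw [memT0]; exact hm1κ
  have hT0bad : ¬ B T0 (n * k - g) := by
    intro h
    have h1 : (0 : ZMod n) ∈ sh T c1 := by
      have := h0T0
      rw [hT0, mem_ke, hπ] at this
      exact this
    have h2 := hB.rot T c1 _ (hB.keep (sh T c1) _ h1 h)
    rw [hc1val] at h2
    exact hbad (hB.mono _ _ _ h2 (by omega))
  have hK0 : ∀ κ ∈ orb π d, κ ∈ T0 → π κ ∈ orb π d := fun κ hκ hκT =>
    k0_lemma π (orb π d) T hT hV hm1T ⟨κ0, hκ0, hm1κ⟩ κ hκ ((memT0 κ).1 hκT)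
  have hK0' : ∀ κ, π κ ∈ orb π d → κ ∈ T0 := fun κ h => (memT0 κ).2 (hT _ hm1T _ h)
  -- multiples of `g`
  have hval : ∀ h : ZMod n, h ∈ orb π d → n - 2 * g < h.val → h.val = n - g := by
    intro h hh hlt
    obtain ⟨a, ha⟩ := (hmem h).1 hh
    have hhlt := ZMod.val_lt h
    rw [ha] at hhlt hlt ⊢
    rw [hn] at hhlt
    have h4 : a < M := lt_of_mul_lt_mul_left hhlt (Nat.zero_le g)
    have h5 : g * M - 2 * g < g * a := by rw [← hn]; exact hlt
    have h6 : M - 2 < a := by
      by_contra hle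
      have h7 : g * a ≤ g * (M - 2) := Nat.mul_le_mul_left g (by omega)
      have h8 : g * (M - 2) = g * M - 2 * g := by
        rw [Nat.mul_sub]; ring_nf
      omega
    have h7 : a = M - 1 := by omega
    rw [h7, hn, Nat.mul_sub, mul_one]
  have hred : ∀ h ∈ T0, h ∈ orb π d → h + d ∉ T0 → h.val = n - g := by
    intro h hh hhK hhd
    obtain ⟨h1, h2⟩ := red_step π d B hB hπ T0 h hh hhd
    rw [hT0card] at h1
    have h3 := h2 _ (IH _ (by omega))
    have h4 : (re π (sh T0 h)).card = k - 1 := by omega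
    rw [h4] at h3
    apply hval h hhK
    by_contra hle
    exact hT0bad (hB.mono _ _ _ h3 (by omega))
  obtain ⟨h1, hh1T, hh1K, hh1d⟩ : ∃ h ∈ T0, h ∈ orb π d ∧ h + d ∉ T0 := by
    rcases step_row π d B hB hπ hd T0 0 κ0 h0T0 hκ0 (by rw [zero_add]; exact hκ0T0) with
      ⟨y, hyU, hyK, hyd⟩ | ⟨U', hU', hc⟩
    · exact ⟨y, hyU, by simpa using hyK, hyd⟩
    · exfalso
      rw [hT0card] at hU'
      have h3 := hc _ (IH U' (by omega))
      have h4 : U'.card = k - 1 := by omega
      rw [h4] at h3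
      exact hT0bad (hB.mono _ _ _ h3 (by omega))
  have hh1val := hred h1 hh1T hh1K hh1d
  obtain ⟨hT1card, hT1c⟩ := red_step π d B hB hπ T0 h1 hh1T hh1d
  set T1 := re π (sh T0 h1) with hT1
  rw [hT0card] at hT1card
  have hT1card' : T1.card = k - 1 := by omega
  have hT1bad : ¬ B T1 (n * T1.card - 1) := by
    intro h
    have h2 := hT1c _ h
    rw [hh1val, hT1card'] at h2
    exact hT0bad (hB.mono _ _ _ h2 (by omega))
  obtain ⟨hz, hper⟩ := near_per π d B hB hπ hd (by omega) (by omega) T1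
    (fun V hV => IH V (by omega)) (by rw [hT1card]; exact card_per _ _ hT) hT1bad
  have hm1T1 : (-1 : ZMod n) ∈ T1 := by
    rcases hper (-1 + d) (Or.inr rfl) (-d) ((orb π d).neg_mem hdK) with h | h
    · have h2 : -1 + d + -d = -1 := by ring
      rwa [h2] at h
    · exfalso
      have h2 : -1 + d + -d = -1 := by ring
      rw [h2] at h
      apply hd
      have h3 : d = (-1 + d) + 1 := by ring
      rw [h3, ← h]; ring
  obtain ⟨hT2card, hT2c⟩ := red_step π d B hB hπ T1 (-1) hm1T1 hz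
  set T2 := re π (sh T1 (-1)) with hT2
  have hT2card' : T2.card = k - 1 - 1 := by omega
  have hm1val : (-1 : ZMod n).val = n - 1 := by
    have : (-1 : ZMod n) = ((n - 1 : ℕ) : ZMod n) := by
      rw [Nat.cast_sub (by omega), ZMod.natCast_self]; simp
    rw [this, ZMod.val_natCast]
    exact Nat.mod_eq_of_lt (by omega)
  have hT2bad : ¬ B T2 (n * (k - 1 - 1) - 1) := by
    intro h
    have h2 := hT2c _ h
    rw [hm1val] at h2
    apply hT1bad
    rw [hT1card']
    refine hB.mono _ _ _ h2 ?_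
    have : n ≤ n * (k - 1 - 1) := Nat.le_mul_of_pos_right n (by omega)
    omega
  have hT2K : ∀ x ∈ T2, x ∉ orb π d := by
    intro x hx hxK
    have h0 : (0 : ZMod n) ∉ T2 := by
      rw [hT2, mem_re]; exact fun h => h.1 rfl
    have h2 := rowK π d B hB hπ hd g hg1 hn (by omega) hmem T2
      (fun V hV => IH V (by omega)) x 0 hx hxK h0 (zero_mem _)
    rw [hT2card'] at h2
    exact hT2bad (hB.mono _ _ _ h2 (by omega))
  have hfix : ∀ κ ∈ orb π d, κ ≠ 0 → π κ ∈ orb π d → π κ = d := by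
    intro κ hκ hκ0' hπκ
    have h2 : π κ + (-1) ∉ T1 := by
      intro h
      exact hT2K κ (by rw [hT2, mem_re, mem_sh]; exact ⟨hκ0', h⟩) hκ
    rcases hper (-1 + d) (Or.inr rfl) (π κ - d) ((orb π d).sub_mem hπκ hdK) with h | h
    · have h3 : -1 + d + (π κ - d) = π κ + -1 := by ring
      rw [h3] at h
      exact absurd h h2
    · have h3 : π κ = (-1 + d + (π κ - d)) + 1 := by ring
      rw [h3, h]; ring
  have hπd : π d = d := hfix d hdK hd hπdK
  have honly : ∀ κ ∈ orb π d, κ ∈ T0 → κ = 0 ∨ κ = d := by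
    intro κ hκ hκT
    by_cases h0 : κ = 0
    · exact Or.inl h0
    · right
      apply π.injective
      rw [hπd]
      exact hfix κ hκ h0 (hK0 κ hκ hκT)
  have hdT0 : d ∈ T0 := hK0' d (by rw [hπd]; exact hdK)
  have hddT0 : d + d ∉ T0 := by
    intro h
    rcases honly _ ((orb π d).add_mem hdK hdK) h with h' | h'
    · have hall : ∀ x ∈ orb π d, x = 0 ∨ x = d := by
        intro x hx
        have hpow : ∀ i : ℕ, (π ^ i) d = d := by
          intro i
          induction i with
          | zero => rfl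
          | succ i ih => rw [pow_succ, Equiv.Perm.mul_apply, hπd, ih]
        have hnd : -d = d := by
          have h3 : -d = d - (d + d) := by ring
          rw [h3, h', sub_zero]
        refine AddSubgroup.closure_induction (p := fun x _ => x = 0 ∨ x = d) ?_ ?_ ?_ ?_ hx
        · rintro y ⟨i, rfl⟩
          exact Or.inr (hpow i)
        · exact Or.inl rfl
        · rintro a b _ _ (rfl | rfl) (rfl | rfl)
          · left; simp
          · right; simp
          · right; simp
          · left; exact h'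
        · rintro a _ (rfl | rfl)
          · left; simp
          · right; exact hnd
      rcases hall xe hxe with h3 | h3
      · exact hxe0 h3
      · exact hxed h3
    · apply hd
      have h3 : d = (d + d) - d := by ring
      rw [h3, h']; ring
  have hdval : d.val = n - g := hred d hdT0 hdK hddT0
  have hdg : d = -((g : ℕ) : ZMod n) := by
    have h2 : d = ((n - g : ℕ) : ZMod n) := by rw [← hdval, ZMod.natCast_zmod_val]
    rw [h2, Nat.cast_sub (by omega), ZMod.natCast_self, zero_sub]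
  obtain ⟨m, y, hm1, hy0, hyE, hyred, hmy⟩ := claimA π g hg1 h3g hπ (by rw [← hdg]; exact hπd)
    (sh T0 d) (by rw [mem_sh, hdg, add_neg_cancel]; exact h0T0)
    (by rw [← hdg, mem_sh]; exact hddT0)
  have h0E : (0 : ZMod n) ∈ sh T0 d := by rw [mem_sh, zero_add]; exact hdT0
  have hdE : d ∉ sh T0 d := by rw [mem_sh]; exact hddT0
  have hpow0 : (π ^ m) 0 = 0 := by
    clear hmy hyred hyE hm1
    induction m with
    | zero => rfl
    | succ i ih => rw [pow_succ, Equiv.Perm.mul_apply, hπ, ih]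
  have hΦcard := card_re (π ^ m) (sh T0 d) hpow0 h0E
  rw [card_sh, hT0card] at hΦcard
  have hyΦ : y ∈ re (π ^ m) (sh T0 d) := (mem_re _ _ _).2 ⟨hy0, hyE⟩
  have hydΦ : y + d ∉ re (π ^ m) (sh T0 d) := by
    rw [mem_re]
    rintro ⟨h2, h3⟩
    have h4 : y + d = y - ((g : ℕ) : ZMod n) := by rw [hdg]; ring
    rw [h4] at h2 h3
    rcases hyred with h5 | h5
    · exact h2 h5
    · exact h5 h3
  obtain ⟨hU1, hU2⟩ := red_step π d B hB hπ (re (π ^ m) (sh T0 d)) y hyΦ hydΦ
  have h5 := hU2 _ (IH _ (by omega))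
  have h6 : (re π (sh (re (π ^ m) (sh T0 d)) y)).card = k - 1 - 1 := by omega
  rw [h6] at h5
  have h7 := cost_phi π d B hB hπ hπd (sh T0 d) h0E hdE m hm1 _ h5
  have h8 := hB.rot T0 d _ h7
  rw [hdval] at h8
  exact hT0bad (hB.mono _ _ _ h8 (by omega))

theorem main_per' {n : ℕ} [NeZero n] (π : Equiv.Perm (ZMod n)) (d : ZMod n)
    (B : Finset (ZMod n) → ℕ → Prop) (hB : Cost π d B) (hπ : π 0 = 0) (hd : d ≠ 0)
    (hesc : ∃ x ∈ orb π d, π x ∉ orb π d)
    (hgen : AddSubgroup.closure ((orb π d : Set (ZMod n)) ∪ π '' (orb π d : Set (ZMod n))) = ⊤)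
    (T : Finset (ZMod n)) (hT : Per (orb π d) T) (hne : T.Nonempty) (hu : T ≠ Finset.univ)
    (IH : ∀ V : Finset (ZMod n), V.card < T.card → B V (n * V.card)) : B T (n * T.card) :=
  main_per_val π d B hB hπ hd hesc T hT hne hu
    (exists_valid π (orb π d) hgen T hT hne hu) IH

end Pool.Agent.Helper85.Don
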