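import Pool.Agent.Helper85.Don.Defs

set_option autoImplicit false

namespace Pool.Agent.Helper85.Don



theorem bd_cost_append {n : ℕ} [NeZero n] (f : ZMod n → ZMod n) (w : List Bool) (b : Bool) :
    Finset.univ.image (fun q : ZMod n =>
      (w ++ [b]).foldl (fun (p : ZMod n) (b : Bool) => if b then f p else p + 1) q) =
    (Finset.univ.image (fun q : ZMod n =>
      w.foldl (fun (p : ZMod n) (b : Bool) => if b then f p else p + 1) q)).image
      (fun p => if b then f p else p + 1) := by
  rw [Finset.image_image]
  apply Finset.image_congr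
  intro q _
  simp [List.foldl_append]

theorem bd_cost_rot {n : ℕ} [NeZero n] (f : ZMod n → ZMod n) (w : List Bool) (k : ℕ) :
    Finset.univ.image (fun q : ZMod n =>
      (w ++ List.replicate k false).foldl
        (fun (p : ZMod n) (b : Bool) => if b then f p else p + 1) q) =
    (Finset.univ.image (fun q : ZMod n =>
      w.foldl (fun (p : ZMod n) (b : Bool) => if b then f p else p + 1) q)).image
      (fun p => p + (k : ZMod n)) := by
  induction k with
  | zero =>
    simp
  | succ k ih =>
    rw [List.replicate_succ', ← List.append_assoc, bd_cost_append, ih, Finset.image_image]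
    apply Finset.image_congr
    intro q _
    simp only [Function.comp, Bool.false_eq_true, if_false]
    push_cast
    ring

theorem bd_cost {n : ℕ} [NeZero n] (π : Equiv.Perm (ZMod n)) (d : ZMod n) (f : ZMod n → ZMod n)
    (hπ : π 0 = 0) (hd : d ≠ 0) (hf : ∀ x, f x = if x = 0 then d else π x) :
    Cost π d (Bd f) := by
  refine ⟨?_, ?_, ?_, ?_, ?_⟩
  · rintro T c c' ⟨w, hw, h⟩ hc
    exact ⟨w, hw.trans hc, h⟩
  · refine ⟨[], by simp, ?_⟩
    simp
  · rintro T y c ⟨w, hw, h⟩
    refine ⟨w ++ List.replicate y.val false, by simp; omega, ?_⟩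
    rw [bd_cost_rot, h, ZMod.natCast_zmod_val]
    ext x
    simp only [Finset.mem_image, Finset.mem_compl, sh, Finset.mem_filter, Finset.mem_univ,
      true_and]
    constructor
    · rintro ⟨a, ha, rfl⟩
      exact ha
    · intro hx
      exact ⟨x - y, by rwa [sub_add_cancel], sub_add_cancel _ _⟩
  · rintro T c h0 ⟨w, hw, h⟩
    refine ⟨w ++ [true], by simp; omega, ?_⟩
    rw [bd_cost_append, h]
    ext x
    simp only [Finset.mem_image, Finset.mem_compl, ke, Finset.mem_filter, Finset.mem_univ,
      true_and, if_true]
    constructor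
    · rintro ⟨a, ha, rfl⟩
      have ha0 : a ≠ 0 := by
        rintro rfl
        rw [hπ] at ha
        exact ha h0
      rw [hf, if_neg ha0]
      exact ha
    · intro hx
      refine ⟨π.symm x, by rwa [Equiv.apply_symm_apply], ?_⟩
      have ha0 : π.symm x ≠ 0 := by
        intro h'
        have : x = π 0 := by rw [← h', Equiv.apply_symm_apply]
        rw [hπ] at this
        rw [this] at hx
        exact hx h0
      rw [hf, if_neg ha0, Equiv.apply_symm_apply]
  · rintro T c h0 hdT ⟨w, hw, h⟩
    refine ⟨w ++ [true], by simp; omega, ?_⟩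
    rw [bd_cost_append, h]
    ext x
    simp only [Finset.mem_image, Finset.mem_compl, re, Finset.mem_filter, Finset.mem_univ,
      true_and, if_true]
    constructor
    · rintro ⟨a, ha, rfl⟩
      rw [hf]
      split_ifs with h1
      · exact hdT
      · intro h2
        exact ha ⟨h1, h2⟩
    · intro hx
      refine ⟨π.symm x, by rw [Equiv.apply_symm_apply]; exact fun h' => hx h'.2, ?_⟩
      have ha0 : π.symm x ≠ 0 := by
        intro h'
        have : x = π 0 := by rw [← h', Equiv.apply_symm_apply]
        rw [hπ] at this
        rw [this] at hx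
        exact hx h0
      rw [hf, if_neg ha0, Equiv.apply_symm_apply]

end Pool.Agent.Helper85.Don
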