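import Pool.Agent.Helper85.Don.Defs

set_option autoImplicit false

namespace Pool.Agent.Helper85.Don



theorem perm_of {n : ℕ} [NeZero n] (f : ZMod n → ZMod n)
    (hexc : ∀ q : ZMod n, (∀ p : ZMod n, f p ≠ q) ↔ q = 0)
    (hdup : ∀ q : ZMod n, (∃ p₁ p₂ : ZMod n, p₁ ≠ p₂ ∧ f p₁ = q ∧ f p₂ = q) ↔ q = f 0) :
    f 0 ≠ 0 ∧ ∃ π : Equiv.Perm (ZMod n), π 0 = 0 ∧ ∀ x, f x = if x = 0 then f 0 else π x := by
  classical
  have h0 : ∀ p, f p ≠ 0 := (hexc 0).mpr rfl
  refine ⟨h0 0, ?_⟩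
  let g : ZMod n → ZMod n := fun x => if x = 0 then 0 else f x
  have hsurj : Function.Surjective g := by
    intro q
    by_cases hq : q = 0
    · exact ⟨0, by simp [g, hq]⟩
    · have h1 : ¬ ∀ p, f p ≠ q := fun h => hq ((hexc q).mp h)
      push Not at h1
      obtain ⟨p, hp⟩ := h1
      by_cases hp0 : p = 0
      · obtain ⟨p1, p2, hne, h2, h3⟩ := (hdup (f 0)).mpr rfl
        rw [hp0] at hp
        by_cases hp1 : p1 = 0
        · have hp2 : p2 ≠ 0 := fun h => hne (by rw [hp1, h])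
          exact ⟨p2, by simp [g, hp2, h3, hp]⟩
        · exact ⟨p1, by simp [g, hp1, h2, hp]⟩
      · exact ⟨p, by simp [g, hp0, hp]⟩
  have hbij : Function.Bijective g := Finite.surjective_iff_bijective.mp hsurj
  refine ⟨Equiv.ofBijective g hbij, by simp [g], fun x => ?_⟩
  by_cases hx : x = 0
  · simp [hx]
  · simp [g, hx]

end Pool.Agent.Helper85.Don
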